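import Pool.Agent.H1.QB.Nrm

set_option autoImplicit false
set_option linter.unusedSectionVars false
set_option linter.unusedVariables false

/-! # Assembly of block forms -/

namespace Pool.Agent.H1.QB

open MvPolynomial

section

variable {σ K : Type} [Fintype σ] [Field K] {B V I : Type} [Fintype B] [Fintype V] [Fintype I]

open Classical in
/-- Block forms from general tails: the tail of a block is zero, or a power of the block variable
times a unit, or a power of the block variable times a coordinate with private directions. -/
theorem asm {F : MvPolynomial σ K} (d : BD B V I) (l : B → MvPolynomial σ K)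
    (ξ : V → MvPolynomial σ K) (U : I → MvPolynomial σ K) (D : MvPolynomial σ K)
    (hl : ∀ k, constantCoeff (l k) = 0) (hξ : ∀ v, constantCoeff (ξ v) = 0)
    (hU : ∀ i, constantCoeff (U i) ≠ 0) (hD : constantCoeff D ≠ 0)
    (hli : LinearIndependent K fun t : B ⊕ V => fun i : σ =>
      coeff (Finsupp.single i 1) (Sum.elim l ξ t)) (R : B → MvPolynomial σ K)
    (heq : D * F = (∑ i, U i * ((∏ k, l k ^ d.M i k) * ∏ v, ξ v ^ d.ex i v)) + ∑ k, R k)
    (ow : σ → Option B)
    (how : ∀ s, ow s ≠ none → ∀ t, coeff (Finsupp.single s 1) (Sum.elim l ξ t) = 0)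
    (hR : ∀ k, R k = 0 ∨ (∃ (n : ℕ) (Z : MvPolynomial σ K), n ≠ 0 ∧ constantCoeff Z ≠ 0 ∧
      R k = Z * l k ^ n) ∨ (∃ (n : ℕ) (Z : MvPolynomial σ K) (s s' : σ), n ≠ 0 ∧
        constantCoeff Z = 0 ∧ R k = Z * l k ^ n ∧ s ≠ s' ∧ ow s = some k ∧ ow s' = some k ∧
        coeff (Finsupp.single s 1) Z ≠ 0 ∧
        ∀ s k', ow s = some k' → k' ≠ k → coeff (Finsupp.single s 1) Z = 0)) :
    ∃ (E : Type) (_ : Fintype E) (d' : BD B (V ⊕ E) (I ⊕ E)),
      2 * Fintype.card E ≤ Fintype.card {s // ow s ≠ none} ∧ IsBF F d' := by
  set P1 : B → Prop := fun k => R k ≠ 0 ∧ ∃ (n : ℕ) (Z : MvPolynomial σ K), n ≠ 0 ∧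
    constantCoeff Z ≠ 0 ∧ R k = Z * l k ^ n with hP1
  set P2 : B → Prop := fun k => R k ≠ 0 ∧ ¬ P1 k with hP2
  have h1 : ∀ k, P1 k → ∃ (n : ℕ) (Z : MvPolynomial σ K), n ≠ 0 ∧
    constantCoeff Z ≠ 0 ∧ R k = Z * l k ^ n := fun k hk => hk.2
  choose! nA ZA hA1 hA2 hA3 using h1
  have h2 : ∀ k : {k // P2 k}, ∃ (n : ℕ) (Z : MvPolynomial σ K) (s s' : σ), n ≠ 0 ∧
        constantCoeff Z = 0 ∧ R k.1 = Z * l k.1 ^ n ∧ s ≠ s' ∧ ow s = some k.1 ∧
        ow s' = some k.1 ∧ coeff (Finsupp.single s 1) Z ≠ 0 ∧
        ∀ s k', ow s = some k' → k' ≠ k.1 → coeff (Finsupp.single s 1) Z = 0 := by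
    rintro ⟨k, hk0, hk1⟩
    rcases hR k with h | h | h
    · exact absurd h hk0
    · exact absurd ⟨hk0, h⟩ hk1
    · exact h
  choose nE ZE sE sE' hE1 hE2 hE3 hE4 hE5 hE6 hE7 hE8 using h2
  have hsj : Function.Surjective (Sum.map d.π (id : {k // P2 k} → {k // P2 k})) :=
    Sum.map_surjective.2 ⟨d.sj, Function.surjective_id⟩
  set d' : BD B (V ⊕ {k // P2 k}) (I ⊕ {k // P2 k}) :=
    { M := fun i k => Sum.elim (fun i => d.M i k) (fun e => if k = e.1 then nE e else 0) i
      sg := by
        rintro (i | e) k k' h h'
        · exact d.sg i k k' h h'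
        · simp only [Sum.elim_inr] at h h'
          have h3 : k = e.1 := by
            by_contra h4
            rw [if_neg h4] at h
            exact h rfl
          have h5 : k' = e.1 := by
            by_contra h4
            rw [if_neg h4] at h'
            exact h' rfl
          rw [h3, h5]
      π := Sum.map d.π id
      sj := hsj
      a := Sum.elim d.a fun _ => 1
      a0 := by
        rintro (v | e)
        · exact d.a0 v
        · exact one_ne_zero
      A := P1
      n := nA
      n0 := hA1 } with hd'
  refine ⟨{k // P2 k}, inferInstance, d', ?_, ?_⟩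
  · have h3 : Function.Injective (fun x : {k // P2 k} ⊕ {k // P2 k} =>
        (Sum.elim (fun e => ⟨sE e, by rw [hE5]; exact Option.some_ne_none _⟩)
          (fun e => ⟨sE' e, by rw [hE6]; exact Option.some_ne_none _⟩) x :
          {s // ow s ≠ none})) := by
      rintro (e | e) (e' | e') h
      · simp only [Sum.elim_inl, Subtype.mk.injEq] at h
        have h4 := hE5 e
        rw [h, hE5 e', Option.some_inj] at h4
        rw [Subtype.ext h4]
      · simp only [Sum.elim_inl, Sum.elim_inr, Subtype.mk.injEq] at h
        have h4 := hE5 e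
        rw [h, hE6 e', Option.some_inj] at h4
        have h5 : e' = e := Subtype.ext h4
        subst h5
        exact absurd h (hE4 e')
      · simp only [Sum.elim_inl, Sum.elim_inr, Subtype.mk.injEq] at h
        have h4 := hE6 e
        rw [h, hE5 e', Option.some_inj] at h4
        have h5 : e' = e := Subtype.ext h4
        subst h5
        exact absurd h.symm (hE4 e')
      · simp only [Sum.elim_inr, Subtype.mk.injEq] at h
        have h4 := hE6 e
        rw [h, hE6 e', Option.some_inj] at h4
        rw [Subtype.ext h4]
    have h4 := Fintype.card_le_of_injective _ h3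
    rw [Fintype.card_sum] at h4
    omega
  · refine ⟨l, Sum.elim ξ ZE, Sum.elim U (fun _ => 1), ZA, D, hl, ?_, ?_, fun k hk => hA2 k hk, hD,
      ?_, ?_⟩
    · rintro (v | e)
      · exact hξ v
      · exact hE2 e
    · rintro (i | e)
      · exact hU i
      · simp only [Sum.elim_inr, map_one]
        exact one_ne_zero
    · rw [Fintype.linearIndependent_iff] at hli ⊢
      intro g hg
      have h3 : ∀ e : {k // P2 k}, g (Sum.inr (Sum.inr e)) = 0 := by
        intro e
        have h4 := congrFun hg (sE e)
        rw [Finset.sum_apply, Fintype.sum_sum_type, Fintype.sum_sum_type] at h4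
        simp only [Pi.smul_apply, smul_eq_mul, Sum.elim_inl, Sum.elim_inr, Pi.zero_apply] at h4
        have h5 : ow (sE e) ≠ none := by rw [hE5]; exact Option.some_ne_none _
        have h6 : ∀ k, coeff (Finsupp.single (sE e) 1) (l k) = 0 := fun k =>
          how _ h5 (Sum.inl k)
        have h7 : ∀ v, coeff (Finsupp.single (sE e) 1) (ξ v) = 0 := fun v =>
          how _ h5 (Sum.inr v)
        rw [Finset.sum_eq_zero fun k _ => by rw [h6, mul_zero],
          Finset.sum_eq_zero fun k _ => by rw [h7, mul_zero], zero_add, zero_add,
          Finset.sum_eq_single e] at h4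
        · exact (mul_eq_zero.1 h4).resolve_right (hE7 e)
        · intro e' _ hne
          rw [hE8 e' (sE e) e.1 (hE5 e) (fun h => hne (Subtype.ext h.symm)), mul_zero]
        · exact fun h => absurd (Finset.mem_univ _) h
      have h8 : ∀ t : B ⊕ V, g (Sum.elim (fun k => Sum.inl k) (fun v => Sum.inr (Sum.inl v)) t)
          = 0 := by
        refine hli _ ?_
        rw [← hg]
        rw [Fintype.sum_sum_type, Fintype.sum_sum_type, Fintype.sum_sum_type]
        simp only [Sum.elim_inl, Sum.elim_inr]
        rw [Finset.sum_eq_zero (s := Finset.univ) (f := fun e : {k // P2 k} =>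
          g (Sum.inr (Sum.inr e)) • fun i => coeff (Finsupp.single i 1) (ZE e))
          (fun e _ => by rw [h3, zero_smul]), add_zero]
      rintro (k | v | e)
      · exact h8 (Sum.inl k)
      · exact h8 (Sum.inr v)
      · exact h3 e
    · rw [heq, Fintype.sum_sum_type, add_assoc]
      congr 1
      · refine Finset.sum_congr rfl fun i _ => ?_
        simp only [Sum.elim_inl]
        congr 2
        rw [Fintype.prod_sum_type]
        simp only [Sum.elim_inl, Sum.elim_inr]
        rw [Finset.prod_eq_one (s := Finset.univ) (f := fun e : {k // P2 k} =>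
          ZE e ^ d'.ex (Sum.inl i) (Sum.inr e)), mul_one]
        · refine Finset.prod_congr rfl fun v _ => ?_
          congr 1
          unfold BD.ex
          rw [hd']
          simp only [Sum.map_inl, Sum.inl.injEq, Sum.elim_inl]
        · intro e _
          unfold BD.ex
          rw [hd']
          simp
      · have h3 : ∀ e : {k // P2 k}, (Sum.elim U (fun _ => 1) (Sum.inr e) : MvPolynomial σ K) *
            ((∏ k, l k ^ d'.M (Sum.inr e) k) * ∏ v : V ⊕ {k // P2 k}, (Sum.elim ξ ZE v) ^
              d'.ex (Sum.inr e) v) = R e.1 := by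
          intro e
          rw [hE3 e, Sum.elim_inr, one_mul, Fintype.prod_sum_type, mul_comm]
          congr 1
          · rw [Finset.prod_eq_one, one_mul, Finset.prod_eq_single e]
            · unfold BD.ex
              rw [hd']
              simp
            · intro e' _ hne
              unfold BD.ex
              rw [hd']
              simp [hne]
            · exact fun h => absurd (Finset.mem_univ _) h
            · intro v _
              unfold BD.ex
              rw [hd']
              simp
          · rw [Finset.prod_eq_single e.1]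
            · rw [hd']
              simp
            · intro k _ hne
              rw [hd']
              simp [hne]
            · exact fun h => absurd (Finset.mem_univ _) h
        rw [Finset.sum_congr rfl fun e _ => h3 e]
        have h4 : ∀ k : {k // P1 k}, ZA k.1 * l k.1 ^ nA k.1 = R k.1 := fun k =>
          (hA3 k.1 k.2).symm
        have h5 : ∀ _ : Fintype {k // d'.A k}, (∑ k : {k // d'.A k}, ZA k.1 * l k.1 ^ d'.n k.1) =
            ∑ k ∈ Finset.univ.filter (fun k => P1 k), R k := by
          intro _
          rw [Finset.sum_subtype (p := d'.A) (Finset.univ.filter fun k => P1 k)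
            (fun x => by simp [hd']) R]
          exact Finset.sum_congr rfl fun k _ => h4 k
        rw [h5, ← Finset.sum_subtype
          (Finset.univ.filter fun k => P2 k) (by simp) R, ← Finset.sum_union]
        · symm
          refine Finset.sum_subset (Finset.subset_univ _) fun k _ hk => ?_
          by_contra h5
          apply hk
          rw [Finset.mem_union, Finset.mem_filter, Finset.mem_filter]
          by_cases h6 : P1 k
          · exact Or.inr ⟨Finset.mem_univ _, h6⟩
          · exact Or.inl ⟨Finset.mem_univ _, h5, h6⟩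
        · rw [Finset.disjoint_left]
          intro k hk hk'
          exact (Finset.mem_filter.1 hk).2.2 (Finset.mem_filter.1 hk').2

end

end Pool.Agent.H1.QB
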