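import Pool.Graph.R_pool_sql_team_seeded_3997aac3.Q57.QP.All

set_option autoImplicit false
set_option linter.unusedSectionVars false
set_option linter.unusedVariables false

/-! # Weighted homogeneous functions, all weights positive -/

namespace Pool.Agent.H1.QB

open MeasureTheory Topology
open Pool.Agent.W427.SMC Pool.Agent.Y230.PT Pool.Agent.Y230.PS Pool.Agent.Q57.QP
open Pool.Agent.Q66.QP
open scoped ENNReal

attribute [local instance] msK bsK msZ bsZ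

variable {p : ℕ} [Fact p.Prime] {σ : Type} [Fintype σ]

/-- the weighted dilation -/
noncomputable def wd (w : σ → ℕ) (c : ℚ_[p]) (x : σ → ℚ_[p]) : σ → ℚ_[p] := fun i => c ^ w i * x i

theorem wd_wd (w : σ → ℕ) (c e : ℚ_[p]) (x : σ → ℚ_[p]) : wd w c (wd w e x) = wd w (c * e) x := by
  funext i
  unfold wd
  rw [mul_pow, mul_assoc]

theorem wd_one (w : σ → ℕ) (x : σ → ℚ_[p]) : wd w 1 x = x := by
  funext i
  unfold wd
  rw [one_pow, one_mul]

theorem wd_cont (w : σ → ℕ) (c : ℚ_[p]) : Continuous (wd (p := p) w c) :=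
  continuous_pi fun i => continuous_const.mul (continuous_apply i)

/-- the dilation as a homeomorphism -/
noncomputable def wdH (w : σ → ℕ) (c : ℚ_[p]) (hc : c ≠ 0) : (σ → ℚ_[p]) ≃ₜ (σ → ℚ_[p]) where
  toFun := wd w c
  invFun := wd w c⁻¹
  left_inv x := by rw [wd_wd, inv_mul_cancel₀ hc, wd_one]
  right_inv x := by rw [wd_wd, mul_inv_cancel₀ hc, wd_one]
  continuous_toFun := wd_cont w c
  continuous_invFun := wd_cont w c⁻¹

theorem muE_wd (w : σ → ℕ) (c : ℚ_[p]) (hc : c ≠ 0) :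
    muE p σ = (N p 1 c) ^ (∑ i, w i) • Measure.map (wd w c) (muE p σ) := by
  unfold muE
  refine Measure.pi_eq fun s hs => ?_
  rw [Measure.smul_apply, Measure.map_apply (wd_cont w c).measurable
    (MeasurableSet.univ_pi hs)]
  have h1 : wd w c ⁻¹' (Set.univ.pi s) =
      Set.univ.pi (fun i => (fun x => c ^ w i * x) ⁻¹' (s i)) := by
    ext x
    simp only [Set.mem_preimage, Set.mem_pi, Set.mem_univ, true_imp_iff]
    exact Iff.rfl
  rw [h1, Measure.pi_pi]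
  have h2 : ∀ i, nu p ((fun x => c ^ w i * x) ⁻¹' (s i)) = ((N p 1 c)⁻¹) ^ w i * nu p (s i) := by
    intro i
    have hci : c ^ w i ≠ 0 := pow_ne_zero _ hc
    have h3 := lintegral_scale p (c ^ w i) hci ((s i).indicator 1)
    rw [lintegral_indicator_one (hs i)] at h3
    have h4 : ∀ x, (s i).indicator (1 : ℚ_[p] → ℝ≥0∞) (c ^ w i * x) =
        ((fun x => c ^ w i * x) ⁻¹' (s i)).indicator 1 x := fun x => rfl
    simp only [h4] at h3
    rw [lintegral_indicator_one ((measurable_const_mul (c ^ w i)) (hs i))] at h3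
    rw [← h3, N_pow, ← mul_assoc, ← mul_pow,
      ENNReal.inv_mul_cancel (N_ne_zero 1 hc) (N_ne_top 1 c), one_pow, one_mul]
  simp only [h2]
  rw [Finset.prod_mul_distrib, Finset.prod_pow_eq_pow_sum,
    smul_eq_mul, ← mul_assoc, ← mul_pow, ENNReal.mul_inv_cancel (N_ne_zero 1 hc) (N_ne_top 1 c),
    one_pow, one_mul]

theorem lintegral_wd (w : σ → ℕ) (c : ℚ_[p]) (hc : c ≠ 0) (F : (σ → ℚ_[p]) → ℝ≥0∞) :
    (N p 1 c) ^ (∑ i, w i) * ∫⁻ x, F (wd w c x) ∂(muE p σ) = ∫⁻ x, F x ∂(muE p σ) := by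
  have h1 := lintegral_map_equiv (μ := muE p σ) F (wdH w c hc).toMeasurableEquiv
  have h2 : ∫⁻ x, F x ∂(muE p σ) =
      ∫⁻ x, F x ∂((N p 1 c) ^ (∑ i, w i) • Measure.map (wd w c) (muE p σ)) := by
    rw [← muE_wd w c hc]
  rw [h2, lintegral_smul_measure]
  congr 1
  exact h1.symm

theorem iz_wd {h : (σ → ℚ_[p]) → ℝ} (hh : Siz h) (w : σ → ℕ) (d : ℕ)
    (hd : ∀ (a : ℚ_[p]) (x : σ → ℚ_[p]), h (wd w a x) = ‖a‖ ^ d * h x)
    (c : ℚ_[p]) (hc : c ≠ 0) {V : Set (σ → ℚ_[p])} (hV : MeasurableSet V) (s : ℝ) :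
    ∫⁻ x in wd w c '' V, ENNReal.ofReal (h x ^ s) ∂(muE p σ) =
      (N p 1 c) ^ (∑ i, w i) * (N p s c) ^ d * ∫⁻ x in V, ENNReal.ofReal (h x ^ s) ∂(muE p σ) := by
  have hinj : Function.Injective (wd (p := p) w c) := (wdH w c hc).injective
  have hVi : MeasurableSet (wd w c '' V) := by
    have := (wdH w c hc).toMeasurableEquiv.measurableSet_image.2 hV
    exact this
  rw [← lintegral_indicator hVi, ← lintegral_wd w c hc, ← lintegral_indicator hV, mul_assoc]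
  congr 1
  have h1 : ∀ x, (wd w c '' V).indicator (fun x => ENNReal.ofReal (h x ^ s)) (wd w c x) =
      (N p s c) ^ d * V.indicator (fun x => ENNReal.ofReal (h x ^ s)) x := by
    intro x
    by_cases hx : x ∈ V
    · rw [Set.indicator_of_mem hx, Set.indicator_of_mem (Set.mem_image_of_mem _ hx), hd,
        Real.mul_rpow (pow_nonneg (norm_nonneg _) _) (siz_nonneg hh x),
        ENNReal.ofReal_mul (Real.rpow_nonneg (pow_nonneg (norm_nonneg _) _) _)]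
      congr 1
      rw [← N_pow]
      unfold N
      rw [norm_pow]
    · rw [Set.indicator_of_notMem hx, mul_zero, Set.indicator_of_notMem]
      rintro ⟨y, hy, hxy⟩
      exact hx (hinj hxy ▸ hy)
  simp only [h1]
  rw [lintegral_const_mul' _ _ (ENNReal.pow_ne_top (N_ne_top _ _))]

theorem izc_wd {h : (σ → ℚ_[p]) → ℝ} (hh : Siz h) (w : σ → ℕ) (d : ℕ)
    (hd : ∀ (a : ℚ_[p]) (x : σ → ℚ_[p]), h (wd w a x) = ‖a‖ ^ d * h x)
    (c : ℚ_[p]) (hc : c ≠ 0) {V : Set (σ → ℚ_[p])} (hV : MeasurableSet V) (s : ℝ) :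
    IZ h (wd w c '' V) s =
      (((N p 1 c) ^ (∑ i, w i)).toReal : ℂ) * ((N p s c).toReal : ℂ) ^ d * IZ h V s := by
  unfold IZ
  rw [iz_wd hh w d hd c hc hV s, ENNReal.toReal_mul, ENNReal.toReal_mul,
    ENNReal.toReal_pow (N p s c)]
  push_cast
  rfl

theorem fr_wd (m : ℂ → ℕ∞) {h : (σ → ℚ_[p]) → ℝ} (hh : Siz h) (w : σ → ℕ) (d : ℕ)
    (hd : ∀ (a : ℚ_[p]) (x : σ → ℚ_[p]), h (wd w a x) = ‖a‖ ^ d * h x)
    (c : ℚ_[p]) (hc : c ≠ 0) {V : Set (σ → ℚ_[p])} (hV : MeasurableSet V)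
    (hF : FR p m (IZ h V)) : FR p m (IZ h (wd w c '' V)) := by
  classical
  have h1 : FR p m (fun s => ((N p s c).toReal : ℂ) ^ d * IZ h V s) :=
    FR.mul0 (fun T0 hT0 => (reg_N hT0 c hc).pow d) hF
  refine (fr_const_mul (((N p 1 c) ^ (∑ i, w i)).toReal : ℂ) h1).congr fun s hs => ?_
  rw [izc_wd hh w d hd c hc hV s, mul_assoc]

/-- **Weighted homogeneous functions.** If the integrals near the other points are of the required
kind, then the integral over the unit ball suffices. -/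
theorem lp_weighted [Nonempty σ] (w : σ → ℕ) (hw : ∀ i, 0 < w i) (d : ℕ) (hd0 : 0 < d)
    {h : (σ → ℚ_[p]) → ℝ} (hh : Siz h)
    (hd : ∀ (a : ℚ_[p]) (x : σ → ℚ_[p]), h (wd w a x) = ‖a‖ ^ d * h x) (m : ℂ → ℕ∞)
    (hP : ∀ P : σ → ℚ_[p], P ≠ 0 → LP m h P)
    (hB : ∀ T0 : ℂ, 1 < ‖T0‖ → ∃ M : ℕ, (M : ℕ∞) ≤ m T0 ∧
      Reg p T0 M (IZ h (Metric.closedBall 0 1))) : LP m h 0 := by
  classical
  have hpp : (p : ℚ_[p]) ≠ 0 := by exact_mod_cast (Fact.out : p.Prime).ne_zero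
  have hp1 : (1 : ℝ) < p := by exact_mod_cast (Fact.out : p.Prime).one_lt
  have hp0 : (0 : ℝ) < p := by linarith
  have hgl : ∀ V : Set (σ → ℚ_[p]), CO V → (0 : σ → ℚ_[p]) ∉ V → FR p m (IZ h V) :=
    fun V hV h0 => Pool.Agent.Q261.QP.qp_glue p h hh m V hV fun P hPV => hP P (by
      rintro rfl
      exact h0 hPV)
  set B : Set (σ → ℚ_[p]) := Metric.closedBall 0 1 with hBd
  have hBco : CO B := co_ball 0 one_pos
  have h0B : (0 : σ → ℚ_[p]) ∈ B := Metric.mem_closedBall_self zero_le_one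
  have hwco : ∀ c : ℚ_[p], c ≠ 0 → CO (wd w c '' B) := fun c hc =>
    ⟨hBco.1.image (wd_cont w c), (wdH w c hc).isOpenMap _ hBco.2⟩
  have hw0 : ∀ c : ℚ_[p], wd w c 0 = 0 := by
    intro c
    funext i
    simp [wd]
  have h0w : ∀ c : ℚ_[p], (0 : σ → ℚ_[p]) ∈ wd w c '' B := fun c => ⟨0, h0B, hw0 c⟩
  have hpow : ∀ (c : ℚ_[p]) (x : σ → ℚ_[p]), ‖c‖ ≤ 1 → x ∈ B → ‖wd w c x‖ ≤ ‖c‖ := by
    intro c x hc hx
    refine (pi_norm_le_iff_of_nonneg (norm_nonneg _)).2 fun i => ?_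
    unfold wd
    rw [norm_mul, norm_pow]
    have h1 : ‖c‖ ^ w i ≤ ‖c‖ ^ 1 := pow_le_pow_of_le_one (norm_nonneg _) hc (hw i)
    have h2 : ‖x i‖ ≤ 1 := by
      rw [hBd, Metric.mem_closedBall, dist_zero_right] at hx
      exact (norm_le_pi_norm x i).trans hx
    calc ‖c‖ ^ w i * ‖x i‖ ≤ ‖c‖ ^ 1 * 1 := mul_le_mul h1 h2 (norm_nonneg _) (by positivity)
      _ = ‖c‖ := by ring
  have hpn : ‖(p : ℚ_[p])‖ ≤ 1 := by
    rw [Padic.norm_p]
    exact inv_le_one_of_one_le₀ hp1.le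
  have hsub : wd w (p : ℚ_[p]) '' B ⊆ B := by
    rintro _ ⟨x, hx, rfl⟩
    rw [hBd, Metric.mem_closedBall, dist_zero_right]
    exact (hpow _ x hpn hx).trans hpn
  -- the unit ball
  have hball : FR p m (IZ h B) := by
    intro T0 hT0
    by_cases hT1 : ‖T0‖ ≤ 1
    swap
    · obtain ⟨M, h1, h2⟩ := hB T0 (not_le.1 hT1)
      exact ⟨M, by rw [Pool.Agent.Y230.PS.tr, if_neg hT1]; exact h1, h2⟩
    · obtain ⟨n, hn⟩ : ∃ n, ∑ i, w i = n + 1 := ⟨∑ i, w i - 1, by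
        have : 0 < ∑ i, w i := Finset.sum_pos (fun i _ => hw i) Finset.univ_nonempty
        omega⟩
      obtain ⟨M1, h1, h2⟩ := geo_FR (p := p) d n hd0 T0 hT0
      obtain ⟨M2, h3, h4⟩ := hgl _ (co_sdiff hBco (hwco _ hpp)) (fun h => h.2 (h0w _)) T0 hT0
      rw [Pool.Agent.Y230.PS.tr, if_pos hT1] at h1 h3
      have e1 : M1 = 0 := by exact_mod_cast (nonpos_iff_eq_zero.1 h1)
      have e2 : M2 = 0 := by exact_mod_cast (nonpos_iff_eq_zero.1 h3)
      subst e1 e2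
      refine ⟨0, by simp, (h2.mul0 h4).congr fun s hs => ?_⟩
      have h1 : IZ h B s = IZ h (B \ wd w (p : ℚ_[p]) '' B) s +
          IZ h (wd w (p : ℚ_[p]) '' B) s := by
        rw [← iz_union hh (co_sdiff hBco (hwco _ hpp)) (hwco _ hpp) Set.disjoint_sdiff_left hs,
          Set.sdiff_union_of_subset hsub]
      rw [izc_wd hh w d hd _ hpp (co_meas hBco) s, N1_p, N_p] at h1
      have h2 : (((((p : ℝ≥0∞)⁻¹) ^ (∑ i, w i)).toReal : ℝ) : ℂ) = ((qr p : ℝ) : ℂ) ^ (n + 1) := by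
        rw [ENNReal.toReal_pow, toReal_pinv, hn]
        push_cast
        rfl
      have h3 : (((Tt p s).toReal : ℝ) : ℂ) = ((tr' p s : ℝ) : ℂ) := by
        rw [Tt_toReal]
      rw [h2, h3] at h1
      have h4 : (1 - ((qr p : ℝ) : ℂ) ^ (n + 1) * ((tr' p s : ℝ) : ℂ) ^ d) ≠ 0 := by
        intro h5
        have h6 : qr p ^ (n + 1) * tr' p s ^ d = 1 := by
          have h7 : ((qr p ^ (n + 1) * tr' p s ^ d : ℝ) : ℂ) = ((1 : ℝ) : ℂ) := by
            push_cast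
            linear_combination -h5
          exact_mod_cast h7
        have h8 : qr p ^ (n + 1) < 1 := pow_lt_one₀ qr_pos.le qr_lt_one (Nat.succ_ne_zero n)
        have h9 : tr' p s ^ d ≤ 1 := pow_le_one₀ (tr'_pos p s).le (tr'_le_one' hs)
        have h10 : 0 < qr p ^ (n + 1) := pow_pos qr_pos _
        have h11 : qr p ^ (n + 1) * tr' p s ^ d ≤ qr p ^ (n + 1) * 1 :=
          mul_le_mul_of_nonneg_left h9 h10.le
        rw [h6, mul_one] at h11
        linarith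
      rw [inv_mul_eq_iff_eq_mul₀ h4]
      linear_combination -h1
  refine ⟨Set.univ, isOpen_univ, Set.mem_univ _, fun V _ hV => ?_⟩
  by_cases h0 : (0 : σ → ℚ_[p]) ∈ V
  swap
  · exact hgl V hV h0
  obtain ⟨ε, hε, hεV⟩ := Metric.isOpen_iff.1 hV.2 0 h0
  obtain ⟨k, hk⟩ := exists_pow_lt_of_lt_one hε (show (p : ℝ)⁻¹ < 1 from
    inv_lt_one_of_one_lt₀ hp1)
  have hck : ((p : ℚ_[p]) ^ k) ≠ 0 := pow_ne_zero _ hpp
  have hkV : wd w ((p : ℚ_[p]) ^ k) '' B ⊆ V := by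
    rintro _ ⟨x, hx, rfl⟩
    apply hεV
    rw [Metric.mem_ball, dist_zero_right]
    have h1 : ‖(p : ℚ_[p]) ^ k‖ ≤ 1 := by
      rw [norm_pow]
      exact pow_le_one₀ (norm_nonneg _) hpn
    refine (hpow _ x h1 hx).trans_lt ?_
    rw [norm_pow, Padic.norm_p]
    exact hk
  have h1 := hgl _ (co_sdiff hV (hwco _ hck)) (fun h => h.2 (h0w _))
  have h2 := fr_wd m hh w d hd _ hck (co_meas hBco) hball
  refine (h1.add h2).congr fun s hs => ?_
  rw [← iz_union hh (co_sdiff hV (hwco _ hck)) (hwco _ hck) Set.disjoint_sdiff_left hs,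
    Set.sdiff_union_of_subset hkV]

end Pool.Agent.H1.QB
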