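import Pool.Agent.H1.QB.Tf
import Pool.Agent.H1.QB.Sca

set_option autoImplicit false
set_option linter.unusedSectionVars false
set_option linter.unusedVariables false

/-! # The local statement with orders -/

namespace Pool.Agent.H1.QB

open MeasureTheory Topology MvPolynomial
open Pool.Agent.W427.SMC Pool.Agent.Y230.PT Pool.Agent.Y230.PS Pool.Agent.Q57.QP
open Pool.Agent.Q66.QP
open Pool.Agent.Q49.CO (trn trn_X trn_C functionalEq_trn)
open Pool.Agent.H628R4.TP (IsBFunction weylS)
open scoped ENNReal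

attribute [local instance] msK bsK msZ bsZ

variable {p : ℕ} [Fact p.Prime] {σ : Type}

/-- the size of the values -/
noncomputable def ev (F : MvPolynomial σ ℚ_[p]) (x : σ → ℚ_[p]) : ℝ := ‖eval x F‖

theorem nrm_ev (F : MvPolynomial σ ℚ_[p]) : nrm (fun _ : Fin 1 => F) = ev F := by
  funext x
  unfold nrm ev
  rw [Pi.norm_def, Finset.univ_unique, Finset.sup_singleton]
  rfl

theorem siz_ev (F : MvPolynomial σ ℚ_[p]) : Siz (ev F) := by
  rw [← nrm_ev]
  exact Pool.Agent.Q38.QP.siz_nrm _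

/-- the orders which are allowed by `b` -/
noncomputable def mb (p : ℕ) (b : Polynomial ℂ) (T : ℂ) : ℕ∞ :=
  (b.rootMultiplicity ((rr p T : ℝ) : ℂ) : ℕ∞)

/-- **The local statement.** For all functional equations of `F`, the integrals over small compact
open sets near the origin have only poles with the allowed orders. -/
def LL [Fintype σ] (φ : ℚ_[p] →+* ℂ) (F : MvPolynomial σ ℚ_[p]) : Prop :=
  ∀ b : Polynomial ℂ, b ≠ 0 → IsBFunction (map φ F) b → LP (mb p b) (ev F) 0

/-- the translation -/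
noncomputable def trans (P : σ → ℚ_[p]) (F : MvPolynomial σ ℚ_[p]) : MvPolynomial σ ℚ_[p] :=
  aeval (fun i => X i + C (P i) : σ → MvPolynomial σ ℚ_[p]) F

theorem eval_trans (P x : σ → ℚ_[p]) (F : MvPolynomial σ ℚ_[p]) :
    eval x (trans P F) = eval (x + P) F := by
  unfold trans
  induction F using MvPolynomial.induction_on with
  | C a => simp
  | add p q hp hq => rw [map_add, map_add, map_add, hp, hq]
  | mul_X p i hp =>
    rw [map_mul, map_mul, map_mul, hp, aeval_X, map_add, eval_X, eval_C, eval_X]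
    rfl

theorem map_trans (φ : ℚ_[p] →+* ℂ) (P : σ → ℚ_[p]) (F : MvPolynomial σ ℚ_[p]) :
    map φ (trans P F) = trn (fun i => φ (P i)) (map φ F) := by
  unfold trans
  induction F using MvPolynomial.induction_on with
  | C a =>
    rw [map_C, trn_C, aeval_C, algebraMap_eq, map_C]
  | add p q hp hq => rw [map_add, map_add, map_add, map_add, hp, hq]
  | mul_X p i hp =>
    rw [map_mul, map_mul, map_mul, map_mul, hp, aeval_X, map_add, map_X, map_C, trn_X]

theorem bfun_iff (F : MvPolynomial σ ℂ) (b : Polynomial ℂ) :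
    IsBFunction F b ↔ Pool.Agent.W574.SM.IsFunctionalEq (fun _ : Fin 1 => F) b := by
  refine ⟨Pool.Agent.Q57.MC.locEq1_of_eq F b, fun h => ?_⟩
  obtain ⟨P, hP⟩ := Pool.Agent.Q57.MC.eq_of_locEq1 1 F b (Pool.Agent.W574.MO.locEq_one _ b h)
  exact ⟨P, fun s => by rw [← hP s, one_mul]⟩

theorem bfun_trn (q : σ → ℂ) (F : MvPolynomial σ ℂ) (b : Polynomial ℂ) (h : IsBFunction F b) :
    IsBFunction (trn q F) b := by
  rw [bfun_iff] at h ⊢
  exact functionalEq_trn q _ b h

theorem lp_trans [Fintype σ] [DecidableEq σ] (m : ℂ → ℕ∞) (F : MvPolynomial σ ℚ_[p])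
    (P : σ → ℚ_[p])
    (h : LP m (ev (trans P F)) 0) : LP m (ev F) P := by
  refine qp_diffn Pool.Agent.Q210.QP.qp_iso Pool.Agent.Q210.QP.qp_lin p
    (fun x => x - P) (ContinuousLinearEquiv.refl ℚ_[p] (σ → ℚ_[p])) P (ev F)
    (ev (trans P F)) m (siz_ev _) ?_ (Filter.Eventually.of_forall fun x => ?_) ?_
  · exact (hasStrictFDerivAt_id P).sub_const P
  · unfold ev
    rw [eval_trans, sub_add_cancel]
  · rw [sub_self]
    exact h

theorem LL_of_unit [Fintype σ] (φ : ℚ_[p] →+* ℂ) (F : MvPolynomial σ ℚ_[p])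
    (h : constantCoeff F ≠ 0) : LL φ F := by
  intro b _ _
  refine Pool.Agent.Q261.QP.qp_unit p (ev F) (siz_ev F) (mb p b) 0 ?_
  unfold ev
  rw [norm_ne_zero_iff]
  have : eval (0 : σ → ℚ_[p]) F = constantCoeff F := by
    rw [← MvPolynomial.eval_zero]
  rwa [this]

/-- renaming of the variables -/
theorem lp_equiv {T T' : Type} [Fintype T] [Fintype T'] (e : T ≃ T') (m : ℂ → ℕ∞)
    (h : (T → ℚ_[p]) → ℝ) (P : T' → ℚ_[p]) (hL : LP m h (fun t => P (e t))) :
    LP m (fun x : T' → ℚ_[p] => h fun t => x (e t)) P := by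
  obtain ⟨U, hU, hPU, hV⟩ := hL
  set Φ : (T' → ℚ_[p]) ≃ₜ (T → ℚ_[p]) :=
    { toFun := fun x t => x (e t)
      invFun := fun y t' => y (e.symm t')
      left_inv := fun x => by funext t'; simp
      right_inv := fun y => by funext t; simp
      continuous_toFun := by fun_prop
      continuous_invFun := by fun_prop } with hΦ
  refine ⟨Φ ⁻¹' U, hU.preimage Φ.continuous, hPU, fun V hVU hco => ?_⟩
  have h1 : CO (Φ '' V) := ⟨hco.1.image Φ.continuous, Φ.isOpenMap _ hco.2⟩
  have h2 : Φ '' V ⊆ U := by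
    rintro _ ⟨x, hx, rfl⟩
    exact hVU hx
  refine (hV _ h2 h1).congr fun s _ => ?_
  unfold IZ
  congr 2
  have hmp : MeasurePreserving Φ.toMeasurableEquiv (muE p T') (muE p T) := by
    have h3 := measurePreserving_piCongrLeft (fun _ : T => nu p) e.symm
    have h4 : (MeasurableEquiv.piCongrLeft (fun _ : T => ℚ_[p]) e.symm :
        (T' → ℚ_[p]) → (T → ℚ_[p])) = Φ.toMeasurableEquiv := by
      funext x t
      have h := MeasurableEquiv.piCongrLeft_apply_apply (β := fun _ : T => ℚ_[p]) e.symm x (e t)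
      rw [Equiv.symm_apply_apply] at h
      exact h
    rw [← h4]
    exact h3
  have h5 : V = Φ.toMeasurableEquiv ⁻¹' (Φ '' V) := (Set.preimage_image_eq V Φ.injective).symm
  conv_rhs => rw [h5]
  rw [← hmp.setLIntegral_comp_preimage_emb Φ.toMeasurableEquiv.measurableEmbedding
    (fun x => ENNReal.ofReal (h x ^ s)) (Φ '' V)]
  rfl

theorem LL_rename {T T' : Type} [Fintype T] [Fintype T'] (φ : ℚ_[p] →+* ℂ) (e : T ≃ T')
    (F : MvPolynomial T ℚ_[p]) (h : LL φ F) : LL φ (rename e F) := by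
  intro b hb0 hb
  have h1 : IsBFunction (map φ F) b := by
    refine Pool.Agent.Y229.bfunction_equiv e _ b ?_
    rwa [← map_rename]
  have h2 := lp_equiv e (mb p b) (ev F) 0 (h b hb0 h1)
  have h3 : (fun x : T' → ℚ_[p] => ev F fun t => x (e t)) = ev (rename e F) := by
    funext x
    unfold ev
    rw [eval_rename]
    rfl
  rwa [h3] at h2

end Pool.Agent.H1.QB
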