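import Pool.Agent.H1.QB.Quad2

set_option autoImplicit false
set_option linter.unusedSectionVars false
set_option linter.unusedVariables false

/-! # Blocks with monomials in private variables -/

namespace Pool.Agent.H1.QB

open MvPolynomial

variable {σ K : Type} [Fintype σ] [Field K]

theorem lin_pow (f : MvPolynomial σ K) (e : ℕ) :
    lin (f ^ e) = ((e : K) * constantCoeff f ^ (e - 1)) • lin f := by
  induction e with
  | zero =>
    rw [pow_zero, Nat.cast_zero, zero_mul, zero_smul, ← C_1, lin_C]
  | succ e ih =>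
    rw [pow_succ, lin_mul, ih, map_pow, smul_smul, ← add_smul, Nat.add_sub_cancel]
    congr 1
    rcases Nat.eq_zero_or_pos e with h0 | h0
    · subst h0
      simp
    · obtain ⟨k, rfl⟩ : ∃ k, e = k + 1 := ⟨e - 1, by omega⟩
      rw [Nat.add_sub_cancel]
      push_cast
      ring

theorem lin_prod {ι : Type} [DecidableEq ι] (s : Finset ι) (f : ι → MvPolynomial σ K) :
    lin (∏ i ∈ s, f i) = ∑ i ∈ s, (∏ j ∈ s.erase i, constantCoeff (f j)) • lin (f i) := by
  induction s using Finset.induction_on with
  | empty =>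
    rw [Finset.prod_empty, Finset.sum_empty, ← C_1, lin_C]
  | insert a s ha ih =>
    rw [Finset.prod_insert ha, lin_mul, ih, Finset.sum_insert ha, Finset.erase_insert ha, map_prod,
      Finset.smul_sum]
    congr 1
    refine Finset.sum_congr rfl fun i hi => ?_
    have hia : i ≠ a := fun h => ha (h ▸ hi)
    rw [smul_smul]
    congr 1
    rw [Finset.erase_insert_of_ne (Ne.symm hia), Finset.prod_insert]
    exact fun h => ha (Finset.mem_of_mem_erase h)

theorem lin_sub (a b : MvPolynomial σ K) : lin (a - b) = lin a - lin b := by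
  funext i
  exact coeff_sub _ _ _ _

open Classical in
/-- **One block.** -/
theorem blk_main [CharZero K] {Y N V₁ I₁ : Type} [Fintype Y] [Fintype N] [Fintype V₁] [Fintype I₁]
    (y : Y → MvPolynomial σ K) (l₀ F : MvPolynomial σ K) (hl₀ : constantCoeff l₀ = 0)
    (x : N → MvPolynomial σ K) (hx : ∀ j, constantCoeff (x j) = 0)
    (z : V₁ → MvPolynomial σ K) (hz : ∀ j, constantCoeff (z j) = 0)
    (c : Polynomial K) (b : N → Polynomial K) (q : N → N → Polynomial K)
    (hq : ∀ j k, q j k = q k j) (π : V₁ → I₁) (hπ : Function.Surjective π) (a : V₁ → ℕ)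
    (ha : ∀ v, a v ≠ 0) (e : I₁ → Polynomial K) (P : V₁ → K)
    (hc : c.eval 0 + ∑ i, (e i).eval 0 * ∏ v, P v ^ (if π v = i then a v else 0) = 0)
    (h : St (Sum.elim (Sum.elim y x) z) l₀ F (GQ c b q l₀ x + ∑ i, Polynomial.aeval l₀ (e i) *
      ∏ v, (z v + C (P v)) ^ (if π v = i then a v else 0))) : Fi y F := by
  set ex : I₁ → V₁ → ℕ := fun i v => if π v = i then a v else 0 with hex
  have hex1 : ∀ i v, π v = i → ex i v = a v := fun i v hv => if_pos hv
  have hex0 : ∀ i v, π v ≠ i → ex i v = 0 := fun i v hv => if_neg hv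
  obtain ⟨G, hG⟩ : ∃ G : I₁ → Prop, ∀ i, G i ↔ ∃ v, π v = i ∧ P v = 0 :=
    ⟨_, fun _ => Iff.rfl⟩
  have hG' : ∀ i, ¬ G i → ∀ v, π v = i → P v ≠ 0 := by
    intro i hi v hv h0
    exact hi ((hG i).2 ⟨v, hv, h0⟩)
  -- the factorizations of the coefficients
  have hfac : ∀ i, ∃ (m : ℕ) (g : Polynomial K), e i ≠ 0 → e i = Polynomial.X ^ m * g ∧
      g.eval 0 ≠ 0 := by
    intro i
    by_cases h0 : e i = 0
    · exact ⟨0, 0, fun h => absurd h0 h⟩
    · obtain ⟨c', hcc, hnd⟩ := Polynomial.exists_eq_pow_rootMultiplicity_mul_and_not_dvd (e i) h0 0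
      rw [map_zero, sub_zero] at hcc
      exact ⟨_, c', fun _ => ⟨hcc, fun h => hnd (Polynomial.dvd_iff_isRoot.2 h)⟩⟩
  choose M g hMg using hfac
  -- the constants
  set w : I₁ → K := fun i => ∏ v, P v ^ ex i v with hw
  have hwG : ∀ i, G i → w i = 0 := by
    intro i hi
    obtain ⟨v, hv, hv0⟩ := (hG i).1 hi
    refine Finset.prod_eq_zero (Finset.mem_univ v) ?_
    rw [hv0, hex1 i v hv, zero_pow (ha v)]
  set V₂ : Type := {v // P v = 0 ∧ e (π v) ≠ 0} ⊕ {i // e i ≠ 0 ∧ ¬ G i} with hV₂
  set I₂ : Type := {i // e i ≠ 0} with hI₂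
  set π₂ : V₂ → I₂ := Sum.elim (fun v => ⟨π v.1, v.2.2⟩) (fun i => ⟨i.1, i.2.1⟩) with hπ₂
  have hsj : Function.Surjective π₂ := by
    rintro ⟨i, hi⟩
    by_cases h1 : G i
    · obtain ⟨v, rfl, hv⟩ := (hG i).1 h1
      exact ⟨Sum.inl ⟨v, hv, hi⟩, rfl⟩
    · exact ⟨Sum.inr ⟨i, hi, h1⟩, rfl⟩
  set η : V₂ → MvPolynomial σ K := Sum.elim (fun v => z v.1)
    (fun i => (∏ v, (z v + C (P v)) ^ ex i.1 v) - C (w i.1)) with hη
  have hη0 : ∀ v, constantCoeff (η v) = 0 := by
    rintro (v | i)
    · exact hz v.1
    · change constantCoeff ((∏ v, (z v + C (P v)) ^ ex i.1 v) - C (w i.1)) = 0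
      rw [map_sub, map_prod, constantCoeff_C, hw, sub_eq_zero]
      refine Finset.prod_congr rfl fun v _ => ?_
      rw [map_pow, map_add, hz, constantCoeff_C, zero_add]
  set u : I₂ → MvPolynomial σ K := fun i => Polynomial.aeval l₀ (g i.1) *
    (if G i.1 then ∏ v, (if P v = 0 then 1 else (z v + C (P v)) ^ ex i.1 v) else 1) with hu
  have hu0 : ∀ i, constantCoeff (u i) ≠ 0 := by
    intro i
    rw [hu]
    beta_reduce
    rw [map_mul, cc_aev l₀ hl₀]
    refine mul_ne_zero (hMg i.1 i.2).2 ?_
    split_ifs with h1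
    · rw [map_prod]
      refine Finset.prod_ne_zero_iff.2 fun v _ => ?_
      split_ifs with h2
      · rw [map_one]; exact one_ne_zero
      · rw [map_pow, map_add, hz, constantCoeff_C, zero_add]
        exact pow_ne_zero _ h2
    · rw [map_one]; exact one_ne_zero
  set a₂ : V₂ → ℕ := Sum.elim (fun v => a v.1) (fun _ => 1) with ha₂
  have ha₂0 : ∀ v, a₂ v ≠ 0 := by
    rintro (v | i)
    · exact ha v.1
    · exact one_ne_zero
  set c' : Polynomial K := c + ∑ i, (if G i then 0 else Polynomial.C (w i) * e i) with hc'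
  have hc'0 : c'.eval 0 = 0 := by
    have e0 : c'.eval 0 = c.eval 0 + ∑ i, (e i).eval 0 * w i := by
      rw [hc', Polynomial.eval_add, Polynomial.eval_finsetSum]
      congr 1
      refine Finset.sum_congr rfl fun i _ => ?_
      split_ifs with h1
      · rw [hwG i h1, mul_zero, Polynomial.eval_zero]
      · rw [Polynomial.eval_mul, Polynomial.eval_C, mul_comm]
    rw [e0]
    exact hc
  have heq : GQ c b q l₀ x + ∑ i, Polynomial.aeval l₀ (e i) *
      ∏ v, (z v + C (P v)) ^ (if π v = i then a v else 0) =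
      (∑ i : I₂, u i * (l₀ ^ M i.1 * ∏ v, η v ^ (if π₂ v = i then a₂ v else 0))) +
        GQ c' b q l₀ x := by
    have e0 : GQ c' b q l₀ x = GQ c b q l₀ x + ∑ i, (if G i then 0 else
        C (w i) * Polynomial.aeval l₀ (e i)) := by
      have e1 : c' = (∑ i, (if G i then 0 else Polynomial.C (w i) * e i)) + c := by
        rw [hc', add_comm]
      rw [e1, GQ_c, map_sum, add_comm]
      congr 1
      refine Finset.sum_congr rfl fun i _ => ?_
      split_ifs
      · rw [map_zero]
      · rw [map_mul, Polynomial.aeval_C]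
        rfl
    have e2 : ∑ i : I₂, u i * (l₀ ^ M i.1 * ∏ v, η v ^ (if π₂ v = i then a₂ v else 0)) =
        ∑ i, Polynomial.aeval l₀ (e i) * ((∏ v, (z v + C (P v)) ^ ex i v) -
          if G i then 0 else C (w i)) := by
      have e3 : ∀ i : I₂, u i * (l₀ ^ M i.1 * ∏ v, η v ^ (if π₂ v = i then a₂ v else 0)) =
          Polynomial.aeval l₀ (e i.1) * ((∏ v, (z v + C (P v)) ^ ex i.1 v) -
          if G i.1 then 0 else C (w i.1)) := by
        intro i
        have e4 : Polynomial.aeval l₀ (e i.1) = l₀ ^ M i.1 * Polynomial.aeval l₀ (g i.1) := by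
          conv_lhs => rw [(hMg i.1 i.2).1]
          simp
        have e5 : ∏ v, η v ^ (if π₂ v = i then a₂ v else 0) =
            (∏ v : {v // P v = 0 ∧ e (π v) ≠ 0}, z v.1 ^ ex i.1 v.1) *
              ∏ i' : {i // e i ≠ 0 ∧ ¬ G i}, ((∏ v, (z v + C (P v)) ^ ex i'.1 v) - C (w i'.1)) ^
                (if i'.1 = i.1 then 1 else 0) := by
          rw [Fintype.prod_sum_type]
          congr 1
          · refine Finset.prod_congr rfl fun v _ => ?_
            change z v.1 ^ (if (⟨π v.1, v.2.2⟩ : I₂) = i then a v.1 else 0) = _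
            congr 1
            by_cases h1 : π v.1 = i.1
            · rw [hex1 _ _ h1, if_pos (Subtype.ext h1)]
            · rw [hex0 _ _ h1, if_neg (fun h2 => h1 (congrArg Subtype.val h2))]
          · refine Finset.prod_congr rfl fun i' _ => ?_
            change _ ^ (if (⟨i'.1, i'.2.1⟩ : I₂) = i then 1 else 0) = _
            congr 1
            by_cases h1 : i'.1 = i.1
            · rw [if_pos h1, if_pos (Subtype.ext h1)]
            · rw [if_neg h1, if_neg (fun h2 => h1 (congrArg Subtype.val h2))]
        rw [e5, e4, hu]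
        beta_reduce
        by_cases h1 : G i.1
        · rw [if_pos h1, if_pos h1, sub_zero]
          have e6 : ∏ i' : {i // e i ≠ 0 ∧ ¬ G i}, ((∏ v, (z v + C (P v)) ^ ex i'.1 v) -
              C (w i'.1)) ^ (if i'.1 = i.1 then 1 else 0) = 1 := by
            refine Finset.prod_eq_one fun i' _ => ?_
            rw [if_neg, pow_zero]
            intro h2
            apply i'.2.2
            rw [h2]
            exact h1
          have e7 : ∏ v, (z v + C (P v)) ^ ex i.1 v =
              (∏ v : {v // P v = 0}, z v.1 ^ ex i.1 v.1) *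
                ∏ v, if P v = 0 then 1 else (z v + C (P v)) ^ ex i.1 v :=
            prod_split (fun v => P v = 0) (fun v => (z v + C (P v)) ^ ex i.1 v)
              (fun v => z v ^ ex i.1 v) fun v hv => by rw [hv, map_zero, add_zero]
          have e8 : ∏ v : {v // P v = 0}, z v.1 ^ ex i.1 v.1 =
              ∏ v : {v // P v = 0 ∧ e (π v) ≠ 0}, z v.1 ^ ex i.1 v.1 := by
            rw [← Finset.prod_subtype (Finset.univ.filter fun v => P v = 0) (by simp)
                (fun v => z v ^ ex i.1 v),
              ← Finset.prod_subtype (Finset.univ.filter fun v => P v = 0 ∧ e (π v) ≠ 0) (by simp)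
                (fun v => z v ^ ex i.1 v)]
            symm
            refine Finset.prod_subset (fun v hv => ?_) fun v hv hv' => ?_
            · rw [Finset.mem_filter] at hv ⊢
              exact ⟨hv.1, hv.2.1⟩
            · rw [hex0, pow_zero]
              intro h3
              apply hv'
              rw [Finset.mem_filter] at hv ⊢
              refine ⟨hv.1, hv.2, ?_⟩
              rw [h3]
              exact i.2
          rw [e6, e7, e8]
          ring
        · rw [if_neg h1, if_neg h1]
          have e6 : ∏ i' : {i // e i ≠ 0 ∧ ¬ G i}, ((∏ v, (z v + C (P v)) ^ ex i'.1 v) -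
              C (w i'.1)) ^ (if i'.1 = i.1 then 1 else 0) =
              (∏ v, (z v + C (P v)) ^ ex i.1 v) - C (w i.1) := by
            rw [Finset.prod_eq_single ⟨i.1, i.2, h1⟩]
            · rw [if_pos rfl, pow_one]
            · intro i' _ hne
              rw [if_neg, pow_zero]
              exact fun h2 => hne (Subtype.ext h2)
            · exact fun h => absurd (Finset.mem_univ _) h
          have e8 : ∏ v : {v // P v = 0 ∧ e (π v) ≠ 0}, z v.1 ^ ex i.1 v.1 = 1 := by
            refine Finset.prod_eq_one fun v _ => ?_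
            rw [hex0, pow_zero]
            intro h2
            exact h1 ((hG _).2 ⟨v.1, h2, v.2.1⟩)
          rw [e6, e8]
          ring
      rw [Finset.sum_congr rfl fun i _ => e3 i,
        ← Finset.sum_subtype (Finset.univ.filter fun i => e i ≠ 0) (by simp)
          (fun i => Polynomial.aeval l₀ (e i) * ((∏ v, (z v + C (P v)) ^ ex i v) -
          if G i then 0 else C (w i)))]
      refine Finset.sum_subset (Finset.filter_subset _ _) fun i _ hi => ?_
      have h3 : e i = 0 := by
        by_contra h4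
        exact hi (Finset.mem_filter.2 ⟨Finset.mem_univ _, h4⟩)
      rw [h3, map_zero, zero_mul]
    rw [e0, e2]
    have e9 : ∑ i, Polynomial.aeval l₀ (e i) * ((∏ v, (z v + C (P v)) ^ ex i v) -
          if G i then 0 else C (w i)) = (∑ i, Polynomial.aeval l₀ (e i) *
            (∏ v, (z v + C (P v)) ^ ex i v)) - ∑ i, (if G i then 0 else
        C (w i) * Polynomial.aeval l₀ (e i)) := by
      rw [← Finset.sum_sub_distrib]
      refine Finset.sum_congr rfl fun i _ => ?_
      split_ifs <;> ring
    rw [e9]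
    ring
  rw [heq] at h
  have h1 := h.change' η (fun j v => Sum.elim (fun v' => if v = v'.1 then 1 else 0)
    (fun i => (∏ v' ∈ Finset.univ.erase v, P v' ^ ex i.1 v') *
      ((ex i.1 v : K) * P v ^ (ex i.1 v - 1))) j) (fun _ => 0) (by
    rintro (v | i)
    · change lin (z v.1) = _
      simp
    · change lin ((∏ v, (z v + C (P v)) ^ ex i.1 v) - C (w i.1)) = _
      rw [lin_sub, lin_C, sub_zero, lin_prod, zero_smul, add_zero]
      refine Finset.sum_congr rfl fun v _ => ?_
      rw [lin_pow, lin_add, lin_C, add_zero, smul_smul, map_add, hz, constantCoeff_C, zero_add]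
      simp only [Sum.elim_inr]
      congr 2
      refine Finset.prod_congr rfl fun v' _ => ?_
      rw [map_pow, map_add, hz, constantCoeff_C, zero_add]) (by
    intro r hr
    have hzero : ∀ (v : V₁) (i : I₁), π v ≠ i → (∏ v' ∈ Finset.univ.erase v, P v' ^ ex i v') *
      ((ex i v : K) * P v ^ (ex i v - 1)) = 0 := by
      intro v i hv
      rw [hex0 i v hv]
      simp
    funext j
    rcases j with v | i
    · have h2 := hr v.1
      rw [Fintype.sum_sum_type, Finset.sum_eq_single v] at h2
      · simp only [Sum.elim_inl, Sum.elim_inr, if_true, mul_one] at h2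
        rw [Finset.sum_eq_zero, add_zero] at h2
        · exact h2
        · intro i _
          rw [hzero v.1 i.1, mul_zero]
          intro h3
          exact i.2.2 ((hG _).2 ⟨v.1, h3, v.2.1⟩)
      · intro v' _ hne
        simp only [Sum.elim_inl]
        rw [if_neg (fun h => hne (Subtype.ext h.symm)), mul_zero]
      · exact fun h => absurd (Finset.mem_univ _) h
    · obtain ⟨v, hv⟩ := hπ i.1
      have h2 := hr v
      rw [Fintype.sum_sum_type, Finset.sum_eq_zero, zero_add, Finset.sum_eq_single i] at h2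
      · simp only [Sum.elim_inr] at h2
        refine (mul_eq_zero.1 h2).resolve_right (mul_ne_zero (Finset.prod_ne_zero_iff.2
          fun v' _ => ?_) (mul_ne_zero ?_ (pow_ne_zero _ (hG' i.1 i.2.2 v hv))))
        · by_cases h3 : π v' = i.1
          · exact pow_ne_zero _ (hG' i.1 i.2.2 v' h3)
          · rw [hex0 _ _ h3, pow_zero]
            exact one_ne_zero
        · rw [hex1 _ _ hv]
          exact_mod_cast ha v
      · intro i' _ hne
        simp only [Sum.elim_inr]
        rw [hzero v i'.1, mul_zero]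
        intro h3
        apply hne
        apply Subtype.ext
        rw [← h3, hv]
      · exact fun h => absurd (Finset.mem_univ _) h
      · intro v' _
        simp only [Sum.elim_inl]
        rw [if_neg, mul_zero]
        intro h3
        apply hG' i.1 i.2.2 v hv
        rw [h3]
        exact v'.2.1)
  have h2 : St (Sum.elim (Sum.elim y x) η) l₀ F ((∑ i : I₂, u i * (l₀ ^ M i.1 *
      ∏ v, η v ^ (@ite _ (π₂ v = i) (Classical.propDecidable _) (a₂ v) 0))) +
        GQ c' b q l₀ x) := by
    convert h1
  have h3 := St.groups (Sum.elim y x) η hη0 π₂ hsj a₂ ha₂0 (fun i => M i.1) u hu0 l₀ F _ h2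
  exact quad_main (Fintype.card N) N inferInstance inferInstance rfl Y inferInstance y l₀ F hl₀ x
    hx c' b q hc'0 hq h3

end Pool.Agent.H1.QB
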