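import Pool.Agent.H1.QB.Ez

set_option autoImplicit false
set_option linter.unusedSectionVars false
set_option linter.unusedVariables false

/-! # Block forms -/

namespace Pool.Agent.H1.QB

open MeasureTheory Topology MvPolynomial
open Pool.Agent.Y230.PT Pool.Agent.Y230.PS Pool.Agent.Q57.QP
open Pool.Agent.H628R4.TP (IsBFunction weylS)

/-- Combinatorial data: the variables are `B` (blocks) and `V`, the monomials are the groups `I` (a
power of at most one block variable times the product of the powers of the variables of the group)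
and the pure powers of the block variables in `A`. -/
structure BD (B V I : Type) where
  M : I → B → ℕ
  sg : ∀ i k k', M i k ≠ 0 → M i k' ≠ 0 → k = k'
  π : V → I
  sj : Function.Surjective π
  a : V → ℕ
  a0 : ∀ v, a v ≠ 0
  A : B → Prop
  n : B → ℕ
  n0 : ∀ k, A k → n k ≠ 0

open Classical in
/-- the exponents of the variables `V` -/
noncomputable def BD.ex {B V I : Type} (d : BD B V I) (i : I) (v : V) : ℕ :=
  if d.π v = i then d.a v else 0

open Classical in
/-- the exponents of the monomials -/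
noncomputable def BD.mt {B V I : Type} (d : BD B V I) : (I ⊕ {k // d.A k}) → (B ⊕ V) → ℕ
  | Sum.inl i, Sum.inl k => d.M i k
  | Sum.inl i, Sum.inr v => d.ex i v
  | Sum.inr k, Sum.inl k' => if k' = k.1 then d.n k.1 else 0
  | Sum.inr _, Sum.inr _ => 0

/-- the normalization -/
def BD.nrm {B V I : Type} (d : BD B V I) : Prop := ∀ i k, d.A k → d.M i k < d.n k

open Classical in
/-- the polynomial has a block form -/
def IsBF {σ K : Type} [Fintype σ] [Field K] {B V I : Type} [Fintype B] [Fintype V] [Fintype I]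
    (F : MvPolynomial σ K) (d : BD B V I) : Prop :=
  ∃ (l : B → MvPolynomial σ K) (ξ : V → MvPolynomial σ K) (U : I → MvPolynomial σ K)
    (W : B → MvPolynomial σ K) (D : MvPolynomial σ K),
    (∀ k, constantCoeff (l k) = 0) ∧ (∀ v, constantCoeff (ξ v) = 0) ∧
    (∀ i, constantCoeff (U i) ≠ 0) ∧ (∀ k, d.A k → constantCoeff (W k) ≠ 0) ∧
    constantCoeff D ≠ 0 ∧
    (LinearIndependent K fun t : B ⊕ V => fun i : σ =>
      coeff (Finsupp.single i 1) (Sum.elim l ξ t)) ∧
    D * F = (∑ i, U i * ((∏ k, l k ^ d.M i k) * ∏ v, ξ v ^ d.ex i v)) +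
      ∑ k : {k // d.A k}, W k.1 * l k.1 ^ d.n k.1

section weights

theorem clear_den {T : Type} [Fintype T] (q : T → ℚ) (hq : ∀ t, 0 < q t) :
    ∃ (Q : ℕ) (w : T → ℕ), 0 < Q ∧ (∀ t, 0 < w t) ∧ ∀ t, (w t : ℚ) = Q * q t := by
  classical
  refine ⟨∏ t, (q t).den, fun t => (q t).num.toNat * ∏ t' ∈ Finset.univ.erase t, (q t').den,
    Finset.prod_pos fun t _ => (q t).den_pos, fun t => ?_, fun t => ?_⟩
  · have h1 : 0 < (q t).num := Rat.num_pos.2 (hq t)
    exact Nat.mul_pos (by omega) (Finset.prod_pos fun t _ => (q t).den_pos)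
  · have h1 : 0 < (q t).num := Rat.num_pos.2 (hq t)
    rw [← Finset.mul_prod_erase _ _ (Finset.mem_univ t)]
    push_cast
    have h2 : (((q t).num.toNat : ℕ) : ℚ) = ((q t).num : ℚ) := by
      have h3 : (((q t).num.toNat : ℕ) : ℤ) = (q t).num := Int.toNat_of_nonneg h1.le
      exact_mod_cast h3
    rw [h2]
    have h4 : ((q t).den : ℚ) * q t = (q t).num := by
      rw [mul_comm]
      exact Rat.mul_den_eq_num (q t)
    rw [← h4]
    ring

variable {B V I : Type} [Fintype B] [Fintype V] [Fintype I]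

open Classical in
theorem BD.weights (d : BD B V I) (hn : d.nrm) : ∃ (w : B ⊕ V → ℕ) (D : ℕ), (∀ t, 0 < w t) ∧
    0 < D ∧ ∀ j, ∑ t, d.mt j t * w t = D := by
  set δ : ℚ := (1 + ∑ i, ∑ k, (d.M i k : ℚ))⁻¹ with hδ
  have hsum : (0 : ℚ) ≤ ∑ i, ∑ k, (d.M i k : ℚ) :=
    Finset.sum_nonneg fun i _ => Finset.sum_nonneg fun k _ => Nat.cast_nonneg _
  have hδ0 : 0 < δ := inv_pos.2 (by linarith)
  set qB : B → ℚ := fun k => if d.A k then (d.n k : ℚ)⁻¹ else δ with hqB
  have hqB0 : ∀ k, 0 < qB k := by
    intro k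
    rw [hqB]
    beta_reduce
    split_ifs with h
    · exact inv_pos.2 (by exact_mod_cast Nat.pos_of_ne_zero (d.n0 k h))
    · exact hδ0
  set S : I → ℚ := fun i => ∑ k, (d.M i k : ℚ) * qB k with hS
  have hS1 : ∀ i, S i < 1 := by
    intro i
    by_cases h : ∃ k, d.M i k ≠ 0
    · obtain ⟨k, hk⟩ := h
      have h1 : S i = (d.M i k : ℚ) * qB k := by
        refine Finset.sum_eq_single k (fun k' _ hne => ?_) fun h => absurd (Finset.mem_univ _) h
        have h2 : d.M i k' = 0 := by
          by_contra h3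
          exact hne (d.sg i k' k h3 hk)
        rw [h2, Nat.cast_zero, zero_mul]
      rw [h1, hqB]
      beta_reduce
      split_ifs with hA
      · have h2 : (d.M i k : ℚ) < d.n k := by exact_mod_cast hn i k hA
        have h3 : (0 : ℚ) < d.n k := lt_of_le_of_lt (Nat.cast_nonneg _) h2
        rw [← div_eq_mul_inv, div_lt_one h3]
        exact h2
      · rw [hδ, ← div_eq_mul_inv, div_lt_one (by linarith)]
        have h2 : (d.M i k : ℚ) ≤ ∑ i, ∑ k, (d.M i k : ℚ) :=
          (Finset.single_le_sum (f := fun k => (d.M i k : ℚ)) (fun _ _ => Nat.cast_nonneg _)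
            (Finset.mem_univ k)).trans
          (Finset.single_le_sum (f := fun i => ∑ k, (d.M i k : ℚ))
            (fun _ _ => Finset.sum_nonneg fun _ _ => Nat.cast_nonneg _) (Finset.mem_univ i))
        linarith
    · push Not at h
      have h1 : S i = 0 := Finset.sum_eq_zero fun k _ => by rw [h k, Nat.cast_zero, zero_mul]
      rw [h1]
      exact one_pos
  set cn : I → ℚ := fun i => ((Finset.univ.filter fun v => d.π v = i).card : ℚ) with hcn
  have hcn0 : ∀ i, 0 < cn i := by
    intro i
    obtain ⟨v, hv⟩ := d.sj i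
    have : 0 < (Finset.univ.filter fun v => d.π v = i).card :=
      Finset.card_pos.2 ⟨v, Finset.mem_filter.2 ⟨Finset.mem_univ _, hv⟩⟩
    rw [hcn]
    beta_reduce
    exact_mod_cast this
  have ha0 : ∀ v, (0 : ℚ) < d.a v := fun v => by exact_mod_cast Nat.pos_of_ne_zero (d.a0 v)
  set qV : V → ℚ := fun v => (1 - S (d.π v)) / (d.a v * cn (d.π v)) with hqV
  have hqV0 : ∀ v, 0 < qV v := fun v => div_pos (by linarith [hS1 (d.π v)])
    (mul_pos (ha0 v) (hcn0 _))
  obtain ⟨Q, w, hQ, hw, hwq⟩ := clear_den (Sum.elim qB qV) (by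
    rintro (k | v)
    · exact hqB0 k
    · exact hqV0 v)
  refine ⟨w, Q, hw, hQ, fun j => ?_⟩
  have h1 : ((∑ t, d.mt j t * w t : ℕ) : ℚ) = Q := by
    push_cast
    have h2 : ∀ t, (d.mt j t : ℚ) * (w t : ℚ) = Q * ((d.mt j t : ℚ) * Sum.elim qB qV t) := by
      intro t
      rw [hwq]
      ring
    rw [Finset.sum_congr rfl fun t _ => h2 t, ← Finset.mul_sum]
    have h3 : ∑ t, (d.mt j t : ℚ) * Sum.elim qB qV t = 1 := by
      rw [Fintype.sum_sum_type]
      rcases j with i | k
      · have h4 : ∑ v, (d.mt (Sum.inl i) (Sum.inr v) : ℚ) * Sum.elim qB qV (Sum.inr v) =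
            1 - S i := by
          have h5 : ∀ v, (d.mt (Sum.inl i) (Sum.inr v) : ℚ) * Sum.elim qB qV (Sum.inr v) =
              if d.π v = i then (1 - S i) / cn i else 0 := by
            intro v
            simp only [BD.mt, BD.ex, Sum.elim_inr]
            split_ifs with h
            · rw [hqV]
              beta_reduce
              rw [h]
              have := ha0 v
              have := hcn0 i
              field_simp
            · rw [Nat.cast_zero, zero_mul]
          rw [Finset.sum_congr rfl fun v _ => h5 v, ← Finset.sum_filter, Finset.sum_const,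
            nsmul_eq_mul]
          have := hcn0 i
          change cn i * ((1 - S i) / cn i) = _
          field_simp
        rw [h4]
        have h6 : ∑ k, (d.mt (Sum.inl i) (Sum.inl k) : ℚ) * Sum.elim qB qV (Sum.inl k) = S i := rfl
        rw [h6]
        ring
      · have h4 : ∑ v, (d.mt (Sum.inr k) (Sum.inr v) : ℚ) * Sum.elim qB qV (Sum.inr v) = 0 :=
          Finset.sum_eq_zero fun v _ => by
            simp only [BD.mt]
            rw [Nat.cast_zero, zero_mul]
        rw [h4, add_zero, Finset.sum_eq_single k.1]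
        · simp only [BD.mt, Sum.elim_inl, if_true]
          rw [hqB]
          beta_reduce
          rw [if_pos k.2]
          exact mul_inv_cancel₀ (by exact_mod_cast d.n0 _ k.2)
        · intro k' _ hne
          simp only [BD.mt]
          rw [if_neg hne, Nat.cast_zero, zero_mul]
        · exact fun h => absurd (Finset.mem_univ _) h
    rw [h3, mul_one]
  exact_mod_cast h1

open Classical in
theorem BD.dist (d : BD B V I) : Dist (J := I ⊕ {k // d.A k}) (T := B ⊕ V)
    (Sum.elim (fun i => Sum.inr (Function.surjInv d.sj i)) (fun k => Sum.inl k.1))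
    (Sum.elim (fun _ => False) (fun _ => True)) d.mt := by
  refine ⟨?_, ?_, ?_, ?_⟩
  · rintro (i | k) (i' | k') h
    · simp only [Sum.elim_inl, Sum.inr.injEq] at h
      rw [Function.injective_surjInv d.sj h]
    · simp at h
    · simp at h
    · simp only [Sum.elim_inr, Sum.inl.injEq] at h
      rw [Subtype.ext h]
  · rintro (i | k)
    · simp only [Sum.elim_inl, BD.mt, BD.ex]
      rw [Function.surjInv_eq d.sj, if_pos rfl]
      exact d.a0 _
    · simp only [Sum.elim_inr, BD.mt, if_true]
      exact d.n0 _ k.2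
  · rintro (i | k) hj (i' | k') hne
    · simp only [Sum.elim_inl, BD.mt, BD.ex]
      rw [Function.surjInv_eq d.sj, if_neg]
      rintro rfl
      exact hne rfl
    · simp only [Sum.elim_inl, BD.mt]
    · exact absurd trivial hj
    · exact absurd trivial hj
  · rintro (i | k) hj (k' | v) hne
    · exact hj.elim
    · exact hj.elim
    · simp only [BD.mt]
      rw [if_neg]
      rintro rfl
      exact hne rfl
    · simp only [BD.mt]

end weights

section germ

variable {p : ℕ} [Fact p.Prime] {σ : Type} [Fintype σ] {B V I : Type} [Fintype B] [Fintype V]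
  [Fintype I]

open Classical in
/-- **Germs with a normalized block form.** -/
theorem LL_bf (φ : ℚ_[p] →+* ℂ) (F : MvPolynomial σ ℚ_[p]) (hF : F ≠ 0) (d : BD B V I)
    (hn : d.nrm) (h : IsBF F d)
    (hP : ∀ γ : I ⊕ {k // d.A k} → ℚ_[p], (∀ j, γ j ≠ 0) → ∀ P : B ⊕ V → ℚ_[p], P ≠ 0 →
      LL φ (trans P (model d.mt γ))) : LL φ F := by
  obtain ⟨l, ξ, U, W, D, hl, hξ, hU, hW, hD, hli, heq⟩ := h
  obtain ⟨w, dg, hw, hdg, hwd⟩ := d.weights hn
  have hD' : D ≠ 0 := by
    rintro rfl
    rw [map_zero] at hD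
    exact hD rfl
  have hDF : D * F ≠ 0 := mul_ne_zero hD' hF
  have hJ : Nonempty (I ⊕ {k // d.A k}) := by
    by_contra h0
    rw [not_nonempty_iff] at h0
    have hI : IsEmpty I := ⟨fun i => h0.1 (Sum.inl i)⟩
    have hA : IsEmpty {k // d.A k} := ⟨fun i => h0.1 (Sum.inr i)⟩
    apply hDF
    rw [heq, Finset.sum_of_isEmpty, Finset.sum_of_isEmpty, add_zero]
  have hT : Nonempty (B ⊕ V) := by
    rcases hJ with ⟨i | k⟩
    · exact ⟨Sum.inr (Function.surjInv d.sj i)⟩
    · exact ⟨Sum.inl k.1⟩
  have hU' : ∀ j : I ⊕ {k // d.A k},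
      constantCoeff (Sum.elim U (fun k => W k.1) j : MvPolynomial σ ℚ_[p]) ≠ 0 := by
    rintro (i | k)
    · exact hU i
    · exact hW _ k.2
  refine LL_germ (T := B ⊕ V) (J := I ⊕ {k // d.A k}) φ F (Sum.elim l ξ) ?_ hli d.mt
    (Sum.elim U fun k => W k.1) hU' D hD ?_ _ _ d.dist w hw dg hdg ?_ ?_
  · rintro (k | v)
    · exact hl k
    · exact hξ v
  · rw [heq, Fintype.sum_sum_type]
    congr 1
    · refine Finset.sum_congr rfl fun i _ => ?_
      rw [Fintype.prod_sum_type]
      rfl
    · refine Finset.sum_congr rfl fun k _ => ?_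
      rw [Fintype.prod_sum_type]
      simp only [Sum.elim_inr, Sum.elim_inl, BD.mt]
      simp only [pow_zero, Finset.prod_const_one, mul_one]
      rw [Finset.prod_eq_single k.1]
      · rw [if_pos rfl]
      · intro k' _ hne
        rw [if_neg hne, pow_zero]
      · exact fun h => absurd (Finset.mem_univ _) h
  · exact hwd
  · intro P hP0
    have h1 := hP (fun j => constantCoeff (Sum.elim U (fun k => W k.1) j : MvPolynomial σ ℚ_[p]))
      hU' P hP0
    exact h1

end germ

end Pool.Agent.H1.QB
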