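import Pool.Agent.H1.QB.Germ

set_option autoImplicit false
set_option linter.unusedSectionVars false
set_option linter.unusedVariables false

/-! # Easy germs and first order coefficients -/

namespace Pool.Agent.H1.QB

open MeasureTheory Topology MvPolynomial
open Pool.Agent.Y230.PT Pool.Agent.Y230.PS Pool.Agent.Q57.QP
open Pool.Agent.H628R4.TP (IsBFunction weylS)

section coef

variable {T K : Type} [Field K]

/-- the first order coefficient of a product -/
theorem c1_mul (i : T) (a b : MvPolynomial T K) :
    coeff (Finsupp.single i 1) (a * b) =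
      coeff (Finsupp.single i 1) a * constantCoeff b +
        constantCoeff a * coeff (Finsupp.single i 1) b := by
  classical
  rw [coeff_mul, Finsupp.antidiagonal_single, Finset.sum_map]
  have : Finset.HasAntidiagonal.antidiagonal (1 : ℕ) = {(0, 1), (1, 0)} := rfl
  rw [this, Finset.sum_pair (by decide)]
  simp only [Function.Embedding.prodMap, Function.Embedding.coeFn_mk, Prod.map]
  simp only [Finsupp.single_zero]
  rw [constantCoeff_eq]
  ring

/-- polynomials whose first order coefficient in one direction vanishes -/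
def Zt (t : T) : Subalgebra K (MvPolynomial T K) where
  carrier := {f | coeff (Finsupp.single t 1) f = 0}
  mul_mem' := by
    intro a b ha hb
    change coeff (Finsupp.single t 1) a = 0 at ha
    change coeff (Finsupp.single t 1) b = 0 at hb
    change coeff (Finsupp.single t 1) (a * b) = 0
    rw [c1_mul, ha, hb]
    ring
  add_mem' := by
    intro a b ha hb
    change coeff (Finsupp.single t 1) a = 0 at ha
    change coeff (Finsupp.single t 1) b = 0 at hb
    change coeff (Finsupp.single t 1) (a + b) = 0
    rw [coeff_add, ha, hb, add_zero]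
  algebraMap_mem' := by
    intro r
    classical
    change coeff (Finsupp.single t 1) (algebraMap K (MvPolynomial T K) r) = 0
    rw [algebraMap_eq, coeff_C, if_neg]
    intro h
    have := congrArg (fun f => f t) h
    simp at this

theorem mem_Zt (t : T) (f : MvPolynomial T K) : f ∈ Zt t ↔ coeff (Finsupp.single t 1) f = 0 :=
  Iff.rfl

theorem c1_X [DecidableEq T] (t t' : T) : coeff (Finsupp.single t 1) (X t' : MvPolynomial T K) =
    if t' = t then 1 else 0 := by
  rw [coeff_X]
  by_cases h : t' = t
  · rw [if_pos h, if_pos (by rw [h])]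
  · rw [if_neg h, if_neg]
    intro h1
    exact h ((Finsupp.single_left_inj one_ne_zero).1 h1)

theorem C_Zt (t : T) (a : K) : (C a : MvPolynomial T K) ∈ Zt t := (Zt t).algebraMap_mem a

theorem X_Zt (t t' : T) (h : t' ≠ t) : (X t' : MvPolynomial T K) ∈ Zt t := by
  classical
  rw [mem_Zt, c1_X, if_neg h]

theorem XC_Zt (t t' : T) (h : t' ≠ t) (a : K) : (X t' + C a : MvPolynomial T K) ∈ Zt t :=
  (Zt t).add_mem (X_Zt t t' h) (C_Zt t a)

theorem c1_pow (t : T) (a : K) (e : ℕ) : coeff (Finsupp.single t 1)
    ((X t + C a : MvPolynomial T K) ^ e) = e * a ^ (e - 1) := by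
  classical
  induction e with
  | zero =>
    rw [pow_zero, Nat.cast_zero, zero_mul]
    have := C_Zt t (1 : K)
    rwa [map_one, mem_Zt] at this
  | succ e ih =>
    rw [pow_succ, c1_mul, ih, coeff_add, c1_X, if_pos rfl]
    have h1 := C_Zt t a
    rw [mem_Zt] at h1
    rw [h1, map_pow, map_add, constantCoeff_X, constantCoeff_C, zero_add, add_zero, mul_one,
      Nat.add_sub_cancel]
    rcases Nat.eq_zero_or_pos e with h0 | h0
    · subst h0
      simp
    · obtain ⟨k, rfl⟩ : ∃ k, e = k + 1 := ⟨e - 1, by omega⟩
      rw [Nat.add_sub_cancel]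
      push_cast
      ring

theorem cc_XC (t : T) (a : K) : constantCoeff (X t + C a : MvPolynomial T K) = a := by
  rw [map_add, constantCoeff_X, constantCoeff_C, zero_add]

/-- the first order coefficients of translated monomials -/
theorem c1_prod [Fintype T] [DecidableEq T] (P : T → K) (e : T → ℕ) (t : T) :
    coeff (Finsupp.single t 1) (∏ t', (X t' + C (P t') : MvPolynomial T K) ^ e t') =
      e t * P t ^ (e t - 1) * ∏ t' ∈ Finset.univ.erase t, P t' ^ e t' := by
  rw [← Finset.mul_prod_erase _ _ (Finset.mem_univ t), c1_mul, c1_pow]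
  have h1 : ∏ t' ∈ Finset.univ.erase t, (X t' + C (P t') : MvPolynomial T K) ^ e t' ∈ Zt t := by
    refine (Zt t).prod_mem fun t' ht' => (Zt t).pow_mem (XC_Zt t t' ?_ _) _
    exact (Finset.mem_erase.1 ht').1
  rw [mem_Zt] at h1
  rw [h1, mul_zero, add_zero, map_prod]
  congr 1
  refine Finset.prod_congr rfl fun t' _ => ?_
  rw [map_pow, cc_XC]

end coef

variable {p : ℕ} [Fact p.Prime]

theorem cc_trans {σ : Type} (P : σ → ℚ_[p]) (F : MvPolynomial σ ℚ_[p]) :
    constantCoeff (trans P F) = eval P F := by
  have h1 : constantCoeff (trans P F) = eval (0 : σ → ℚ_[p]) (trans P F) := by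
    rw [← MvPolynomial.eval_zero]
  rw [h1, eval_trans, zero_add]

/-- smooth points -/
theorem LL_smooth {σ : Type} [Fintype σ] (φ : ℚ_[p] →+* ℂ) (F : MvPolynomial σ ℚ_[p])
    (h0 : constantCoeff F = 0) (i : σ) (hi : coeff (Finsupp.single i 1) F ≠ 0) : LL φ F := by
  classical
  refine LL_germ (T := Unit) (J := Unit) φ F (fun _ => F) (fun _ => h0) ?_ (fun _ _ => 1)
    (fun _ => 1) (fun _ => by rw [map_one]; exact one_ne_zero) 1
    (by rw [map_one]; exact one_ne_zero) ?_ id (fun _ => False) ⟨Function.injective_id,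
      fun _ => one_ne_zero, fun _ _ j' h => absurd rfl h, fun _ h => h.elim⟩ (fun _ => 1)
    (fun _ => one_pos) 1 one_pos (fun _ => ?_) fun P hP => ?_
  · rw [Fintype.linearIndependent_iff]
    intro g hg j
    have h1 := congrFun hg i
    rw [Fintype.sum_unique, Pi.smul_apply, smul_eq_mul, Pi.zero_apply] at h1
    exact (mul_eq_zero.1 h1).resolve_right hi
  · simp
  · simp
  · refine LL_of_unit φ _ ?_
    rw [cc_trans]
    unfold model
    simp only [Finset.univ_unique, Finset.prod_singleton, Finset.sum_singleton, map_mul, eval_C,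
      map_pow, eval_X, pow_one, map_one, one_mul]
    intro h1
    exact hP (by funext t; exact h1)

theorem LL_easy {σ : Type} [Fintype σ] (φ : ℚ_[p] →+* ℂ) (F : MvPolynomial σ ℚ_[p])
    (h : constantCoeff F ≠ 0 ∨ ∃ i, coeff (Finsupp.single i 1) F ≠ 0) : LL φ F := by
  by_cases h0 : constantCoeff F = 0
  · rcases h with h | ⟨i, hi⟩
    · exact absurd h0 h
    · exact LL_smooth φ F h0 i hi
  · exact LL_of_unit φ F h0

end Pool.Agent.H1.QB
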