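import Pool.Agent.H1.QB.Ind

set_option autoImplicit false
set_option linter.unusedSectionVars false
set_option linter.unusedVariables false

/-! # From the local statement to the zeta function -/

namespace Pool.Agent.H1.QB

open MeasureTheory Topology MvPolynomial
open Pool.Agent.W427.SMC Pool.Agent.Y230.PT Pool.Agent.Y230.PS Pool.Agent.Q57.QP
open Pool.Agent.H628R4.TP (IsBFunction weylS)
open scoped ENNReal

attribute [local instance] msK bsK msZ bsZ

variable {p : ℕ} [Fact p.Prime] {V : Type} [Fintype V]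

/-- `F` has the local property at every point -/
def LLall (F : MvPolynomial V ℚ_[p]) : Prop :=
  ∀ (φ : ℚ_[p] →+* ℂ) (P : V → ℚ_[p]), LL φ (trans P F)

theorem lp_all (φ : ℚ_[p] →+* ℂ) (F : MvPolynomial V ℚ_[p]) (h : LLall F) (b : Polynomial ℂ)
    (hb0 : b ≠ 0) (hb : IsBFunction (map φ F) b) (P : V → ℚ_[p]) : LP (mb p b) (ev F) P := by
  classical
  refine lp_trans (mb p b) F P (h φ P b hb0 ?_)
  rw [map_trans]
  exact bfun_trn _ _ b hb

theorem core_all (F : MvPolynomial V ℤ) (h : LLall (map (Int.castRingHom ℚ_[p]) F))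
    (b : Polynomial ℂ) (hb0 : b ≠ 0) (hb : IsBFunction (map (Int.castRingHom ℂ) F) b) :
    ∃ D P : Polynomial ℂ, D ≠ 0 ∧ (∀ s : ℝ, 0 ≤ s →
      D.eval ((tr' p s : ℝ) : ℂ) * ((∫⁻ x : V → ℤ_[p], tau p s (aeval x F)
        ∂(Measure.pi fun _ : V => mu p)).toReal : ℂ) = P.eval ((tr' p s : ℝ) : ℂ)) ∧
      ∀ T0, T0 ≠ 0 → D.rootMultiplicity T0 ≤ b.rootMultiplicity ((rr p T0 : ℝ) : ℂ) := by
  obtain ⟨φ⟩ := exists_emb p
  have hφ : φ.comp (Int.castRingHom ℚ_[p]) = Int.castRingHom ℂ := RingHom.ext_int _ _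
  have h1 : FR p (mb p b) (IZ (ev (map (Int.castRingHom ℚ_[p]) F)) (Metric.closedBall 0 1)) := by
    refine Pool.Agent.Q261.QP.qp_glue p _ (siz_ev _) (mb p b) _ ⟨isCompact_closedBall _ _,
      IsUltrametricDist.isOpen_closedBall _ one_ne_zero⟩ fun P _ =>
        lp_all φ _ h b hb0 ?_ P
    rw [map_map, hφ]
    exact hb
  obtain ⟨D, P, hD, h2, h3⟩ := h1.rat
  refine ⟨D, P, hD, fun s hs => ?_, fun T hT => ?_⟩
  · rw [← h2 s hs, ← FZ_ball _ (siz_ev _) s]
    have h4 : ∀ x : V → ℤ_[p], tau p s (aeval x F) = ENNReal.ofReal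
        ((ev (map (Int.castRingHom ℚ_[p]) F) fun i => inc p (x i)) ^ s) := by
      intro x
      rw [tau_N, N, eval₂_map]
      unfold ev
      rw [eval_map]
      have h5 : (algebraMap ℚ ℚ_[p]).comp (Int.castRingHom ℚ) = Int.castRingHom ℚ_[p] :=
        RingHom.ext_int _ _
      rw [h5]
    simp only [h4]
    rfl
  · have h4 := h3 T hT
    unfold Pool.Agent.Y230.PS.tr mb at h4
    split_ifs at h4 with h5
    · have h6 : (D.rootMultiplicity T : ℕ∞) = 0 := nonpos_iff_eq_zero.1 h4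
      have h7 : D.rootMultiplicity T = 0 := by exact_mod_cast h6
      omega
    · exact_mod_cast h4

/-- **The zeta function.** -/
theorem mero_all (F : MvPolynomial V ℤ) (h : LLall (map (Int.castRingHom ℚ_[p]) F))
    (b : Polynomial ℂ) (hb0 : b ≠ 0) (hb : IsBFunction (map (Int.castRingHom ℂ) F) b)
    (Z : ℂ → ℂ) (hZ : MeromorphicOn Z Set.univ)
    (hZp : ∀ s : ℂ, 0 < s.re → Z s = igusaZeta p F s) (s₀ : ℂ) :
    ((-(b.rootMultiplicity (s₀.re : ℂ) : ℤ) : ℤ) : WithTop ℤ) ≤ meromorphicOrderAt Z s₀ := by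
  obtain ⟨D, P, hD0, h1, h2⟩ := core_all (p := p) F h b hb0 hb
  have h3 := mero_bound p D P hD0 Z hZ (fun s hs => by
    rw [pw_real, hZp s (by simpa using hs), igusaZeta_eq, h1 s hs.le]) s₀
  refine le_trans ?_ h3
  have h4 := h2 (pw p s₀) (pw_ne_zero p s₀)
  have h5 : rr p (pw p s₀) = s₀.re := pw_norm p s₀
  rw [h5] at h4
  exact_mod_cast neg_le_neg (Int.ofNat_le.2 h4)

/-- **The Poincaré series.** -/
theorem poin_all (F : MvPolynomial V ℤ) (h : LLall (map (Int.castRingHom ℚ_[p]) F))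
    (b : Polynomial ℂ) (hb0 : b ≠ 0) (hb : IsBFunction (map (Int.castRingHom ℂ) F) b) :
    ∃ Φ : RatFunc ℂ, ((Φ.denom : Polynomial ℂ) : PowerSeries ℂ) * poincare p F =
      ((Φ.num : Polynomial ℂ) : PowerSeries ℂ) ∧
      ∀ T₀ : ℂ, Φ.denom.rootMultiplicity T₀ ≤
        b.rootMultiplicity ((-Real.log ‖T₀‖ / Real.log p : ℝ) : ℂ) := by
  obtain ⟨D, P, hD0, h1, h2⟩ := core_all (p := p) F h b hb0 hb
  obtain ⟨Φ, h3, h4, h5⟩ := poincare_of p _ D P hD0 h1
  refine ⟨Φ, h3, fun T => ?_⟩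
  rcases eq_or_ne T 0 with rfl | hT
  · rw [h4]
    exact Nat.zero_le _
  · exact (h5 T).trans (h2 T hT)

end Pool.Agent.H1.QB
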