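import Pool.Agent.H1.QB.Mod

set_option autoImplicit false
set_option linter.unusedSectionVars false
set_option linter.unusedVariables false

/-! # Germs of sparse type -/

namespace Pool.Agent.H1.QB

open MeasureTheory Topology MvPolynomial
open Pool.Agent.Y230.PT Pool.Agent.Y230.PS Pool.Agent.Q57.QP
open Pool.Agent.H628R4.TP (IsBFunction weylS)
open Pool.Agent.W425.SM (Ind sparse)

variable {p : ℕ} [Fact p.Prime]

theorem ind_of_dist {k c : ℕ} (cl : Fin k → Fin c) (pu : Fin k → Prop) (m : Fin k → Fin c → ℕ)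
    (h : Dist cl pu m) : Ind m := by
  classical
  unfold Ind
  rw [affineIndependent_iff]
  intro s w hw hs
  have h1 : ∀ e ∈ s, ¬ pu e → w e = 0 := by
    intro e he hpe
    have h2 := congrFun hs (cl e)
    rw [Finset.sum_apply, Pi.zero_apply, Finset.sum_eq_single e] at h2
    · rw [Pi.smul_apply, smul_eq_mul] at h2
      rcases mul_eq_zero.1 h2 with h3 | h3
      · exact h3
      · exact absurd (by exact_mod_cast h3) (h.ne e)
    · intro e' _ hne
      rw [Pi.smul_apply, h.priv e hpe e' hne]
      simp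
    · intro hn
      exact absurd he hn
  intro e he
  by_cases hpe : pu e
  · have h2 := congrFun hs (cl e)
    rw [Finset.sum_apply, Pi.zero_apply, Finset.sum_eq_single e] at h2
    · rw [Pi.smul_apply, smul_eq_mul] at h2
      rcases mul_eq_zero.1 h2 with h3 | h3
      · exact h3
      · exact absurd (by exact_mod_cast h3) (h.ne e)
    · intro e' he' hne
      by_cases hpe' : pu e'
      · rw [Pi.smul_apply, h.pure e' hpe' (cl e) (fun h3 => hne (h.inj h3.symm))]
        simp
      · rw [Pi.smul_apply, h1 e' he' hpe', zero_smul]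
    · intro hn
      exact absurd he hn
  · exact h1 e he hpe

theorem inj_of_dist {k c : ℕ} (cl : Fin k → Fin c) (pu : Fin k → Prop) (m : Fin k → Fin c → ℕ)
    (h : Dist cl pu m) : Function.Injective m := by
  intro j j' hjj
  by_contra hne
  by_cases hj : pu j
  · by_cases hj' : pu j'
    · apply h.ne j
      rw [hjj]
      exact h.pure j' hj' _ fun h3 => hne (h.inj h3)
    · apply h.ne j'
      rw [← hjj]
      exact h.priv j' hj' j hne
  · apply h.ne j
    rw [hjj]
    exact h.priv j hj j' (Ne.symm hne)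

theorem model_coeff {K : Type} [Field K] {k c : ℕ} (m : Fin k → Fin c → ℕ) (γ : Fin k → K)
    (n : Fin c →₀ ℕ) : coeff n (model m γ) =
      ∑ j, if Finsupp.equivFunOnFinite.symm (m j) = n then γ j else 0 := by
  classical
  unfold model
  rw [coeff_sum]
  refine Finset.sum_congr rfl fun j _ => ?_
  have h1 : (∏ t, X t ^ m j t : MvPolynomial (Fin c) K) =
      monomial (Finsupp.equivFunOnFinite.symm (m j)) 1 := by
    rw [monomial_eq, map_one, one_mul, Finsupp.prod_fintype _ _ (fun t => pow_zero _)]
    rfl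
  rw [h1, coeff_C_mul, coeff_monomial]
  split_ifs <;> simp

theorem model_ne {K : Type} [Field K] {k c : ℕ} (hk : 0 < k) (cl : Fin k → Fin c)
    (pu : Fin k → Prop) (m : Fin k → Fin c → ℕ) (h : Dist cl pu m) (γ : Fin k → K)
    (hγ : ∀ j, γ j ≠ 0) : model m γ ≠ 0 := by
  classical
  intro h0
  set j0 : Fin k := ⟨0, hk⟩
  have h1 := congrArg (coeff (Finsupp.equivFunOnFinite.symm (m j0))) h0
  rw [model_coeff, coeff_zero, Finset.sum_eq_single j0] at h1
  · rw [if_pos rfl] at h1
    exact hγ j0 h1
  · intro j _ hne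
    rw [if_neg]
    intro h2
    exact hne (inj_of_dist cl pu m h (Finsupp.equivFunOnFinite.symm.injective h2))
  · intro hn
    exact absurd (Finset.mem_univ _) hn

theorem trans_rename {T T' : Type} (e : T ≃ T') (P : T' → ℚ_[p]) (H : MvPolynomial T ℚ_[p]) :
    trans P (rename e H) = rename e (trans (fun t => P (e t)) H) := by
  unfold trans
  induction H using MvPolynomial.induction_on with
  | C a => simp
  | add p q hp hq => rw [map_add, map_add, map_add, map_add, hp, hq]
  | mul_X p i hp =>
    rw [map_mul, map_mul, map_mul, map_mul, hp, rename_X, aeval_X, aeval_X, map_add, rename_X,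
      rename_C]

theorem rename_model {K : Type} [Field K] {T T' J J' : Type} [Fintype T] [Fintype T']
    [Fintype J] [Fintype J'] (e : T ≃ T') (f : J ≃ J') (m : J → T → ℕ) (γ : J → K) :
    rename e (model m γ) = model (fun j t => m (f.symm j) (e.symm t)) (fun j => γ (f.symm j)) := by
  unfold model
  rw [map_sum, ← f.symm.sum_comp]
  refine Finset.sum_congr rfl fun j _ => ?_
  rw [map_mul, rename_C, map_prod, ← e.prod_comp]
  congr 1
  refine Finset.prod_congr rfl fun t _ => ?_
  rw [map_pow, rename_X]
  beta_reduce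
  rw [Equiv.symm_apply_apply]

/-- **Germs of sparse type.** -/
theorem LL_germ {σ T J : Type} [Fintype σ] [Fintype T] [Fintype J] [Nonempty T] [Nonempty J]
    (φ : ℚ_[p] →+* ℂ) (F : MvPolynomial σ ℚ_[p]) (g : T → MvPolynomial σ ℚ_[p])
    (hg : ∀ t, constantCoeff (g t) = 0)
    (hli : LinearIndependent ℚ_[p] fun t => fun i : σ => coeff (Finsupp.single i 1) (g t))
    (m : J → T → ℕ) (U : J → MvPolynomial σ ℚ_[p]) (hU : ∀ j, constantCoeff (U j) ≠ 0)
    (D : MvPolynomial σ ℚ_[p]) (hD : constantCoeff D ≠ 0)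
    (heq : D * F = ∑ j, U j * ∏ t, g t ^ m j t) (cl : J → T) (pu : J → Prop)
    (hq : Dist cl pu m) (w : T → ℕ) (hw : ∀ t, 0 < w t) (d : ℕ) (hd0 : 0 < d)
    (hd : ∀ j, ∑ t, m j t * w t = d)
    (hP : ∀ P : T → ℚ_[p], P ≠ 0 →
      LL φ (trans P (model m fun j => constantCoeff (U j)))) : LL φ F := by
  classical
  set γ : J → ℚ_[p] := fun j => constantCoeff (U j) with hγ
  set eT : T ≃ Fin (Fintype.card T) := Fintype.equivFin T with heT
  set eJ : J ≃ Fin (Fintype.card J) := Fintype.equivFin J with heJ
  set c := Fintype.card T with hc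
  set k := Fintype.card J with hk
  have hc0 : 0 < c := Fintype.card_pos
  have hk0 : 0 < k := Fintype.card_pos
  set m' : Fin k → Fin c → ℕ := fun j t => m (eJ.symm j) (eT.symm t) with hm'
  set cl' : Fin k → Fin c := fun j => eT (cl (eJ.symm j)) with hcl'
  set pu' : Fin k → Prop := fun j => pu (eJ.symm j) with hpu'
  have hpr : Dist cl' pu' m' := by
    refine ⟨fun j j' h => ?_, fun j => ?_, fun j hj j' hne => ?_, fun j hj t ht => ?_⟩
    · exact eJ.symm.injective (hq.inj (eT.injective h))
    · rw [hm', hcl']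
      beta_reduce
      rw [Equiv.symm_apply_apply]
      exact hq.ne _
    · rw [hm', hcl']
      beta_reduce
      rw [Equiv.symm_apply_apply]
      exact hq.priv _ hj _ fun h5 => hne (eJ.symm.injective h5)
    · rw [hm']
      beta_reduce
      refine hq.pure _ hj _ fun h5 => ht ?_
      rw [hcl']
      beta_reduce
      rw [← h5, Equiv.apply_symm_apply]
  have hmod : rename eT (model m γ) = model m' (fun j => γ (eJ.symm j)) :=
    rename_model eT eJ m γ
  have hγ0 : ∀ j, γ j ≠ 0 := fun j => hU j
  have hLL : LL φ (model m' (fun j => γ (eJ.symm j))) := by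
    refine LL_model φ hc0 hk0 m' (ind_of_dist cl' pu' m' hpr) _ (fun j => hγ0 _)
      (fun t => w (eT.symm t)) (fun t => hw _) d hd0 (fun j => ?_) (fun P hP0 => ?_)
    · rw [hm']
      beta_reduce
      rw [eT.symm.sum_comp (fun t => m (eJ.symm j) t * w t)]
      exact hd _
    · rw [← hmod, trans_rename]
      refine LL_rename φ eT _ (hP _ ?_)
      intro h0
      apply hP0
      funext t
      have h1 := congrFun h0 (eT.symm t)
      rw [Equiv.apply_symm_apply] at h1
      exact h1
  obtain ⟨s, hs⟩ := exists_minor (fun t : Fin c => fun i : σ =>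
    coeff (Finsupp.single i 1) (g (eT.symm t))) (hli.comp eT.symm eT.symm.injective)
  have heq' : D * F = ∑ j : Fin k, U (eJ.symm j) * ∏ t : Fin c, g (eT.symm t) ^ m' j t := by
    rw [heq, ← eJ.symm.sum_comp]
    refine Finset.sum_congr rfl fun j _ => ?_
    rw [← eT.symm.prod_comp]
  intro b hb0 hb
  have hb1 := tr_formal φ F (fun t => g (eT.symm t)) s (fun t => hg _) hs m'
    (fun j => U (eJ.symm j)) (fun j => hU _) D hD heq' cl' pu' hpr
    (fun t => w (eT.symm t)) (fun t => hw _) d (fun j => by
      rw [hm']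
      beta_reduce
      rw [eT.symm.sum_comp (fun t => m (eJ.symm j) t * w t)]
      exact hd _) (model_ne hk0 cl' pu' m' hpr _ fun j => hγ0 _) b hb
  exact tr_padic F (fun t => g (eT.symm t)) s (fun t => hg _) hs m'
    (fun j => U (eJ.symm j)) (fun j => hU _) D hD heq' cl' pu' hpr (mb p b)
    (hLL b hb0 hb1)

end Pool.Agent.H1.QB
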