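import Pool.Agent.H1.QB.Trm

set_option autoImplicit false
set_option linter.unusedSectionVars false
set_option linter.unusedVariables false

/-! # The local statement for block forms -/

namespace Pool.Agent.H1.QB

open MvPolynomial

variable {p : ℕ} [Fact p.Prime]

theorem model_coeff' {K : Type} [Field K] {T J : Type} [Fintype T] [Fintype J] [DecidableEq T]
    (m : J → T → ℕ) (γ : J → K) (n : T →₀ ℕ) : coeff n (model m γ) =
      ∑ j, if Finsupp.equivFunOnFinite.symm (m j) = n then γ j else 0 := by
  classical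
  unfold model
  rw [coeff_sum]
  refine Finset.sum_congr rfl fun j _ => ?_
  have h1 : (∏ t, X t ^ m j t : MvPolynomial T K) =
      monomial (Finsupp.equivFunOnFinite.symm (m j)) 1 := by
    rw [monomial_eq, map_one, one_mul, Finsupp.prod_fintype _ _ (fun t => pow_zero _)]
    rfl
  rw [h1, coeff_C_mul, coeff_monomial]
  split_ifs <;> simp

theorem inj_of_dist' {T J : Type} (cl : J → T) (pu : J → Prop) (m : J → T → ℕ)
    (h : Dist cl pu m) : Function.Injective m := by
  intro j j' hjj
  by_contra hne
  by_cases hj : pu j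
  · by_cases hj' : pu j'
    · apply h.ne j
      rw [hjj]
      exact h.pure j' hj' _ fun h3 => hne (h.inj h3)
    · apply h.ne j'
      rw [← hjj]
      exact h.priv j' hj' j hne
  · apply h.ne j
    rw [hjj]
    exact h.priv j hj j' (Ne.symm hne)

theorem model_ne' {K : Type} [Field K] {T J : Type} [Fintype T] [Fintype J] [Nonempty J]
    (cl : J → T) (pu : J → Prop) (m : J → T → ℕ) (h : Dist cl pu m) (γ : J → K)
    (hγ : ∀ j, γ j ≠ 0) : model m γ ≠ 0 := by
  classical
  intro h0
  obtain ⟨j0⟩ := (inferInstance : Nonempty J)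
  have h1 := congrArg (coeff (Finsupp.equivFunOnFinite.symm (m j0))) h0
  rw [model_coeff', coeff_zero, Finset.sum_eq_single j0] at h1
  · rw [if_pos rfl] at h1
    exact hγ j0 h1
  · intro j _ hne
    rw [if_neg]
    intro h2
    exact hne (inj_of_dist' cl pu m h (Finsupp.equivFunOnFinite.symm.injective h2))
  · intro hn
    exact absurd (Finset.mem_univ _) hn

theorem trans_ne {σ : Type} (P : σ → ℚ_[p]) (F : MvPolynomial σ ℚ_[p]) (hF : F ≠ 0) :
    trans P F ≠ 0 := by
  intro h
  apply hF
  refine MvPolynomial.funext fun x => ?_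
  have h1 := eval_trans P (x - P) F
  rw [h, map_zero, sub_add_cancel] at h1
  rw [← h1, map_zero]

open Classical in
/-- **The local statement for all block forms.** -/
theorem LL_ind (φ : ℚ_[p] →+* ℂ) (nV : ℕ) : ∀ (nB : ℕ) (σ B V I : Type) (_ : Fintype σ)
    (_ : Fintype B) (_ : Fintype V) (_ : Fintype I) (F : MvPolynomial σ ℚ_[p]) (d : BD B V I),
    F ≠ 0 → IsBF F d → Fintype.card V ≤ nV → Fintype.card B ≤ nB → LL φ F := by
  induction nV using Nat.strong_induction_on with
  | _ nV ihV =>
    intro nB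
    induction nB using Nat.strong_induction_on with
    | _ nB ihB =>
      intro σ B V I _ _ _ _ F d hF hBF hV hB
      obtain ⟨V', I', _, _, d', hnrm, hBF', hcV⟩ := hBF.norm
      refine LL_bf φ F hF d' hnrm hBF' fun γ hγ P hP => ?_
      have hJ : Nonempty (I' ⊕ {k // d'.A k}) := by
        by_contra h0
        rw [not_nonempty_iff] at h0
        obtain ⟨l, ξ, U, W, D, hl, hξ, hU, hW, hD, hli, heq⟩ := hBF'
        have hI : IsEmpty I' := ⟨fun i => h0.1 (Sum.inl i)⟩
        have hA : IsEmpty {k // d'.A k} := ⟨fun i => h0.1 (Sum.inr i)⟩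
        have hD' : D ≠ 0 := by
          rintro rfl
          rw [map_zero] at hD
          exact hD rfl
        apply mul_ne_zero hD' hF
        rw [heq, Finset.sum_of_isEmpty, Finset.sum_of_isEmpty, add_zero]
      have hne : model d'.mt γ ≠ 0 := model_ne' _ _ _ d'.dist γ hγ
      by_cases hc : ∀ t, coeff (Finsupp.single t 1) (trans P (model d'.mt γ)) = 0
      · obtain ⟨B'', V'', I'', _, _, _, d'', hBF'', hlt⟩ := bd_trans d' hnrm γ hγ P hP hc
        rcases hlt with hlt | ⟨hle, hlt⟩
        · exact ihV (Fintype.card V'') (by omega) (Fintype.card B'') _ _ _ _ _ _ _ _ _ d''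
            (trans_ne _ _ hne) hBF'' le_rfl le_rfl
        · exact ihB (Fintype.card B'') (by omega) _ _ _ _ _ _ _ _ _ d''
            (trans_ne _ _ hne) hBF'' (by omega) le_rfl
      · push Not at hc
        exact LL_easy φ _ (Or.inr hc)

/-- **The local statement for block forms.** -/
theorem LL_of_bf (φ : ℚ_[p] →+* ℂ) {σ B V I : Type} [Fintype σ] [Fintype B] [Fintype V]
    [Fintype I] (F : MvPolynomial σ ℚ_[p]) (d : BD B V I) (hF : F ≠ 0) (h : IsBF F d) :
    LL φ F :=
  LL_ind φ _ _ σ B V I _ _ _ _ F d hF h le_rfl le_rfl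

end Pool.Agent.H1.QB
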