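import Pool.Agent.H1.QB.Blk

set_option autoImplicit false
set_option linter.unusedSectionVars false
set_option linter.unusedVariables false

/-! # Sums of quadric bundles over lines -/

namespace Pool.Agent.H1.QB

open MvPolynomial

section shift

variable {σ K : Type} [Fintype σ] [Field K]

theorem aev_shift (l₀ : MvPolynomial σ K) (τ : K) (c : Polynomial K) :
    Polynomial.aeval (l₀ + C τ) c = Polynomial.aeval l₀ (c.comp (Polynomial.X + Polynomial.C τ)) := by
  rw [Polynomial.aeval_comp]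
  simp only [map_add, Polynomial.aeval_X, Polynomial.aeval_C]
  rfl

/-- polynomials of degree two at another point -/
theorem GQ_local [CharZero K] {N : Type} [Fintype N] (c : Polynomial K) (b : N → Polynomial K)
    (q : N → N → Polynomial K) (l₀ : MvPolynomial σ K) (x : N → MvPolynomial σ K) (τ : K)
    (P : N → K) : ∃ (c' : Polynomial K) (b' : N → Polynomial K) (q' : N → N → Polynomial K),
      (∀ j k, q' j k = q' k j) ∧
      GQ c b q (l₀ + C τ) (fun j => x j + C (P j)) = GQ c' b' q' l₀ x := by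
  have h2 : (2 : K) ≠ 0 := two_ne_zero
  set s : Polynomial K → Polynomial K := fun f => f.comp (Polynomial.X + Polynomial.C τ) with hs
  refine ⟨s c + (∑ j, Polynomial.C (P j) * s (b j)) +
      ∑ j, ∑ k, Polynomial.C (P j * P k) * s (q j k),
    fun j => s (b j) + ∑ k, Polynomial.C (P k) * (s (q j k) + s (q k j)),
    fun j k => Polynomial.C (2⁻¹ : K) * (s (q j k) + s (q k j)), fun j k => ?_, ?_⟩
  · change Polynomial.C (2⁻¹ : K) * (s (q j k) + s (q k j)) =
      Polynomial.C (2⁻¹ : K) * (s (q k j) + s (q j k))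
    rw [add_comm (s (q j k))]
  · unfold GQ
    simp only [aev_shift]
    set A : Polynomial K → MvPolynomial σ K := fun f => Polynomial.aeval l₀ (s f) with hA
    have e1 : ∀ f : Polynomial K, Polynomial.aeval l₀ (f.comp (Polynomial.X + Polynomial.C τ)) =
        A f := fun f => rfl
    have e2 : ∀ f : Polynomial K, Polynomial.aeval l₀ (s f) = A f := fun f => rfl
    have e3 : ∀ r : K, Polynomial.aeval l₀ (Polynomial.C r) = C r := fun r => by
      rw [Polynomial.aeval_C]
      rfl
    simp only [e1, map_add, map_mul, map_sum, e2, e3]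
    have f1 : ∑ j, A (b j) * (x j + C (P j)) = (∑ j, A (b j) * x j) + ∑ j, C (P j) * A (b j) := by
      rw [← Finset.sum_add_distrib]
      exact Finset.sum_congr rfl fun j _ => by ring
    have f2 : ∑ j, ∑ k, A (q j k) * ((x j + C (P j)) * (x k + C (P k))) =
        (∑ j, ∑ k, A (q j k) * (x j * x k)) + (∑ j, ∑ k, C (P k) * A (q j k) * x j) +
          (∑ j, ∑ k, C (P j) * A (q j k) * x k) + ∑ j, ∑ k, C (P j) * C (P k) * A (q j k) := by
      simp only [← Finset.sum_add_distrib]
      exact Finset.sum_congr rfl fun j _ => Finset.sum_congr rfl fun k _ => by ring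
    have f3 : ∑ j, ∑ k, C (P j) * A (q j k) * x k = ∑ j, ∑ k, C (P k) * A (q k j) * x j :=
      Finset.sum_comm
    have f4 : ∑ j, (A (b j) + ∑ k, C (P k) * (A (q j k) + A (q k j))) * x j =
        (∑ j, A (b j) * x j) + (∑ j, ∑ k, C (P k) * A (q j k) * x j) +
          ∑ j, ∑ k, C (P k) * A (q k j) * x j := by
      simp only [← Finset.sum_add_distrib]
      refine Finset.sum_congr rfl fun j _ => ?_
      rw [add_mul, Finset.sum_mul, Finset.sum_congr rfl fun k _ => show
        C (P k) * (A (q j k) + A (q k j)) * x j = C (P k) * A (q j k) * x j +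
          C (P k) * A (q k j) * x j by ring, Finset.sum_add_distrib]
      ring
    have f5 : ∑ j, ∑ k, C (2⁻¹ : K) * (A (q j k) + A (q k j)) * (x j * x k) =
        ∑ j, ∑ k, A (q j k) * (x j * x k) := by
      have g1 : ∑ j, ∑ k, C (2⁻¹ : K) * (A (q j k) + A (q k j)) * (x j * x k) =
          C (2⁻¹ : K) * (∑ j, ∑ k, A (q j k) * (x j * x k)) +
            C (2⁻¹ : K) * (∑ j, ∑ k, A (q k j) * (x k * x j)) := by
        simp only [Finset.mul_sum, ← Finset.sum_add_distrib]
        exact Finset.sum_congr rfl fun j _ => Finset.sum_congr rfl fun k _ => by ring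
      have g2 : ∑ j, ∑ k, A (q k j) * (x k * x j) = ∑ j, ∑ k, A (q j k) * (x j * x k) :=
        Finset.sum_comm
      have g3 : C (2⁻¹ : K) + C (2⁻¹ : K) = (1 : MvPolynomial σ K) := by
        rw [← map_add, ← two_mul, mul_inv_cancel₀ h2, map_one]
      rw [g1, g2, ← add_mul, g3, one_mul]
    rw [f1, f2, f3, f4, f5]
    ring

end shift

section blocks

variable {V κ K : Type} [Fintype V] [Fintype κ] [Field K]

open Classical in
/-- **Adding the blocks one after the other.** -/
theorem all_blocks (blk : V → κ) (R : κ → MvPolynomial V K)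
    (hR : ∀ (k : κ) (Y : Type) (_ : Fintype Y) (y : Y → MvPolynomial V K) (F : MvPolynomial V K),
      Fi (Sum.elim y fun v : {v // blk v = k} => X v.1) F → Fi y (F + R k)) (s : Finset κ) :
    Fi (fun v : {v // blk v ∉ s} => (X v.1 : MvPolynomial V K)) (∑ k ∈ s, R k) := by
  induction s using Finset.induction_on with
  | empty =>
    rw [Finset.sum_empty]
    refine Fi.init _ ?_
    rw [Fintype.linearIndependent_iff]
    intro g hg v
    have h1 := congrFun hg v.1
    rw [Finset.sum_apply, Finset.sum_eq_single v] at h1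
    · rw [Pi.smul_apply, smul_eq_mul, Pi.zero_apply] at h1
      refine (mul_eq_zero.1 h1).resolve_right ?_
      unfold lin
      rw [c1_X, if_pos rfl]
      exact one_ne_zero
    · intro v' _ hne
      rw [Pi.smul_apply, smul_eq_mul]
      unfold lin
      rw [c1_X, if_neg (fun h => hne (Subtype.ext h)), mul_zero]
    · exact fun h => absurd (Finset.mem_univ _) h
  | insert k s hk ih =>
    rw [Finset.sum_insert hk, add_comm]
    refine hR k _ inferInstance _ _ ?_
    have h1 := ih.comp (fun t : {v // blk v ∉ insert k s} ⊕ {v // blk v = k} =>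
      (Sum.elim (fun v => ⟨v.1, fun h => v.2 (Finset.mem_insert_of_mem h)⟩)
        (fun v => ⟨v.1, by rw [v.2]; exact hk⟩) t : {v // blk v ∉ s})) (by
      rintro (v | v) (v' | v') h
      · simp only [Sum.elim_inl, Subtype.mk.injEq] at h
        rw [Subtype.ext h]
      · simp only [Sum.elim_inl, Sum.elim_inr, Subtype.mk.injEq] at h
        exfalso
        apply v.2
        rw [h, v'.2]
        exact Finset.mem_insert_self _ _
      · simp only [Sum.elim_inl, Sum.elim_inr, Subtype.mk.injEq] at h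
        exfalso
        apply v'.2
        rw [← h, v.2]
        exact Finset.mem_insert_self _ _
      · simp only [Sum.elim_inr, Subtype.mk.injEq] at h
        rw [Subtype.ext h])
    convert h1 using 1
    funext t
    rcases t with t | t <;> rfl

end blocks

section abs

variable {σ K : Type} [Fintype σ] [Field K]

open Classical in
theorem sigma_prod {A : Type} [CommRing A] {I₀ : Type} [Fintype I₀] {J₀ : I₀ → Type}
    [∀ i, Fintype (J₀ i)] (g : (Σ i, J₀ i) → A) (a : (Σ i, J₀ i) → ℕ) (i : I₀) :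
    ∏ v : Σ i, J₀ i, g v ^ (if v.1 = i then a v else 0) = ∏ j, g ⟨i, j⟩ ^ a ⟨i, j⟩ := by
  rw [Fintype.prod_sigma, Finset.prod_eq_single i]
  · exact Finset.prod_congr rfl fun j _ => by rw [if_pos rfl]
  · intro i' _ hne
    exact Finset.prod_eq_one fun j _ => by rw [if_neg hne, pow_zero]
  · exact fun h => absurd (Finset.mem_univ _) h

open Classical in
/-- **One block of variables.** -/
theorem blk_abs [CharZero K] {Y N I₀ : Type} {J₀ : I₀ → Type} [Fintype Y] [Fintype N] [Fintype I₀]
    [∀ i, Fintype (J₀ i)] [∀ i, Nonempty (J₀ i)] (y : Y → MvPolynomial σ K) (t : σ) (xv : N → σ)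
    (zv : (Σ i, J₀ i) → σ) (c : Polynomial K) (b : N → Polynomial K) (q : N → N → Polynomial K)
    (e : I₀ → Polynomial K) (a : (i : I₀) → J₀ i → ℕ) (ha : ∀ i j, 0 < a i j) (P : σ → K)
    (F Q : MvPolynomial σ K)
    (hQ : Q = GQ c b q (X t + C (P t)) (fun j => X (xv j) + C (P (xv j))) +
      ∑ i, Polynomial.aeval (X t + C (P t)) (e i) *
      ∏ j, (X (zv ⟨i, j⟩) + C (P (zv ⟨i, j⟩))) ^ a i j)
    (h : Fi (Sum.elim (Sum.elim (Sum.elim y fun j => X (xv j)) fun v => X (zv v))
      fun _ : Unit => X t) F) :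
    Fi y (F + (Q - C (constantCoeff Q))) := by
  set r : K := constantCoeff Q with hr
  set R : MvPolynomial σ K := Q - C r with hR
  obtain ⟨c', b', q', hq', hGQ⟩ := GQ_local c b q (X t : MvPolynomial σ K)
    (fun j => X (xv j)) (P t) (fun j => P (xv j))
  set e' : I₀ → Polynomial K := fun i =>
    (e i).comp (Polynomial.X + Polynomial.C (P t)) with he'
  have hRk : R = GQ (c' - Polynomial.C r) b' q' (X t) (fun j => X (xv j)) +
      ∑ i, Polynomial.aeval (X t) (e' i) * ∏ v : Σ i, J₀ i,
        (X (zv v) + C (P (zv v))) ^ (if v.1 = i then a v.1 v.2 else 0) := by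
    rw [hR, hQ, hGQ]
    have g1 : GQ (c' - Polynomial.C r) b' q' (X t : MvPolynomial σ K)
        (fun j => X (xv j)) = GQ c' b' q' (X t) (fun j => X (xv j)) - C r := by
      unfold GQ
      rw [map_sub, Polynomial.aeval_C]
      change _ - C r + _ + _ = _
      ring
    have g2 : ∀ i, ∏ v : Σ i, J₀ i, (X (zv v) + C (P (zv v)) : MvPolynomial σ K) ^
          (if v.1 = i then a v.1 v.2 else 0) =
        ∏ j, (X (zv ⟨i, j⟩) + C (P (zv ⟨i, j⟩))) ^ a i j := fun i =>
      sigma_prod (fun v => (X (zv v) + C (P (zv v)) : MvPolynomial σ K)) (fun v => a v.1 v.2) i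
    simp only [g2, g1, aev_shift, he']
    ring
  have hc : (c' - Polynomial.C r).eval 0 + ∑ i, (e' i).eval 0 * ∏ v : Σ i, J₀ i,
      P (zv v) ^ (if v.1 = i then a v.1 v.2 else 0) = 0 := by
    have g3 : constantCoeff R = 0 := by
      rw [hR, map_sub, constantCoeff_C, hr, sub_self]
    have g4 : constantCoeff R = (c' - Polynomial.C r).eval 0 + ∑ i, (e' i).eval 0 *
        ∏ v : Σ i, J₀ i, P (zv v) ^ (if v.1 = i then a v.1 v.2 else 0) := by
      rw [hRk, map_add, cc_GQ _ _ _ _ (constantCoeff_X _ _) _ (fun j => constantCoeff_X _ _),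
        map_sum]
      congr 1
      refine Finset.sum_congr rfl fun i _ => ?_
      rw [map_mul, cc_aev _ (constantCoeff_X _ _), map_prod]
      congr 1
      refine Finset.prod_congr rfl fun v _ => ?_
      rw [map_pow, cc_XC]
    rw [← g4, g3]
  refine blk_main y (X t) (F + R) (constantCoeff_X _ _)
    (fun j => X (xv j)) (fun j => constantCoeff_X _ _)
    (fun v => X (zv v)) (fun j => constantCoeff_X _ _)
    (c' - Polynomial.C r) b' q' hq' (fun v => v.1) (fun i => ?_) (fun v => a v.1 v.2)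
    (fun v => (ha v.1 v.2).ne') e' (fun v => P (zv v)) hc ?_
  · obtain ⟨j⟩ := (inferInstance : Nonempty (J₀ i))
    exact ⟨⟨i, j⟩, rfl⟩
  · rw [← hRk]
    exact Fi.block _ _ _ _ (constantCoeff_X _ _) h

theorem inj_blocks {κ Y N Z : Type} (blk : σ → κ) (k : κ) (t : σ) (xv : N → σ) (zv : Z → σ)
    (ht : blk t = k) (hxv : ∀ j, blk (xv j) = k) (hzv : ∀ v, blk (zv v) = k)
    (hinj : Function.Injective (Sum.elim (Sum.elim xv zv) fun _ : Unit => t)) :
    Function.Injective (fun s : ((Y ⊕ N) ⊕ Z) ⊕ Unit => (Sum.elim (Sum.elim (Sum.elim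
      (fun y => Sum.inl y) (fun j => Sum.inr ⟨xv j, hxv j⟩)) (fun v => Sum.inr ⟨zv v, hzv v⟩))
        (fun _ => Sum.inr ⟨t, ht⟩) s : Y ⊕ {v // blk v = k})) := by
  have key : ∀ s s' : (N ⊕ Z) ⊕ Unit, (Sum.elim (Sum.elim xv zv) fun _ : Unit => t) s =
      (Sum.elim (Sum.elim xv zv) fun _ : Unit => t) s' → s = s' := fun s s' h => hinj h
  rintro (((y | j) | v) | u) (((y' | j') | v') | u') h
  · simp only [Sum.elim_inl, Sum.inl.injEq] at h
    rw [h]
  · simp at h
  · simp at h
  · simp at h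
  · simp at h
  · have h1 := key (Sum.inl (Sum.inl j)) (Sum.inl (Sum.inl j'))
      (congrArg Subtype.val (Sum.inr_injective h))
    simp only [Sum.inl.injEq] at h1
    rw [h1]
  · have h1 := key (Sum.inl (Sum.inl j)) (Sum.inl (Sum.inr v'))
      (congrArg Subtype.val (Sum.inr_injective h))
    simp at h1
  · have h1 := key (Sum.inl (Sum.inl j)) (Sum.inr u')
      (congrArg Subtype.val (Sum.inr_injective h))
    simp at h1
  · simp at h
  · have h1 := key (Sum.inl (Sum.inr v)) (Sum.inl (Sum.inl j'))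
      (congrArg Subtype.val (Sum.inr_injective h))
    simp at h1
  · have h1 := key (Sum.inl (Sum.inr v)) (Sum.inl (Sum.inr v'))
      (congrArg Subtype.val (Sum.inr_injective h))
    simp only [Sum.inl.injEq, Sum.inr.injEq] at h1
    rw [h1]
  · have h1 := key (Sum.inl (Sum.inr v)) (Sum.inr u')
      (congrArg Subtype.val (Sum.inr_injective h))
    simp at h1
  · simp at h
  · have h1 := key (Sum.inr u) (Sum.inl (Sum.inl j'))
      (congrArg Subtype.val (Sum.inr_injective h))
    simp at h1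
  · have h1 := key (Sum.inr u) (Sum.inl (Sum.inr v'))
      (congrArg Subtype.val (Sum.inr_injective h))
    simp at h1
  · rfl

end abs

section poly

variable {R : Type} [CommRing R] {κ : Type} [Fintype κ] {N I : κ → Type} [∀ k, Fintype (N k)]
  [∀ k, Fintype (I k)] {J : (k : κ) → I k → Type} [∀ k i, Fintype (J k i)]

/-- The block `c(t) + ∑_j b_j(t) x_j + ∑_{j,j'} q_{j,j'}(t) x_j x_{j'} + ∑_i e_i(t) ∏_j z_{i,j} ^ a_{i,j}`
with the index `k`. -/
noncomputable def qblock (c : κ → Polynomial R) (b : (k : κ) → N k → Polynomial R)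
    (q : (k : κ) → N k → N k → Polynomial R) (e : (k : κ) → I k → Polynomial R)
    (a : (k : κ) → (i : I k) → J k i → ℕ) (k : κ) :
    MvPolynomial (κ ⊕ ((Σ k, N k) ⊕ (Σ k, Σ i : I k, J k i))) R :=
  Polynomial.aeval (X (Sum.inl k)) (c k) +
    (∑ j, Polynomial.aeval (X (Sum.inl k)) (b k j) * X (Sum.inr (Sum.inl ⟨k, j⟩))) +
    (∑ j, ∑ j', Polynomial.aeval (X (Sum.inl k)) (q k j j') *
      (X (Sum.inr (Sum.inl ⟨k, j⟩)) * X (Sum.inr (Sum.inl ⟨k, j'⟩)))) +
    ∑ i, Polynomial.aeval (X (Sum.inl k)) (e k i) *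
      ∏ j, X (Sum.inr (Sum.inr ⟨k, i, j⟩)) ^ a k i j

theorem map_aev {S σ : Type} [CommRing S] (φ : R →+* S) (v : σ) (c : Polynomial R) :
    map φ (Polynomial.aeval (X v : MvPolynomial σ R) c) =
      Polynomial.aeval (X v : MvPolynomial σ S) (c.map φ) := by
  rw [Polynomial.aeval_def, Polynomial.aeval_def, Polynomial.eval₂_map, Polynomial.hom_eval₂,
    map_X]
  congr 1
  ext r
  simp

theorem map_qblock {S : Type} [CommRing S] (φ : R →+* S) (c : κ → Polynomial R)
    (b : (k : κ) → N k → Polynomial R)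
    (q : (k : κ) → N k → N k → Polynomial R) (e : (k : κ) → I k → Polynomial R)
    (a : (k : κ) → (i : I k) → J k i → ℕ) (k : κ) :
    map φ (qblock c b q e a k) = qblock (fun k => (c k).map φ) (fun k j => (b k j).map φ)
      (fun k j j' => (q k j j').map φ) (fun k i => (e k i).map φ) a k := by
  unfold qblock
  simp only [map_add, map_sum, map_mul, map_prod, map_pow, map_X, map_aev]

end poly

section final

variable {p : ℕ} [Fact p.Prime] {κ : Type} [Fintype κ] {N I : κ → Type} [∀ k, Fintype (N k)]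
  [∀ k, Fintype (I k)] {J : (k : κ) → I k → Type} [∀ k i, Fintype (J k i)]

theorem trans_aev {σ : Type} (P : σ → ℚ_[p]) (v : σ) (c : Polynomial ℚ_[p]) :
    trans P (Polynomial.aeval (X v) c) = Polynomial.aeval (X v + C (P v)) c := by
  unfold trans
  rw [← Polynomial.aeval_algHom_apply, aeval_X]

theorem trans_X {σ : Type} (P : σ → ℚ_[p]) (v : σ) :
    trans P (X v) = X v + C (P v) := by
  unfold trans
  rw [aeval_X]

theorem trans_qblock (c : κ → Polynomial ℚ_[p])
    (b : (k : κ) → N k → Polynomial ℚ_[p])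
    (q : (k : κ) → N k → N k → Polynomial ℚ_[p]) (e : (k : κ) → I k → Polynomial ℚ_[p])
    (a : (k : κ) → (i : I k) → J k i → ℕ)
    (P : κ ⊕ ((Σ k, N k) ⊕ (Σ k, Σ i : I k, J k i)) → ℚ_[p]) (k : κ) :
    trans P (qblock c b q e a k) =
      GQ (c k) (b k) (q k) (X (Sum.inl k) + C (P (Sum.inl k)))
        (fun j => X (Sum.inr (Sum.inl ⟨k, j⟩)) + C (P (Sum.inr (Sum.inl ⟨k, j⟩)))) +
      ∑ i, Polynomial.aeval (X (Sum.inl k) + C (P (Sum.inl k))) (e k i) *
      ∏ j, (X (Sum.inr (Sum.inr ⟨k, i, j⟩)) + C (P (Sum.inr (Sum.inr ⟨k, i, j⟩)))) ^ a k i j := by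
  have h1 : trans P (qblock c b q e a k) = aeval (fun i => X i + C (P i) :
      _ → MvPolynomial (κ ⊕ ((Σ k, N k) ⊕ (Σ k, Σ i : I k, J k i))) ℚ_[p])
        (qblock c b q e a k) := rfl
  have h2 : ∀ (v : κ ⊕ ((Σ k, N k) ⊕ (Σ k, Σ i : I k, J k i))) (f : Polynomial ℚ_[p]),
      aeval (fun i => X i + C (P i) : _ → MvPolynomial (κ ⊕ ((Σ k, N k) ⊕
        (Σ k, Σ i : I k, J k i))) ℚ_[p]) (Polynomial.aeval (X v) f) =
      Polynomial.aeval (X v + C (P v)) f := fun v f => trans_aev P v f
  rw [h1]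
  unfold qblock GQ
  simp only [map_add, map_sum, map_mul, map_prod, map_pow, aeval_X, h2]

open Classical in
/-- **The local statement at every point.** -/
theorem LLall_q [∀ k i, Nonempty (J k i)] (c : κ → Polynomial ℚ_[p])
    (b : (k : κ) → N k → Polynomial ℚ_[p])
    (q : (k : κ) → N k → N k → Polynomial ℚ_[p]) (e : (k : κ) → I k → Polynomial ℚ_[p])
    (a : (k : κ) → (i : I k) → J k i → ℕ) (ha : ∀ k i j, 0 < a k i j)
    (hne : ∑ k, qblock c b q e a k ≠ 0) : LLall (∑ k, qblock c b q e a k) := by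
  intro φ P
  by_cases h0 : constantCoeff (trans P (∑ k, qblock c b q e a k)) = 0
  swap
  · exact LL_of_unit φ _ h0
  have hF : trans P (∑ k, qblock c b q e a k) = ∑ k, trans P (qblock c b q e a k) := by
    unfold trans
    rw [map_sum]
  have hr0 : ∑ k, constantCoeff (trans P (qblock c b q e a k)) = 0 := by
    rw [← h0, hF, map_sum]
  have hFR : trans P (∑ k, qblock c b q e a k) = ∑ k, (trans P (qblock c b q e a k) -
      C (constantCoeff (trans P (qblock c b q e a k)))) := by
    rw [hF, Finset.sum_sub_distrib, ← map_sum, hr0, map_zero, sub_zero]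
  have hFi := all_blocks (Sum.elim id (Sum.elim (fun v => v.1) (fun v => v.1)) :
    κ ⊕ ((Σ k, N k) ⊕ (Σ k, Σ i : I k, J k i)) → κ) (fun k => trans P (qblock c b q e a k) -
      C (constantCoeff (trans P (qblock c b q e a k)))) ?_ Finset.univ
  · obtain ⟨B, V, I', _, _, _, d, hbf⟩ := hFi.isBF
    rw [← hFR] at hbf
    exact LL_of_bf φ _ d (trans_ne P _ hne) hbf
  · intro k Y _ y F hFi
    refine blk_abs y (Sum.inl k) (fun j => Sum.inr (Sum.inl ⟨k, j⟩))
      (fun v => Sum.inr (Sum.inr ⟨k, v⟩)) (c k) (b k) (q k) (e k) (a k) (ha k) P F _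
      (trans_qblock c b q e a P k) ?_
    have g4 := hFi.comp _ (inj_blocks (Y := Y) (Sum.elim id (Sum.elim (fun v => v.1)
      (fun v => v.1)) : κ ⊕ ((Σ k, N k) ⊕ (Σ k, Σ i : I k, J k i)) → κ) k (Sum.inl k)
      (fun j : N k => Sum.inr (Sum.inl ⟨k, j⟩))
      (fun v : Σ i : I k, J k i => Sum.inr (Sum.inr ⟨k, v⟩)) rfl (fun _ => rfl) (fun _ => rfl) (by
        rintro ((j | v) | u) ((j' | v') | u') h <;> simp at h <;> simp [h]))
    convert g4 using 1
    funext t
    rcases t with ((t | t) | t) | t <;> rfl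

end final

end Pool.Agent.H1.QB
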