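import Mathlib

set_option autoImplicit false

namespace Pool.Agent.H1.QB

/-- a nonzero minor -/
theorem exists_minor {K n : Type} [Field K] [Fintype n] {c : ℕ} (v : Fin c → n → K)
    (h : LinearIndependent K v) : ∃ s : Fin c → n, (Matrix.of fun u t => v t (s u)).det ≠ 0 := by
  classical
  set A : Matrix (Fin c) n K := Matrix.of v with hA
  have h1 : A.rank = Fintype.card (Fin c) := LinearIndependent.rank_matrix h
  rw [Matrix.rank_eq_finrank_span_cols] at h1
  have h2 : Submodule.span K (Set.range A.col) = ⊤ := by
    apply Submodule.eq_top_of_finrank_eq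
    rw [h1, Module.finrank_fintype_fun_eq_card]
  obtain ⟨b, hb1, hb2, hb3⟩ := exists_linearIndependent K (Set.range A.col)
  have hfin : b.Finite := (Set.finite_range A.col).subset hb1
  have : Fintype b := hfin.fintype
  have hsp : ⊤ ≤ Submodule.span K (Set.range (Subtype.val : b → (Fin c → K))) := by
    rw [Subtype.range_coe, hb2, h2]
  set B := Module.Basis.mk hb3 hsp with hB
  have hcard : Fintype.card b = c := by
    have h3 := Module.finrank_eq_card_basis B
    rw [Module.finrank_fintype_fun_eq_card, Fintype.card_fin] at h3
    exact h3.symm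
  set e : Fin c ≃ b := (Fintype.equivFinOfCardEq hcard).symm with he
  choose s hs using fun u : Fin c => hb1 (e u).2
  refine ⟨s, ?_⟩
  have hli : LinearIndependent K (fun u => A.col (s u)) := by
    have h4 : (fun u => A.col (s u)) = (Subtype.val : b → (Fin c → K)) ∘ e := by
      funext u
      exact hs u
    rw [h4]
    exact hb3.comp e e.injective
  have h5 : IsUnit (Matrix.of fun u t => v t (s u)) := by
    rw [← Matrix.linearIndependent_rows_iff_isUnit]
    exact hli
  exact ((Matrix.isUnit_iff_isUnit_det _).1 h5).ne_zero

end Pool.Agent.H1.QB
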