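import Pool.Agent.H1.QB.Tr

set_option autoImplicit false
set_option linter.unusedSectionVars false
set_option linter.unusedVariables false

/-! # Removal of units, `p`-adic part -/

namespace Pool.Agent.H1.QB

open MeasureTheory Topology MvPolynomial
open Pool.Agent.Y230.PT Pool.Agent.Y230.PS Pool.Agent.Q57.QP
open Pool.Agent.H628R4.TP (IsBFunction weylS)

variable {p : ℕ} [Fact p.Prime] {σ : Type} [Fintype σ]

/-- strictly differentiable -/
def SD (f : (σ → ℚ_[p]) → ℚ_[p]) (x : σ → ℚ_[p]) : Prop :=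
  ∃ L : (σ → ℚ_[p]) →L[ℚ_[p]] ℚ_[p], HasStrictFDerivAt f L x

theorem SD.mul {f g : (σ → ℚ_[p]) → ℚ_[p]} {x : σ → ℚ_[p]} (hf : SD f x) (hg : SD g x) :
    SD (fun y => f y * g y) x := by
  obtain ⟨L, hL⟩ := hf
  obtain ⟨M, hM⟩ := hg
  exact ⟨_, hL.mul hM⟩

theorem SD.inv {f : (σ → ℚ_[p]) → ℚ_[p]} {x : σ → ℚ_[p]} (hf : SD f x) (h0 : f x ≠ 0) :
    SD (fun y => (f y)⁻¹) x := by
  obtain ⟨L, hL⟩ := hf
  exact ⟨_, (hasStrictDerivAt_inv h0).comp_hasStrictFDerivAt x hL⟩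

theorem SD.const (a : ℚ_[p]) (x : σ → ℚ_[p]) : SD (fun _ => a) x :=
  ⟨_, hasStrictFDerivAt_const a x⟩

theorem SD.poly (F : MvPolynomial σ ℚ_[p]) (x : σ → ℚ_[p]) : SD (fun y => eval y F) x :=
  ⟨_, Pool.Agent.Q210.QP.qp_eval p F x⟩

theorem SD.prod {J : Type} (S : Finset J) (f : J → (σ → ℚ_[p]) → ℚ_[p]) (x : σ → ℚ_[p])
    (h : ∀ j, SD (f j) x) : SD (fun y => ∏ j ∈ S, f j y) x := by
  classical
  induction S using Finset.induction_on with
  | empty => simpa using SD.const 1 x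
  | insert k t hk ih =>
    simp only [Finset.prod_insert hk]
    exact (h k).mul ih

theorem SD.cont {f : (σ → ℚ_[p]) → ℚ_[p]} {x : σ → ℚ_[p]} (hf : SD f x) : ContinuousAt f x := by
  obtain ⟨L, hL⟩ := hf
  exact hL.continuousAt

/-- the norm is locally constant -/
theorem norm_ev {f : (σ → ℚ_[p]) → ℚ_[p]} {x : σ → ℚ_[p]} (hf : ContinuousAt f x)
    (h0 : f x ≠ 0) : ∀ᶠ y in 𝓝 x, ‖f y‖ = ‖f x‖ := by
  have h1 : ∀ᶠ y in 𝓝 x, dist (f y) (f x) < ‖f x‖ :=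
    hf (Metric.ball_mem_nhds _ (norm_pos_iff.2 h0))
  filter_upwards [h1] with y hy
  rw [dist_eq_norm] at hy
  have h3 : f y = (f y - f x) + f x := by ring
  rw [h3, Padic.add_eq_max_of_ne hy.ne, max_eq_right hy.le]

theorem eval0 (F : MvPolynomial σ ℚ_[p]) : eval (0 : σ → ℚ_[p]) F = constantCoeff F := by
  rw [← MvPolynomial.eval_zero]

theorem coeff1_pderiv (F : MvPolynomial σ ℚ_[p]) (i : σ) :
    eval (0 : σ → ℚ_[p]) (pderiv i F) = coeff (Finsupp.single i 1) F := by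
  rw [eval0]
  change coeff 0 (pderiv i F) = _
  rw [coeff_pderiv]
  simp

variable {c : ℕ} {J : Type} [Fintype J] [DecidableEq J]

open Classical in
/-- **Removal of units: the integrals.** -/
theorem tr_padic [DecidableEq σ] (F : MvPolynomial σ ℚ_[p]) (g : Fin c → MvPolynomial σ ℚ_[p])
    (s : Fin c → σ) (hg : ∀ t, constantCoeff (g t) = 0)
    (hdet : (Matrix.of fun u t => coeff (Finsupp.single (s u) 1) (g t)).det ≠ 0)
    (m : J → Fin c → ℕ) (U : J → MvPolynomial σ ℚ_[p]) (hU : ∀ j, constantCoeff (U j) ≠ 0)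
    (D : MvPolynomial σ ℚ_[p]) (hD : constantCoeff D ≠ 0)
    (heq : D * F = ∑ j, U j * ∏ t, g t ^ m j t) (cl : J → Fin c) (pu : J → Prop)
    (hm : Dist cl pu m) (mm : ℂ → ℕ∞)
    (h : LP mm (ev (model m fun j => constantCoeff (U j))) 0) :
    LP mm (ev F) 0 := by
  set γ : J → ℚ_[p] := fun j => constantCoeff (U j) with hγ
  have hγ0 : ∀ j, γ j ≠ 0 := fun j => hU j
  have hD0 : eval (0 : σ → ℚ_[p]) D ≠ 0 := by rw [eval0]; exact hD
  set u : J → (σ → ℚ_[p]) → ℚ_[p] := fun j x => (γ j)⁻¹ * eval x (U j) with hu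
  have hu1 : ∀ j, u j 0 = 1 := by
    intro j
    rw [hu]
    beta_reduce
    rw [eval0, hγ]
    exact inv_mul_cancel₀ (hU j)
  have huS : ∀ j, SD (u j) 0 := fun j => (SD.const _ _).mul (SD.poly _ _)
  choose rt hrt hrt1 hrt2 using fun j => root_padic p (m j (cl j)) (hm.ne j)
  -- the root of a function with value `1`
  have hcomp : ∀ (j : J) (f : (σ → ℚ_[p]) → ℚ_[p]), f 0 = 1 → SD f 0 →
      (SD (fun x => rt j (f x)) 0 ∧ rt j (f 0) = 1 ∧
        ∀ᶠ x in 𝓝 (0 : σ → ℚ_[p]), rt j (f x) ^ m j (cl j) = f x) := by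
    intro j f hf1 hfS
    refine ⟨?_, ?_, ?_⟩
    · obtain ⟨L, hL⟩ := hfS
      have h1 : HasStrictDerivAt (rt j) ((m j (cl j) : ℚ_[p])⁻¹) (f 0) := by
        rw [hf1]
        exact hrt j
      exact ⟨_, h1.comp_hasStrictFDerivAt 0 hL⟩
    · rw [hf1, hrt1]
    · have h2 : Filter.Tendsto f (𝓝 0) (𝓝 1) := by
        have h3 : Filter.Tendsto f (𝓝 0) (𝓝 (f 0)) := hfS.cont
        rwa [hf1] at h3
      exact h2.eventually (hrt2 j)
  set ρ : J → (σ → ℚ_[p]) → ℚ_[p] := fun j x => rt j (u j x) with hρ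
  have hρS : ∀ j, SD (ρ j) 0 := fun j => (hcomp j (u j) (hu1 j) (huS j)).1
  have hρ1 : ∀ j, ρ j 0 = 1 := fun j => (hcomp j (u j) (hu1 j) (huS j)).2.1
  have hρe : ∀ j, ∀ᶠ x in 𝓝 (0 : σ → ℚ_[p]), ρ j x ^ m j (cl j) = u j x := fun j =>
    (hcomp j (u j) (hu1 j) (huS j)).2.2
  have hρn : ∀ j, ∀ᶠ x in 𝓝 (0 : σ → ℚ_[p]), ρ j x ≠ 0 := by
    intro j
    have h1 := norm_ev (hρS j).cont (by rw [hρ1]; exact one_ne_zero)
    filter_upwards [h1] with x hx
    rw [← norm_ne_zero_iff, hx, hρ1, norm_one]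
    exact one_ne_zero
  set P : J → (σ → ℚ_[p]) → ℚ_[p] := fun j x =>
    ∏ j' ∈ Finset.univ.filter (fun j' => pu j'), ((ρ j' x)⁻¹) ^ m j (cl j') with hP
  have hSDpow : ∀ (f : (σ → ℚ_[p]) → ℚ_[p]) (k : ℕ), SD f 0 → SD (fun x => f x ^ k) 0 := by
    intro f k hf
    induction k with
    | zero => simpa using SD.const 1 0
    | succ k ih =>
      simp only [pow_succ]
      exact ih.mul hf
  have hPS : ∀ j, SD (P j) 0 := fun j => SD.prod _ _ 0 fun j' =>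
    hSDpow _ _ ((hρS j').inv (by rw [hρ1]; exact one_ne_zero))
  set u' : J → (σ → ℚ_[p]) → ℚ_[p] := fun j x => u j x * P j x with hu'
  have hu'1 : ∀ j, u' j 0 = 1 := by
    intro j
    rw [hu', hP]
    beta_reduce
    rw [hu1, one_mul]
    refine Finset.prod_eq_one fun j' _ => ?_
    rw [hρ1, inv_one, one_pow]
  have hu'S : ∀ j, SD (u' j) 0 := fun j => (huS j).mul (hPS j)
  set υ : J → (σ → ℚ_[p]) → ℚ_[p] := fun j x => rt j (u' j x) with hυ
  have hυS : ∀ j, SD (υ j) 0 := fun j => (hcomp j (u' j) (hu'1 j) (hu'S j)).1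
  have hυ1 : ∀ j, υ j 0 = 1 := fun j => (hcomp j (u' j) (hu'1 j) (hu'S j)).2.1
  have hυe : ∀ j, ∀ᶠ x in 𝓝 (0 : σ → ℚ_[p]), υ j x ^ m j (cl j) = u' j x := fun j =>
    (hcomp j (u' j) (hu'1 j) (hu'S j)).2.2
  set r : J → (σ → ℚ_[p]) → ℚ_[p] := fun j => if pu j then ρ j else υ j with hr
  have hrS : ∀ j, SD (r j) 0 := by
    intro j
    rw [hr]
    beta_reduce
    split_ifs
    · exact hρS j
    · exact hυS j
  have hr1 : ∀ j, r j 0 = 1 := by
    intro j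
    rw [hr]
    beta_reduce
    split_ifs
    · exact hρ1 j
    · exact hυ1 j
  set G : Fin c → (σ → ℚ_[p]) → ℚ_[p] := fun t x =>
    newG cl (fun t => eval x (g t)) (fun j => r j x) t with hG
  have hG0 : ∀ t, G t 0 = 0 := by
    intro t
    rw [hG]
    beta_reduce
    rw [newG, eval0, hg, zero_mul]
  have hGd : ∀ t, HasStrictFDerivAt (G t) (∑ i, eval (0 : σ → ℚ_[p]) (pderiv i (g t)) •
      (ContinuousLinearMap.proj i : (σ → ℚ_[p]) →L[ℚ_[p]] ℚ_[p])) 0 := by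
    intro t
    have h1 := Pool.Agent.Q210.QP.qp_eval p (g t) (0 : σ → ℚ_[p])
    obtain ⟨M, hM⟩ := SD.prod (Finset.univ.filter (fun j => cl j = t)) r 0 hrS
    have h2 := h1.mul hM
    have h3 : ∏ j ∈ Finset.univ.filter (fun j => cl j = t), r j 0 = 1 :=
      Finset.prod_eq_one fun j _ => hr1 j
    rw [h3, eval0, hg, zero_smul, zero_add, one_smul] at h2
    exact h2
  have hdetG : (Matrix.of fun u t => (∑ i, eval (0 : σ → ℚ_[p]) (pderiv i (g t)) •
      (ContinuousLinearMap.proj i : (σ → ℚ_[p]) →L[ℚ_[p]] ℚ_[p])) (Pi.single (s u) 1)).det ≠ 0 := by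
    have h1 : (Matrix.of fun u t => (∑ i, eval (0 : σ → ℚ_[p]) (pderiv i (g t)) •
      (ContinuousLinearMap.proj i : (σ → ℚ_[p]) →L[ℚ_[p]] ℚ_[p])) (Pi.single (s u) 1)) =
        Matrix.of fun u t => coeff (Finsupp.single (s u) 1) (g t) := by
      ext1 u t
      rw [Matrix.of_apply, Matrix.of_apply, sum_apply,
        Finset.sum_eq_single (s u)]
      · rw [smul_apply, ContinuousLinearMap.proj_apply, Pi.single_eq_same,
          smul_eq_mul, mul_one, coeff1_pderiv]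
      · intro i _ hi
        rw [smul_apply, ContinuousLinearMap.proj_apply,
          Pi.single_eq_of_ne hi, smul_zero]
      · intro hn
        exact absurd (Finset.mem_univ _) hn
    rw [h1]
    exact hdet
  set a : ℚ_[p] := (eval (0 : σ → ℚ_[p]) D)⁻¹ with ha
  have ha0 : a ≠ 0 := inv_ne_zero hD0
  have hLP : LP mm (fun y => ‖a‖ * ev (model m γ) y) 0 :=
    Pool.Agent.Q261.QP.qp_scale p _ (siz_ev _) mm 0 a ha0 h
  have he : (fun y : Fin c → ℚ_[p] => ‖a‖ * ev (model m γ) y) = ev (C a * model m γ) := by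
    funext y
    unfold ev
    rw [map_mul, eval_C]
    exact (norm_mul _ _).symm
  have hsiz : Siz (fun y : Fin c → ℚ_[p] => ‖a‖ * ev (model m γ) y) := by
    rw [he]
    exact siz_ev _
  have hGz : (fun t => G t 0) = (0 : Fin c → ℚ_[p]) := by
    funext t
    exact hG0 t
  refine st_diff p c G (fun t => ∑ i, eval (0 : σ → ℚ_[p]) (pderiv i (g t)) •
      (ContinuousLinearMap.proj i : (σ → ℚ_[p]) →L[ℚ_[p]] ℚ_[p])) s (ev F)
    (fun y => ‖a‖ * ev (model m γ) y) 0 mm hsiz hGd hdetG ?_ (by rw [hGz]; exact hLP)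
  have hall : ∀ᶠ x in 𝓝 (0 : σ → ℚ_[p]), ∀ j, υ j x ^ m j (cl j) = u' j x :=
    Filter.eventually_all.2 hυe
  have hall2 : ∀ᶠ x in 𝓝 (0 : σ → ℚ_[p]), ∀ j, ρ j x ^ m j (cl j) = u j x :=
    Filter.eventually_all.2 hρe
  have hall3 : ∀ᶠ x in 𝓝 (0 : σ → ℚ_[p]), ∀ j, ρ j x ≠ 0 :=
    Filter.eventually_all.2 hρn
  have hDn := norm_ev (SD.poly D (0 : σ → ℚ_[p])).cont hD0
  filter_upwards [hall, hall2, hall3, hDn] with x hx hx2 hx3 hDx
  have hDx0 : eval x D ≠ 0 := by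
    rw [← norm_ne_zero_iff, hDx]
    exact norm_ne_zero_iff.2 hD0
  have hrp : ∀ j, pu j → r j x * (ρ j x)⁻¹ = 1 := by
    intro j hj
    rw [hr]
    beta_reduce
    rw [if_pos hj]
    exact mul_inv_cancel₀ (hx3 j)
  have hrp1 : ∀ j, pu j → r j x ^ m j (cl j) = u j x := by
    intro j hj
    rw [hr]
    beta_reduce
    rw [if_pos hj]
    exact hx2 j
  have hrp2 : ∀ j, ¬ pu j → r j x ^ m j (cl j) = u j x * ∏ j' ∈ Finset.univ.filter
      (fun j' => pu j'), ((ρ j' x)⁻¹) ^ m j (cl j') := by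
    intro j hj
    rw [hr]
    beta_reduce
    rw [if_neg hj]
    exact hx j
  have hmod : eval (fun t => G t x) (model m γ) = eval x D * eval x F := by
    rw [← map_mul, heq, map_sum, model, map_sum]
    refine Finset.sum_congr rfl fun j _ => ?_
    rw [map_mul, eval_C, map_prod, map_mul, map_prod]
    simp only [map_pow, eval_X]
    rw [hG]
    beta_reduce
    rw [newG_prod' cl pu m hm _ (fun j => r j x) (fun j => (ρ j x)⁻¹) (fun j => u j x) hrp hrp1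
      hrp2 j, hu]
    beta_reduce
    have h1 : γ j * (γ j)⁻¹ = 1 := mul_inv_cancel₀ (hγ0 j)
    linear_combination ((∏ t, (eval x) (g t) ^ m j t) * (eval x (U j))) * h1
  unfold ev
  have ha' : ‖a‖ = ‖eval (0 : σ → ℚ_[p]) D‖⁻¹ := by
    rw [ha, norm_inv]
  have h3 : ‖eval x D * eval x F‖ = ‖eval (0 : σ → ℚ_[p]) D‖ * ‖eval x F‖ := by
    rw [norm_mul, hDx]
  rw [hmod, ha', h3]
  have h2 : ‖eval (0 : σ → ℚ_[p]) D‖ ≠ 0 := norm_ne_zero_iff.2 hD0
  field_simp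

end Pool.Agent.H1.QB
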