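import Pool.Agent.H1.QB.Sp2
import Pool.Agent.H1.QB.Tr2
import Pool.Agent.H1.QB.Minor

set_option autoImplicit false
set_option linter.unusedSectionVars false
set_option linter.unusedVariables false

/-! # Sparse models and germs -/

namespace Pool.Agent.H1.QB

open MeasureTheory Topology MvPolynomial
open Pool.Agent.W427.SMC Pool.Agent.Y230.PT Pool.Agent.Y230.PS Pool.Agent.Q57.QP
open Pool.Agent.W424.SM.ZMU (GG XX)
open Pool.Agent.Q66.QP Pool.Agent.Q247.QP
open Pool.Agent.H628R4.TP (IsBFunction weylS)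
open Pool.Agent.W425.SM (Ind sparse)
open scoped ENNReal

attribute [local instance] msK bsK msZ bsZ

variable {p : ℕ} [Fact p.Prime]

/-- the integral over the unit ball -/
theorem FZ_ball {σ : Type} [Fintype σ] (h : (σ → ℚ_[p]) → ℝ) (hh : Siz h) (s : ℝ) :
    FZ (Measure.pi fun _ : σ => mu p) (fun z => h fun i => inc p (z i)) s =
      IZ h (Metric.closedBall 0 1) s := by
  unfold FZ IZ
  congr 2
  have hc : ∀ i : σ, (fun _ : σ => (1 : ℚ_[p])) i ≠ 0 := fun _ => one_ne_zero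
  have h1 := pi_lin (p := p) (fun _ : σ => (1 : ℚ_[p])) hc
  have hd : disc (fun _ : σ => (1 : ℚ_[p])) = Metric.closedBall 0 1 := by
    change (Set.univ.pi fun _ : σ => Metric.closedBall (0 : ℚ_[p]) ‖(1 : ℚ_[p])‖) = _
    rw [norm_one, closedBall_pi _ zero_le_one]
    rfl
  have hN : (∏ _i : σ, (N p 1 (1 : ℚ_[p]))⁻¹) = 1 := by
    rw [N_one, inv_one, Finset.prod_const_one]
  rw [hd] at h1
  have h2 : (∏ i : σ, (N p 1 ((fun _ : σ => (1 : ℚ_[p])) i))⁻¹) = 1 := hN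
  rw [h2, one_smul] at h1
  rw [← h1]
  have hg : Measurable (fun (z : σ → ℤ_[p]) (i : σ) => (fun _ : σ => (1 : ℚ_[p])) i * inc p (z i)) :=
    measurable_pi_lambda _ fun i => (lin_meas 1).comp (measurable_pi_apply i)
  rw [lintegral_map (siz_meas hh s) hg]
  refine lintegral_congr fun z => ?_
  simp only [one_mul]

/-- **The integral of a sparse polynomial over the unit ball.** -/
theorem model_reg {n k : ℕ} (φ : ℚ_[p] →+* ℂ) (hk : 1 ≤ k) (m : Fin k → Fin n → ℕ) (hm : Ind m)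
    (γ : Fin k → ℚ_[p]) (hγ : ∀ j, γ j ≠ 0) (b : Polynomial ℂ) (hb0 : b ≠ 0)
    (hb : IsBFunction (map φ (model m γ)) b) (T₀ : ℂ) (hT0 : T₀ ≠ 0) :
    Reg p T₀ (b.rootMultiplicity ((rr p T₀ : ℝ) : ℂ))
      (IZ (ev (model m γ)) (Metric.closedBall 0 1)) := by
  have hpp : (p : ℚ_[p]) ≠ 0 := by exact_mod_cast (Fact.out : p.Prime).ne_zero
  have hp1 : (1 : ℝ) < p := by exact_mod_cast (Fact.out : p.Prime).one_lt
  have hp0 : (0 : ℝ) < p := by linarith
  -- a common power of p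
  obtain ⟨K, hK⟩ : ∃ K : ℕ, ∀ j, ‖(p : ℚ_[p]) ^ K * γ j‖ ≤ 1 := by
    have h1 : ∀ j, ∃ K : ℕ, ‖γ j‖ ≤ (p : ℝ) ^ K := fun j => by
      obtain ⟨K, hK⟩ := pow_unbounded_of_one_lt ‖γ j‖ hp1
      exact ⟨K, hK.le⟩
    choose K hK using h1
    refine ⟨∑ j, K j, fun j => ?_⟩
    rw [norm_mul, norm_pow, Padic.norm_p, inv_pow, inv_mul_le_iff₀ (by positivity), mul_one]
    exact (hK j).trans (pow_le_pow_right₀ hp1.le (Finset.single_le_sum
      (f := K) (fun _ _ => Nat.zero_le _) (Finset.mem_univ j)))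
  set c : Fin k → ℤ_[p] := fun j => ⟨(p : ℚ_[p]) ^ K * γ j, hK j⟩ with hc
  have hc0 : ∀ j, c j ≠ 0 := by
    intro j h0
    have h1 := congrArg (fun z : ℤ_[p] => (z : ℚ_[p])) h0
    exact mul_ne_zero (pow_ne_zero K hpp) (hγ j) h1
  have hb' : IsBFunction (sparse m fun j => φ (γ j)) b := by
    rw [map_model] at hb
    exact hb
  have h1 := sp_reg (p := p) hk m hm c hc0 (fun j => φ (γ j))
    (fun j => (map_ne_zero φ).2 (hγ j)) b hb0 hb' T₀ hT0
  have h2 : (fun x : Fin n → ℤ_[p] => ‖GG m c x‖) = fun x =>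
      ((p : ℝ)⁻¹) ^ K * (ev (model m γ) fun i => inc p (x i)) := by
    funext x
    have h3 : ((GG m c x : ℤ_[p]) : ℚ_[p]) = (p : ℚ_[p]) ^ K *
        eval (fun i => inc p (x i)) (model m γ) := by
      change PadicInt.Coe.ringHom (GG m c x) = _
      unfold GG XX model
      rw [map_sum, map_sum, Finset.mul_sum]
      refine Finset.sum_congr rfl fun j _ => ?_
      rw [map_mul, map_mul, eval_C, map_prod, map_prod]
      simp only [map_pow, eval_X]
      rw [hc, ← mul_assoc]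
      rfl
    rw [PadicInt.norm_def, h3, norm_mul, norm_pow, Padic.norm_p]
    rfl
  rw [h2] at h1
  have h3 : Reg p T₀ (b.rootMultiplicity ((rr p T₀ : ℝ) : ℂ))
      (fun s => (((tr' p s : ℝ) : ℂ)⁻¹) ^ K * FZ (Measure.pi fun _ : Fin n => mu p) (fun x =>
        ((p : ℝ)⁻¹) ^ K * (ev (model m γ) fun i => inc p (x i))) s) :=
    ((Reg.tinv (p := p) hT0).pow K).mul0 h1
  refine h3.congr fun s hs => ?_
  rw [FZ_scale (Measure.pi fun _ : Fin n => mu p)
    (fun x => ev (model m γ) fun i => inc p (x i)) (fun x => norm_nonneg _) K s,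
    ← mul_assoc, ← mul_pow, inv_mul_cancel₀ (tr_ne s), one_pow, one_mul, FZ_ball _ (siz_ev _)]

/-- **The local statement for weighted homogeneous sparse polynomials.** -/
theorem LL_model {n k : ℕ} (φ : ℚ_[p] →+* ℂ) (hn : 0 < n) (hk : 1 ≤ k) (m : Fin k → Fin n → ℕ)
    (hm : Ind m) (γ : Fin k → ℚ_[p]) (hγ : ∀ j, γ j ≠ 0) (w : Fin n → ℕ) (hw : ∀ i, 0 < w i)
    (d : ℕ) (hd0 : 0 < d) (hd : ∀ j, ∑ i, m j i * w i = d)
    (hP : ∀ P : Fin n → ℚ_[p], P ≠ 0 → LL φ (trans P (model m γ))) : LL φ (model m γ) := by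
  intro b hb0 hb
  have : Nonempty (Fin n) := ⟨⟨0, hn⟩⟩
  refine lp_weighted w hw d hd0 (siz_ev _) (fun a x => ?_) (mb p b) (fun P hP0 => ?_)
    (fun T0 hT0 => ?_)
  · unfold ev
    rw [← norm_pow, ← norm_mul]
    congr 1
    unfold model
    rw [map_sum, map_sum, Finset.mul_sum]
    refine Finset.sum_congr rfl fun j _ => ?_
    rw [map_mul, map_mul, eval_C, eval_C, map_prod, map_prod]
    simp only [map_pow, eval_X]
    unfold wd
    simp only [mul_pow]
    rw [Finset.prod_mul_distrib]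
    have h1 : ∏ i, (a ^ w i) ^ m j i = a ^ d := by
      rw [← hd j, ← Finset.prod_pow_eq_pow_sum]
      refine Finset.prod_congr rfl fun i _ => ?_
      rw [← pow_mul, mul_comm]
    rw [h1]
    ring
  · refine lp_trans (mb p b) _ P (hP P hP0 b hb0 ?_)
    rw [map_trans]
    exact bfun_trn _ _ b hb
  · refine ⟨_, le_rfl, model_reg φ hk m hm γ hγ b hb0 hb T0 ?_⟩
    rintro rfl
    rw [norm_zero] at hT0
    exact absurd hT0 (by norm_num)

end Pool.Agent.H1.QB
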