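import Pool.Agent.H1.QB.Cls

set_option autoImplicit false
set_option linter.unusedSectionVars false
set_option linter.unusedVariables false

/-! # Normalization of block forms -/

namespace Pool.Agent.H1.QB

open MvPolynomial

section

variable {σ K : Type} [Fintype σ] [Field K] {B V I : Type} [Fintype B] [Fintype V] [Fintype I]

open Classical in
/-- Groups which are divisible by a pure power are absorbed. -/
theorem IsBF.norm {F : MvPolynomial σ K} {d : BD B V I} (h : IsBF F d) :
    ∃ (V' I' : Type) (_ : Fintype V') (_ : Fintype I') (d' : BD B V' I'),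
      d'.nrm ∧ IsBF F d' ∧ Fintype.card V' ≤ Fintype.card V := by
  obtain ⟨l, ξ, U, W, D, hl, hξ, hU, hW, hD, hli, heq⟩ := h
  set G : I → Prop := fun i => ∀ k, d.A k → d.M i k < d.n k with hG
  refine ⟨{v // G (d.π v)}, {i // G i}, inferInstance, inferInstance,
    ⟨fun i k => d.M i.1 k, fun i k k' => d.sg i.1 k k', fun v => ⟨d.π v.1, v.2⟩, ?_,
      fun v => d.a v.1, fun v => d.a0 v.1, d.A, d.n, d.n0⟩, fun i => i.2, ?_,
      Fintype.card_subtype_le _⟩
  · rintro ⟨i, hi⟩
    obtain ⟨v, rfl⟩ := d.sj i
    exact ⟨⟨v, hi⟩, rfl⟩
  · refine ⟨l, fun v => ξ v.1, fun i => U i.1, fun k => W k + ∑ i, if d.n k ≤ d.M i k then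
      U i * l k ^ (d.M i k - d.n k) * ∏ v, ξ v ^ d.ex i v else 0, D, hl, fun v => hξ _,
      fun i => hU _, fun k hk => ?_, hD, ?_, ?_⟩
    · rw [map_add, map_sum]
      have h1 : ∀ i, constantCoeff (if d.n k ≤ d.M i k then
        U i * l k ^ (d.M i k - d.n k) * ∏ v, ξ v ^ d.ex i v else 0) = 0 := by
        intro i
        split_ifs with h
        · rw [map_mul, map_prod]
          obtain ⟨v, hv⟩ := d.sj i
          have h2 : ∏ v, constantCoeff (ξ v ^ d.ex i v) = 0 := by
            refine Finset.prod_eq_zero (Finset.mem_univ v) ?_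
            rw [map_pow, hξ, BD.ex, if_pos hv, zero_pow (d.a0 v)]
          rw [h2, mul_zero]
        · rw [map_zero]
      rw [Finset.sum_congr rfl fun i _ => h1 i, Finset.sum_const_zero, add_zero]
      exact hW k hk
    · have h1 := hli.comp (Sum.map id (Subtype.val) : B ⊕ {v // G (d.π v)} → B ⊕ V)
        (Sum.map_injective.2 ⟨Function.injective_id, Subtype.val_injective⟩)
      convert h1 using 1
      funext t
      rcases t with k | v
      · rfl
      · rfl
    · rw [heq]
      have hex : ∀ (i : {i // G i}), ∏ v : {v // G (d.π v)}, ξ v.1 ^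
          (BD.ex ⟨fun i k => d.M i.1 k, fun i k k' => d.sg i.1 k k', fun v => ⟨d.π v.1, v.2⟩, (by
            rintro ⟨i, hi⟩
            obtain ⟨v, rfl⟩ := d.sj i
            exact ⟨⟨v, hi⟩, rfl⟩), fun v => d.a v.1, fun v => d.a0 v.1, d.A, d.n, d.n0⟩ i v : ℕ) =
          ∏ v, ξ v ^ d.ex i.1 v := by
        intro i
        have h1 : ∏ v, ξ v ^ d.ex i.1 v = ∏ v ∈ Finset.univ.filter (fun v => G (d.π v)),
            ξ v ^ d.ex i.1 v := by
          symm
          refine Finset.prod_subset (Finset.filter_subset _ _) fun v _ hv => ?_
          have h2 : d.π v ≠ i.1 := by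
            intro h3
            apply hv
            rw [Finset.mem_filter]
            refine ⟨Finset.mem_univ _, ?_⟩
            rw [h3]
            exact i.2
          rw [BD.ex, if_neg h2, pow_zero]
        rw [h1, Finset.prod_subtype (p := fun v => G (d.π v)) _ (by simp)]
        refine Finset.prod_congr rfl fun v _ => ?_
        congr 1
        unfold BD.ex
        simp only [Subtype.ext_iff]
      have h1 : ∑ i, U i * ((∏ k, l k ^ d.M i k) * ∏ v, ξ v ^ d.ex i v) =
          (∑ i : {i // G i}, U i.1 * ((∏ k, l k ^ d.M i.1 k) * ∏ v, ξ v ^ d.ex i.1 v)) +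
          ∑ i : {i // ¬ G i}, U i.1 * ((∏ k, l k ^ d.M i.1 k) * ∏ v, ξ v ^ d.ex i.1 v) := by
        rw [← Finset.sum_filter_add_sum_filter_not Finset.univ (fun i => G i)]
        rw [Finset.sum_subtype (p := fun i => G i) (Finset.univ.filter fun i => G i) (by simp),
          Finset.sum_subtype (p := fun i => ¬ G i) (Finset.univ.filter fun i => ¬ G i) (by simp)]
      rw [h1, add_assoc]
      congr 1
      · refine Finset.sum_congr rfl fun i _ => ?_
        rw [hex i]
      · have h2 : ∑ i : {i // ¬ G i}, U i.1 * ((∏ k, l k ^ d.M i.1 k) * ∏ v, ξ v ^ d.ex i.1 v) =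
            ∑ k : {k // d.A k}, (∑ i, if d.n k ≤ d.M i k then
              U i * l k.1 ^ (d.M i k - d.n k) * ∏ v, ξ v ^ d.ex i v else 0) * l k.1 ^ d.n k := by
          have h3 : ∀ i : {i // ¬ G i}, U i.1 * ((∏ k, l k ^ d.M i.1 k) * ∏ v, ξ v ^ d.ex i.1 v) =
              ∑ k : {k // d.A k}, (if d.n k ≤ d.M i.1 k then
              U i.1 * l k.1 ^ (d.M i.1 k - d.n k) * ∏ v, ξ v ^ d.ex i.1 v else 0) *
                l k.1 ^ d.n k := by
            intro i
            have h4 : ¬ ∀ k, d.A k → d.M i.1 k < d.n k := i.2
            push Not at h4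
            obtain ⟨k, hk, hik⟩ := h4
            have hM : d.M i.1 k ≠ 0 := by
              have := d.n0 k hk
              omega
            rw [Finset.sum_eq_single ⟨k, hk⟩]
            · rw [if_pos hik, Finset.prod_eq_single k]
              · have h5 : l k ^ d.M i.1 k = l k ^ (d.M i.1 k - d.n k) * l k ^ d.n k := by
                  rw [← pow_add]
                  congr 1
                  omega
                rw [h5]
                ring
              · intro k' _ hne
                have h6 : d.M i.1 k' = 0 := by
                  by_contra h7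
                  exact hne (d.sg _ _ _ h7 hM)
                rw [h6, pow_zero]
              · exact fun h => absurd (Finset.mem_univ _) h
            · intro k' _ hne
              rw [if_neg, zero_mul]
              intro h6
              have h7 : d.M i.1 k'.1 ≠ 0 := by
                have := d.n0 _ k'.2
                omega
              exact hne (Subtype.ext (d.sg _ _ _ h7 hM))
            · exact fun h => absurd (Finset.mem_univ _) h
          rw [Finset.sum_congr rfl fun i _ => h3 i, Finset.sum_comm]
          refine Finset.sum_congr rfl fun k _ => ?_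
          rw [← Finset.sum_mul]
          congr 1
          rw [← Finset.sum_subtype (Finset.univ.filter fun i => ¬ G i) (by simp)
            (fun i => if d.n k ≤ d.M i k then
              U i * l k.1 ^ (d.M i k - d.n k) * ∏ v, ξ v ^ d.ex i v else 0)]
          refine Finset.sum_subset (Finset.filter_subset _ _) fun i _ hi => ?_
          rw [if_neg]
          intro h5
          apply hi
          rw [Finset.mem_filter]
          refine ⟨Finset.mem_univ _, fun h6 => ?_⟩
          have := h6 _ k.2
          omega
        rw [h2, ← Finset.sum_add_distrib]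
        refine Finset.sum_congr rfl fun k _ => ?_
        ring

end

end Pool.Agent.H1.QB
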