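import Pool.Agent.H1.QB.Rules

set_option autoImplicit false
set_option linter.unusedSectionVars false
set_option linter.unusedVariables false

/-! # Block forms of polynomials of degree two in all but one coordinate -/

namespace Pool.Agent.H1.QB

open MvPolynomial

variable {σ K : Type} [Fintype σ] [Field K]

/-- spectators may be dropped or indexed differently -/
theorem St.comp {Y Y' : Type} [Fintype Y] [Fintype Y'] {y : Y → MvPolynomial σ K}
    {l₀ F R : MvPolynomial σ K} (h : St y l₀ F R) (s : Y' → Y) (hs : Function.Injective s) :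
    St (fun j => y (s j)) l₀ F R := by
  obtain ⟨B, V, I, _, _, _, d, l, ξ, U, W, D, D', k₀, hS, hli, hk, hl, hD', heq⟩ := h
  refine ⟨B, V, I, inferInstance, inferInstance, inferInstance, d, l, ξ, U, W, D, D', k₀, hS,
    ?_, hk, hl, hD', heq⟩
  have h1 := hli.comp (Sum.map id s : (B ⊕ V) ⊕ Y' → (B ⊕ V) ⊕ Y)
    (Sum.map_injective.2 ⟨Function.injective_id, hs⟩)
  convert h1 using 1
  funext t
  rcases t with t | t <;> rfl

/-- change of some of the spectators -/
theorem St.change' {Y N N' : Type} [Fintype Y] [Fintype N] [Fintype N']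
    {y : Y → MvPolynomial σ K} {x : N → MvPolynomial σ K}
    {l₀ F R : MvPolynomial σ K} (h : St (Sum.elim y x) l₀ F R) (x' : N' → MvPolynomial σ K)
    (A : N' → N → K) (e : N' → K) (hy : ∀ j, lin (x' j) = (∑ k, A j k • lin (x k)) + e j • lin l₀)
    (hA : ∀ c : N' → K, (∀ k, ∑ j, c j * A j k = 0) → c = 0) : St (Sum.elim y x') l₀ F R := by
  classical
  refine St.change h (Sum.elim y x') (fun j k => Sum.elim
    (fun i => Sum.elim (fun i' => if i = i' then 1 else 0) (fun _ => 0) k)
    (fun i => Sum.elim (fun _ => 0) (A i) k) j) (Sum.elim (fun _ => 0) e) ?_ ?_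
  · rintro (j | j)
    · simp only [Sum.elim_inl]
      rw [Fintype.sum_sum_type]
      simp
    · simp only [Sum.elim_inr]
      rw [hy, Fintype.sum_sum_type]
      simp
  · intro c hc
    have h1 : ∀ j, c (Sum.inl j) = 0 := by
      intro j
      have h2 := hc (Sum.inl j)
      rw [Fintype.sum_sum_type] at h2
      simpa using h2
    have h3 : (fun j => c (Sum.inr j)) = 0 := by
      refine hA _ fun k => ?_
      have h2 := hc (Sum.inr k)
      rw [Fintype.sum_sum_type] at h2
      simpa using h2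
    funext j
    rcases j with j | j
    · exact h1 j
    · exact congrFun h3 j

section aev

variable (l₀ : MvPolynomial σ K) (hl₀ : constantCoeff l₀ = 0)

include hl₀

theorem cc_aev (c : Polynomial K) : constantCoeff (Polynomial.aeval l₀ c) = c.eval 0 := by
  have h2 : constantCoeff (Polynomial.aeval l₀ c) =
      Polynomial.aeval (constantCoeff l₀) c := by
    rw [Polynomial.aeval_def, Polynomial.aeval_def, Polynomial.hom_eval₂]
    congr 1
    ext a
    simp
  rw [h2, hl₀]
  rfl

theorem lin_aev (c : Polynomial K) : lin (Polynomial.aeval l₀ c) =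
    (c.divX).eval 0 • lin l₀ := by
  have h1 : Polynomial.aeval l₀ c = Polynomial.aeval l₀ c.divX * l₀ + C (c.coeff 0) := by
    conv_lhs => rw [← Polynomial.divX_mul_X_add c]
    simp
  rw [h1, lin_add, lin_mul, lin_C, hl₀, cc_aev l₀ hl₀, zero_smul, zero_add, add_zero]

theorem lin_mul0 (a x : MvPolynomial σ K) (hx : constantCoeff x = 0) :
    lin (a * x) = constantCoeff a • lin x := by
  rw [lin_mul, hx, zero_smul, zero_add]

end aev

/-- polynomials of degree two -/
noncomputable def GQ {N : Type} [Fintype N] (c : Polynomial K) (b : N → Polynomial K)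
    (q : N → N → Polynomial K) (l₀ : MvPolynomial σ K) (x : N → MvPolynomial σ K) :
    MvPolynomial σ K :=
  Polynomial.aeval l₀ c + ∑ j, Polynomial.aeval l₀ (b j) * x j +
    ∑ j, ∑ k, Polynomial.aeval l₀ (q j k) * (x j * x k)

theorem GQ_smul {N : Type} [Fintype N] (c : Polynomial K) (b : N → Polynomial K)
    (q : N → N → Polynomial K) (l₀ : MvPolynomial σ K) (x : N → MvPolynomial σ K)
    (u : Polynomial K) : Polynomial.aeval l₀ u * GQ c b q l₀ x =
      GQ (u * c) (fun j => u * b j) (fun j k => u * q j k) l₀ x := by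
  unfold GQ
  simp only [map_mul, mul_add, Finset.mul_sum, mul_assoc]

theorem GQ_c {N : Type} [Fintype N] (c c' : Polynomial K) (b : N → Polynomial K)
    (q : N → N → Polynomial K) (l₀ : MvPolynomial σ K) (x : N → MvPolynomial σ K) :
    GQ (c + c') b q l₀ x = Polynomial.aeval l₀ c + GQ c' b q l₀ x := by
  unfold GQ
  rw [map_add]
  ring

/-- the linear part of a polynomial of degree two -/
theorem lin_GQ {N : Type} [Fintype N] (b : N → Polynomial K)
    (q : N → N → Polynomial K) (l₀ : MvPolynomial σ K) (hl₀ : constantCoeff l₀ = 0)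
    (x : N → MvPolynomial σ K) (hx : ∀ j, constantCoeff (x j) = 0) :
    lin (GQ 0 b q l₀ x) = ∑ j, (b j).eval 0 • lin (x j) := by
  unfold GQ
  rw [map_zero, zero_add, lin_add, lin_sum, lin_sum]
  have h1 : ∀ j, lin (∑ k, Polynomial.aeval l₀ (q j k) * (x j * x k)) = 0 := by
    intro j
    rw [lin_sum]
    refine Finset.sum_eq_zero fun k _ => ?_
    rw [lin_mul, lin_mul, map_mul, hx, hx]
    simp
  rw [Finset.sum_eq_zero fun j _ => h1 j, add_zero]
  refine Finset.sum_congr rfl fun j _ => ?_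
  rw [lin_mul0 l₀ hl₀ _ _ (hx j), cc_aev l₀ hl₀]

theorem cc_GQ {N : Type} [Fintype N] (c : Polynomial K) (b : N → Polynomial K)
    (q : N → N → Polynomial K) (l₀ : MvPolynomial σ K) (hl₀ : constantCoeff l₀ = 0)
    (x : N → MvPolynomial σ K) (hx : ∀ j, constantCoeff (x j) = 0) :
    constantCoeff (GQ c b q l₀ x) = c.eval 0 := by
  unfold GQ
  rw [map_add, map_add, map_sum, map_sum, cc_aev l₀ hl₀, Finset.sum_eq_zero, Finset.sum_eq_zero]
  · rw [add_zero, add_zero]
  · intro j _
    rw [map_sum]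
    refine Finset.sum_eq_zero fun k _ => ?_
    rw [map_mul, map_mul, hx, zero_mul, mul_zero]
  · intro j _
    rw [map_mul, hx, mul_zero]

theorem sum_ne {N R : Type} [Fintype N] [DecidableEq N] [AddCommMonoid R] (f : N → R) (j₀ : N) :
    ∑ j, f j = f j₀ + ∑ j : {j // j ≠ j₀}, f j.1 :=
  Fintype.sum_eq_add_sum_subtype_ne f j₀

/-- **Completing the square.** -/
theorem GQ_square {N : Type} [Fintype N] [DecidableEq N] (c : Polynomial K)
    (b : N → Polynomial K) (q : N → N → Polynomial K) (hq : ∀ j k, q j k = q k j)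
    (l₀ : MvPolynomial σ K) (x : N → MvPolynomial σ K) (j₀ : N) :
    Polynomial.aeval l₀ (4 * q j₀ j₀) * GQ c b q l₀ x =
      (Polynomial.aeval l₀ (2 * q j₀ j₀) * x j₀ + (Polynomial.aeval l₀ (b j₀) +
        ∑ j : {j // j ≠ j₀}, Polynomial.aeval l₀ (2 * q j₀ j.1) * x j.1)) ^ 2 +
      GQ (4 * q j₀ j₀ * c - b j₀ ^ 2)
        (fun j : {j // j ≠ j₀} => 4 * q j₀ j₀ * b j.1 - 4 * (b j₀ * q j₀ j.1))
        (fun j k => 4 * q j₀ j₀ * q j.1 k.1 - 4 * (q j₀ j.1 * q j₀ k.1)) l₀ (fun j => x j.1) := by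
  unfold GQ
  rw [sum_ne _ j₀, sum_ne (fun j => ∑ k, Polynomial.aeval l₀ (q j k) * (x j * x k)) j₀]
  have h1 : ∀ j, ∑ k, Polynomial.aeval l₀ (q j k) * (x j * x k) =
      Polynomial.aeval l₀ (q j j₀) * (x j * x j₀) +
        ∑ k : {k // k ≠ j₀}, Polynomial.aeval l₀ (q j k.1) * (x j * x k.1) :=
    fun j => sum_ne _ j₀
  simp only [h1, map_sub, map_mul, map_pow, map_ofNat, sub_mul, Finset.sum_sub_distrib,
    Finset.sum_add_distrib]
  set a : Polynomial K →ₐ[K] MvPolynomial σ K := Polynomial.aeval l₀ with ha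
  set Q := a (q j₀ j₀)
  set S : MvPolynomial σ K := ∑ j : {j // j ≠ j₀}, a (q j₀ j.1) * x j.1 with hS
  have e1 : ∑ k : {k // k ≠ j₀}, a (q j₀ k.1) * (x j₀ * x k.1) = x j₀ * S := by
    rw [hS, Finset.mul_sum]
    exact Finset.sum_congr rfl fun k _ => by ring
  have e2 : ∑ j : {j // j ≠ j₀}, a (q j.1 j₀) * (x j.1 * x j₀) = x j₀ * S := by
    rw [hS, Finset.mul_sum]
    exact Finset.sum_congr rfl fun k _ => by rw [hq k.1 j₀]; ring
  have e3 : ∑ j : {j // j ≠ j₀}, 2 * a (q j₀ j.1) * x j.1 = 2 * S := by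
    rw [hS, Finset.mul_sum]
    exact Finset.sum_congr rfl fun k _ => by ring
  have e4 : ∑ j : {j // j ≠ j₀}, 4 * Q * a (b j.1) * x j.1 =
      4 * Q * ∑ j : {j // j ≠ j₀}, a (b j.1) * x j.1 := by
    rw [Finset.mul_sum]
    exact Finset.sum_congr rfl fun k _ => by ring
  have e5 : ∑ j : {j // j ≠ j₀}, 4 * (a (b j₀) * a (q j₀ j.1)) * x j.1 =
      4 * a (b j₀) * S := by
    rw [hS, Finset.mul_sum]
    exact Finset.sum_congr rfl fun k _ => by ring
  have e6 : ∑ j : {j // j ≠ j₀}, ∑ k : {k // k ≠ j₀}, 4 * Q * a (q j.1 k.1) * (x j.1 * x k.1) =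
      4 * Q * ∑ j : {j // j ≠ j₀}, ∑ k : {k // k ≠ j₀}, a (q j.1 k.1) * (x j.1 * x k.1) := by
    rw [Finset.mul_sum]
    refine Finset.sum_congr rfl fun j _ => ?_
    rw [Finset.mul_sum]
    exact Finset.sum_congr rfl fun k _ => by ring
  have e7 : ∑ j : {j // j ≠ j₀}, ∑ k : {k // k ≠ j₀}, 4 * (a (q j₀ j.1) * a (q j₀ k.1)) *
      (x j.1 * x k.1) = 4 * S ^ 2 := by
    rw [hS, sq, Finset.sum_mul_sum, Finset.mul_sum]
    refine Finset.sum_congr rfl fun j _ => ?_
    rw [Finset.mul_sum]
    exact Finset.sum_congr rfl fun k _ => by ring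
  rw [e1, e2, e3, e4, e5, e6, e7]
  ring

/-- **A linear change of the coordinates.** -/
theorem GQ_change {N : Type} [Fintype N] [DecidableEq N] (c : Polynomial K)
    (b : N → Polynomial K) (q : N → N → Polynomial K)
    (l₀ : MvPolynomial σ K) (x : N → MvPolynomial σ K) (j k : N) :
    GQ c b q l₀ (fun i => x i + if i = k then x j else 0) =
      GQ c (fun i => b i + if i = j then b k else 0)
        (fun i i' => q i i' + (if i = j then q k i' else 0) + (if i' = j then q i k else 0) +
          (if i = j then (if i' = j then q k k else 0) else 0)) l₀ x := by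
  unfold GQ
  simp only [mul_add, add_mul, map_add, Finset.sum_add_distrib, mul_ite, ite_mul, mul_zero,
    zero_mul, apply_ite (Polynomial.aeval l₀), map_zero, Finset.sum_ite_eq',
    Finset.mem_univ, if_true, Finset.sum_const_zero, Finset.sum_ite_irrel]
  ring

end Pool.Agent.H1.QB
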