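import Pool.Agent.H1.QB.Quad

set_option autoImplicit false
set_option linter.unusedSectionVars false
set_option linter.unusedVariables false

/-! # Block forms of polynomials of degree two in all but one coordinate: the induction -/

namespace Pool.Agent.H1.QB

open MvPolynomial

variable {σ K : Type} [Fintype σ] [Field K]

theorem exists_min_pow {ι : Type} (f : ι → Polynomial K) (h : ∃ i, f i ≠ 0) :
    ∃ (m : ℕ) (g : ι → Polynomial K), (∀ i, f i = Polynomial.X ^ m * g i) ∧
      ∃ i, (g i).eval 0 ≠ 0 := by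
  classical
  have h1 : ∃ m, ¬ ∀ i, Polynomial.X ^ m ∣ f i := by
    obtain ⟨i, hi⟩ := h
    refine ⟨(f i).natDegree + 1, fun h2 => hi ?_⟩
    refine Polynomial.eq_zero_of_dvd_of_natDegree_lt (h2 i) ?_
    rw [Polynomial.natDegree_X_pow]
    omega
  have h2 := Nat.find_spec h1
  have h3 : Nat.find h1 ≠ 0 := by
    intro h4
    rw [h4] at h2
    apply h2
    intro i
    rw [pow_zero]
    exact one_dvd _
  obtain ⟨m, hm⟩ : ∃ m, Nat.find h1 = m + 1 := ⟨Nat.find h1 - 1, by omega⟩
  have h4 : ∀ i, Polynomial.X ^ m ∣ f i := by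
    by_contra h5
    have := Nat.find_min' h1 h5
    omega
  choose g hg using h4
  refine ⟨m, g, hg, ?_⟩
  by_contra h5
  push Not at h5
  rw [hm] at h2
  apply h2
  intro i
  obtain ⟨g', hg'⟩ := Polynomial.dvd_iff_isRoot.2 (h5 i)
  rw [hg i, hg', map_zero, sub_zero, pow_succ]
  exact mul_dvd_mul_left _ (Dvd.intro _ rfl)

theorem eval_sum_pow {N : Type} [Fintype N] (c : Polynomial K) (b : N → Polynomial K)
    (q : N → N → Polynomial K) (l₀ : MvPolynomial σ K) (x : N → MvPolynomial σ K) (m : ℕ) :
    GQ c (fun j => Polynomial.X ^ m * b j) (fun j k => Polynomial.X ^ m * q j k) l₀ x =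
      Polynomial.aeval l₀ c + l₀ ^ m * GQ 0 b q l₀ x := by
  have h1 := GQ_smul (0 : Polynomial K) b q l₀ x (Polynomial.X ^ m)
  rw [map_pow, Polynomial.aeval_X, mul_zero] at h1
  rw [h1, ← GQ_c, add_zero]

section steps

variable {Y : Type} [Fintype Y] {y : Y → MvPolynomial σ K} {l₀ F : MvPolynomial σ K}

theorem quad_lin (hl₀ : constantCoeff l₀ = 0) {N : Type} [Fintype N] [DecidableEq N]
    (x : N → MvPolynomial σ K)
    (hx : ∀ j, constantCoeff (x j) = 0) (c : Polynomial K) (hc : c.eval 0 = 0)
    (b : N → Polynomial K) (q : N → N → Polynomial K) (m : ℕ) (j₀ : N) (hj₀ : (b j₀).eval 0 ≠ 0)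
    (h : St (Sum.elim y x) l₀ F (Polynomial.aeval l₀ c + l₀ ^ m * GQ 0 b q l₀ x)) : Fi y F := by
  have h1 := h.change' (fun _ : Unit => GQ 0 b q l₀ x) (fun _ k => (b k).eval 0) (fun _ => 0)
    (fun _ => by rw [lin_GQ b q l₀ hl₀ x hx, zero_smul, add_zero]) (fun c' hc' => by
      have h2 := hc' j₀
      rw [Fintype.sum_unique] at h2
      funext u
      exact (mul_eq_zero.1 h2).resolve_right hj₀)
  refine St.tail y l₀ F c hc (St.groups y (fun _ : Unit => GQ 0 b q l₀ x) (fun _ => ?_) id
    Function.surjective_id (fun _ => 1) (fun _ => one_ne_zero) (fun _ => m) (fun _ => 1)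
    (fun _ => by rw [map_one]; exact one_ne_zero) l₀ F (Polynomial.aeval l₀ c) ?_)
  · rw [cc_GQ 0 b q l₀ hl₀ x hx, Polynomial.eval_zero]
  · convert h1 using 1
    simp
    ring

/-- the statement for a given number of coordinates -/
def QStm (σ K : Type) [Fintype σ] [Field K] (n : ℕ) : Prop :=
  ∀ (N : Type) (_ : Fintype N) (_ : DecidableEq N), Fintype.card N = n →
    ∀ (Y : Type) (_ : Fintype Y) (y : Y → MvPolynomial σ K) (l₀ F : MvPolynomial σ K),
    constantCoeff l₀ = 0 → ∀ (x : N → MvPolynomial σ K), (∀ j, constantCoeff (x j) = 0) →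
    ∀ (c : Polynomial K) (b : N → Polynomial K) (q : N → N → Polynomial K), c.eval 0 = 0 →
    (∀ j k, q j k = q k j) → St (Sum.elim y x) l₀ F (GQ c b q l₀ x) → Fi y F

theorem quad_square [CharZero K] (hl₀ : constantCoeff l₀ = 0) {N : Type} [Fintype N]
    [DecidableEq N] (n : ℕ) (hn : Fintype.card N = n + 1) (ih : QStm σ K n)
    (x : N → MvPolynomial σ K)
    (hx : ∀ j, constantCoeff (x j) = 0) (c : Polynomial K) (hc : c.eval 0 = 0)
    (b : N → Polynomial K) (q : N → N → Polynomial K) (hq : ∀ j k, q j k = q k j) (m : ℕ)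
    (hb : ∀ j, (b j).eval 0 = 0) (j₀ : N) (hj₀ : (q j₀ j₀).eval 0 ≠ 0)
    (h : St (Sum.elim y x) l₀ F (Polynomial.aeval l₀ c + l₀ ^ m * GQ 0 b q l₀ x)) : Fi y F := by
  have h4 : (4 : K) ≠ 0 := by exact_mod_cast (by norm_num : (4 : ℕ) ≠ 0)
  have h2 : (2 : K) ≠ 0 := two_ne_zero
  set u : Polynomial K := 4 * q j₀ j₀ with hu
  have hu0 : u.eval 0 ≠ 0 := by
    rw [hu, Polynomial.eval_mul, Polynomial.eval_ofNat]
    exact mul_ne_zero h4 hj₀
  set ξ : MvPolynomial σ K := Polynomial.aeval l₀ (2 * q j₀ j₀) * x j₀ +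
    (Polynomial.aeval l₀ (b j₀) +
      ∑ j : {j // j ≠ j₀}, Polynomial.aeval l₀ (2 * q j₀ j.1) * x j.1) with hξ
  have hξ0 : constantCoeff ξ = 0 := by
    rw [hξ, map_add, map_add, map_mul, hx, mul_zero, zero_add, cc_aev l₀ hl₀, hb, zero_add, map_sum]
    refine Finset.sum_eq_zero fun j _ => ?_
    rw [map_mul, hx, mul_zero]
  have hξl : lin ξ = (∑ k, (2 * q j₀ k).eval 0 • lin (x k)) + (b j₀).divX.eval 0 • lin l₀ := by
    rw [hξ, lin_add, lin_add, lin_sum, lin_mul0 l₀ hl₀ _ _ (hx _), cc_aev l₀ hl₀, lin_aev l₀ hl₀,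
      sum_ne _ j₀]
    have e1 : ∀ j : {j // j ≠ j₀}, lin (Polynomial.aeval l₀ (2 * q j₀ j.1) * x j.1) =
        (2 * q j₀ j.1).eval 0 • lin (x j.1) := fun j => by
      rw [lin_mul0 l₀ hl₀ _ _ (hx _), cc_aev l₀ hl₀]
    rw [Finset.sum_congr rfl fun j _ => e1 j]
    abel
  have hst := h.unit (Polynomial.aeval l₀ u) (by rw [cc_aev l₀ hl₀]; exact hu0)
  set c' : Polynomial K := u * c + Polynomial.X ^ m * (4 * q j₀ j₀ * 0 - b j₀ ^ 2) with hc'
  set b' : {j // j ≠ j₀} → Polynomial K := fun j =>
    4 * q j₀ j₀ * b j.1 - 4 * (b j₀ * q j₀ j.1) with hb'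
  set q' : {j // j ≠ j₀} → {j // j ≠ j₀} → Polynomial K := fun j k =>
    4 * q j₀ j₀ * q j.1 k.1 - 4 * (q j₀ j.1 * q j₀ k.1) with hq'
  have e2 : Polynomial.aeval l₀ u * (Polynomial.aeval l₀ c + l₀ ^ m * GQ 0 b q l₀ x) =
      l₀ ^ m * ξ ^ 2 + GQ c' (fun j => Polynomial.X ^ m * b' j)
        (fun j k => Polynomial.X ^ m * q' j k) l₀ (fun j : {j // j ≠ j₀} => x j.1) := by
    rw [eval_sum_pow, mul_add, mul_left_comm _ (l₀ ^ m), hu, GQ_square 0 b q hq l₀ x j₀, ← hξ]
    have e3 := GQ_c (4 * q j₀ j₀ * 0 - b j₀ ^ 2) 0 b' q' l₀ (fun j : {j // j ≠ j₀} => x j.1)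
    rw [add_zero] at e3
    rw [e3, hc', hu]
    simp only [map_add, map_mul, map_pow, map_sub, map_zero, Polynomial.aeval_X]
    ring
  rw [e2] at hst
  have h5 := hst.change' (Sum.elim (fun j : {j // j ≠ j₀} => x j.1) fun _ : Unit => ξ)
    (fun j k => Sum.elim (fun i => if k = i.1 then 1 else 0) (fun _ => (2 * q j₀ k).eval 0) j)
    (Sum.elim (fun _ => 0) fun _ => (b j₀).divX.eval 0) (by
      rintro (j | j)
      · simp
      · simp only [Sum.elim_inr]
        exact hξl) (by
      intro g hg
      have e3 : g (Sum.inr ()) = 0 := by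
        have e4 := hg j₀
        rw [Fintype.sum_sum_type, Finset.sum_eq_zero, zero_add, Fintype.sum_unique] at e4
        · refine (mul_eq_zero.1 e4).resolve_right ?_
          simp only [Sum.elim_inr]
          rw [Polynomial.eval_mul, Polynomial.eval_ofNat]
          exact mul_ne_zero h2 hj₀
        · intro j _
          simp only [Sum.elim_inl]
          rw [if_neg (Ne.symm j.2), mul_zero]
      funext j
      rcases j with j | j
      · have e4 := hg j.1
        have e5 : ∑ u : Unit, g (Sum.inr u) * (Sum.elim (fun i : {j // j ≠ j₀} =>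
            if j.1 = i.1 then (1 : K) else 0) (fun _ => (2 * q j₀ j.1).eval 0) (Sum.inr u)) = 0 := by
          rw [Fintype.sum_unique]
          change g (Sum.inr ()) * _ = 0
          rw [e3, zero_mul]
        rw [Fintype.sum_sum_type, e5, add_zero, Finset.sum_eq_single j] at e4
        · simpa using e4
        · intro j' _ hne
          simp only [Sum.elim_inl]
          rw [if_neg (fun h => hne (Subtype.ext h.symm)), mul_zero]
        · exact fun h => absurd (Finset.mem_univ _) h
      · exact e3)
  have h6 : St (Sum.elim (Sum.elim y fun j : {j // j ≠ j₀} => x j.1) fun _ : Unit => ξ) l₀ F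
      (l₀ ^ m * ξ ^ 2 + GQ c' (fun j => Polynomial.X ^ m * b' j)
        (fun j k => Polynomial.X ^ m * q' j k) l₀ (fun j : {j // j ≠ j₀} => x j.1)) := by
    have e3 := h5.comp (fun t : (Y ⊕ {j // j ≠ j₀}) ⊕ Unit => (Sum.elim (Sum.elim
      (fun y => Sum.inl y) (fun j => Sum.inr (Sum.inl j))) (fun u => Sum.inr (Sum.inr u)) t :
        Y ⊕ ({j // j ≠ j₀} ⊕ Unit))) (by
        rintro ((b | v) | y) ((b' | v') | y') h <;> simp at h <;> simp [h])
    convert e3 using 1
    funext t
    rcases t with (t | t) | t <;> rfl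
  refine ih {j // j ≠ j₀} inferInstance inferInstance ?_ Y inferInstance y l₀ F hl₀
    (fun j => x j.1) (fun j => hx _) c' (fun j => Polynomial.X ^ m * b' j)
    (fun j k => Polynomial.X ^ m * q' j k) ?_ ?_ (St.groups _ (fun _ : Unit => ξ) (fun _ => hξ0) id
      Function.surjective_id (fun _ => 2) (fun _ => two_ne_zero) (fun _ => m) (fun _ => 1)
      (fun _ => by rw [map_one]; exact one_ne_zero) l₀ F _ ?_)
  · have e3 := Fintype.card_subtype_compl (fun j => j = j₀)
    rw [Fintype.card_subtype_eq] at e3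
    rw [e3, hn]
    rfl
  · rw [hc', Polynomial.eval_add, Polynomial.eval_mul, hc, mul_zero, zero_add,
      Polynomial.eval_mul, Polynomial.eval_sub, mul_zero, Polynomial.eval_zero,
      Polynomial.eval_pow (p := b j₀), hb]
    simp
  · intro j k
    rw [hq']
    beta_reduce
    rw [hq j.1 k.1]
    ring
  · convert h6 using 1
    simp

/-- **Polynomials of degree two in all but one coordinate.** -/
theorem quad_main [CharZero K] (n : ℕ) : QStm σ K n := by
  induction n with
  | zero =>
    intro N _ _ hN Y _ y l₀ F hl₀ x hx c b q hc hq h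
    have : IsEmpty N := Fintype.card_eq_zero_iff.1 hN
    have h1 : GQ c b q l₀ x = Polynomial.aeval l₀ c := by
      unfold GQ
      simp
    rw [h1] at h
    exact (St.tail _ l₀ F c hc h).comp Sum.inl Sum.inl_injective
  | succ n ih =>
    intro N _ _ hN Y _ y l₀ F hl₀ x hx c b q hc hq h
    by_cases hz : ∃ i : N ⊕ (N × N), Sum.elim b (fun t => q t.1 t.2) i ≠ 0
    · obtain ⟨m, g, hg, i₀, hi₀⟩ := exists_min_pow _ hz
      have hb : ∀ j, b j = Polynomial.X ^ m * g (Sum.inl j) := fun j => hg (Sum.inl j)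
      have hqq : ∀ j k, q j k = Polynomial.X ^ m * g (Sum.inr (j, k)) := fun j k =>
        hg (Sum.inr (j, k))
      have hsym : ∀ j k, g (Sum.inr (j, k)) = g (Sum.inr (k, j)) := by
        intro j k
        have h1 := hq j k
        rw [hqq, hqq] at h1
        exact mul_left_cancel₀ (pow_ne_zero m Polynomial.X_ne_zero) h1
      have h1 : St (Sum.elim y x) l₀ F (Polynomial.aeval l₀ c + l₀ ^ m *
          GQ 0 (fun j => g (Sum.inl j)) (fun j k => g (Sum.inr (j, k))) l₀ x) := by
        rw [← eval_sum_pow]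
        convert h using 2
        · funext j
          exact (hb j).symm
        · funext j k
          exact (hqq j k).symm
      by_cases hlin : ∃ j, (g (Sum.inl j)).eval 0 ≠ 0
      · obtain ⟨j₀, hj₀⟩ := hlin
        exact quad_lin hl₀ x hx c hc _ _ m j₀ hj₀ h1
      push Not at hlin
      by_cases hdiag : ∃ j, (g (Sum.inr (j, j))).eval 0 ≠ 0
      · obtain ⟨j₀, hj₀⟩ := hdiag
        exact quad_square hl₀ n hN ih x hx c hc _ _ (fun j k => hsym j k) m hlin j₀ hj₀ h1
      push Not at hdiag
      rcases i₀ with j | ⟨j, k⟩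
      · exact absurd (hlin j) hi₀
      have hjk : j ≠ k := by
        rintro rfl
        exact hi₀ (hdiag j)
      have h2 : (2 : K) ≠ 0 := two_ne_zero
      set x' : N → MvPolynomial σ K := fun i => x i - if i = k then x j else 0 with hx'
      have hxx : x = fun i => x' i + if i = k then x' j else 0 := by
        funext i
        rw [hx']
        beta_reduce
        rw [if_neg hjk, sub_zero, sub_add_cancel]
      have hx'0 : ∀ i, constantCoeff (x' i) = 0 := by
        intro i
        rw [hx']
        beta_reduce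
        rw [map_sub, hx]
        split_ifs
        · rw [hx, sub_zero]
        · rw [map_zero, sub_zero]
      have h3 : St (Sum.elim y x') l₀ F (Polynomial.aeval l₀ c + l₀ ^ m *
          GQ 0 (fun j => g (Sum.inl j)) (fun j k => g (Sum.inr (j, k))) l₀ x) := by
        refine h1.change' x' (fun i i' => (if i' = i then 1 else 0) -
          (if i = k then (if i' = j then 1 else 0) else 0)) (fun _ => 0) (fun i => ?_)
          (fun g' hg' => ?_)
        · rw [hx']
          beta_reduce
          simp only [sub_smul, ite_smul, one_smul, zero_smul, Finset.sum_sub_distrib,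
            Finset.sum_ite_eq', Finset.mem_univ, if_true, add_zero,
            Finset.sum_ite_irrel, Finset.sum_const_zero]
          have e1 : ∀ a b : MvPolynomial σ K, lin (a - b) = lin a - lin b := by
            intro a b
            funext i
            exact coeff_sub _ _ _ _
          rw [e1]
          congr 1
          split_ifs
          · rfl
          · rw [← C_0, lin_C]
        · have e1 : ∀ i', g' i' - (if i' = j then g' k else 0) = 0 := by
            intro i'
            have e2 := hg' i'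
            simp only [mul_sub, mul_ite, mul_one, mul_zero, Finset.sum_sub_distrib,
              Finset.sum_ite_eq, Finset.sum_ite_eq', Finset.mem_univ, if_true] at e2
            exact e2
          have e2 : g' k = 0 := by
            have e3 := e1 k
            rwa [if_neg (Ne.symm hjk), sub_zero] at e3
          funext i'
          have e3 := e1 i'
          rw [e2, ite_self, sub_zero] at e3
          exact e3
      have e0 : GQ 0 (fun j => g (Sum.inl j)) (fun j k => g (Sum.inr (j, k))) l₀ x =
          GQ 0 (fun i => g (Sum.inl i) + if i = j then g (Sum.inl k) else 0)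
            (fun i i' => g (Sum.inr (i, i')) + (if i = j then g (Sum.inr (k, i')) else 0) +
              (if i' = j then g (Sum.inr (i, k)) else 0) +
              (if i = j then (if i' = j then g (Sum.inr (k, k)) else 0) else 0)) l₀ x' := by
        rw [← GQ_change 0 (fun j => g (Sum.inl j)) (fun j k => g (Sum.inr (j, k))) l₀ x' j k,
          ← hxx]
      rw [e0] at h3
      refine quad_square hl₀ n hN ih x' hx'0 c hc _ _ (fun i i' => ?_) m (fun i => ?_) j ?_ h3
      · rw [hsym i i', hsym k i', hsym i k]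
        split_ifs <;> ring
      · rw [Polynomial.eval_add, hlin]
        split_ifs
        · rw [hlin, add_zero]
        · rw [Polynomial.eval_zero, add_zero]
      · simp only [if_true, Polynomial.eval_add]
        rw [hdiag, hdiag, hsym k j, zero_add, add_zero, ← two_mul]
        exact mul_ne_zero h2 hi₀
    · push Not at hz
      have hb : ∀ j, b j = 0 := fun j => hz (Sum.inl j)
      have hqq : ∀ j k, q j k = 0 := fun j k => hz (Sum.inr (j, k))
      have h1 : GQ c b q l₀ x = Polynomial.aeval l₀ c := by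
        unfold GQ
        simp [hb, hqq]
      rw [h1] at h
      exact (St.tail _ l₀ F c hc h).comp Sum.inl Sum.inl_injective

end steps

end Pool.Agent.H1.QB
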