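import Pool.Graph.R_pool_sql_team_seeded_3997aac3.Q57.QP.All

set_option autoImplicit false
set_option linter.unusedSectionVars false
set_option linter.unusedVariables false

/-! # Roots of units, formal and `p`-adic -/

namespace Pool.Agent.H1.QB

open Topology

/-- roots of formal power series -/
theorem root_series {σ : Type} (u : MvPowerSeries σ ℂ) (hu : MvPowerSeries.constantCoeff u = 1)
    (a : ℕ) (ha : a ≠ 0) : ∃ v : MvPowerSeries σ ℂ, v ^ a = u ∧
      MvPowerSeries.constantCoeff v = 1 := by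
  have h0 : MvPowerSeries.constantCoeff (u - 1) = 0 := by
    rw [map_sub, hu, map_one, sub_self]
  have hs : PowerSeries.HasSubst (u - 1) := PowerSeries.HasSubst.of_constantCoeff_zero h0
  have hB : ∀ k : ℕ, (PowerSeries.binomialSeries ℂ ((a : ℂ)⁻¹)) ^ k
      = PowerSeries.binomialSeries ℂ (k * (a : ℂ)⁻¹) := by
    intro k
    induction k with
    | zero => rw [pow_zero, Nat.cast_zero, zero_mul, PowerSeries.binomialSeries_zero]
    | succ k ih =>
      rw [pow_succ, ih, ← PowerSeries.binomialSeries_add]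
      congr 1
      push_cast
      ring
  have hB1 : (PowerSeries.binomialSeries ℂ ((a : ℂ)⁻¹)) ^ a = 1 + PowerSeries.X := by
    rw [hB, mul_inv_cancel₀ (Nat.cast_ne_zero.2 ha)]
    have := PowerSeries.binomialSeries_nat (R := ℂ) (A := ℂ) 1
    simpa using this
  refine ⟨PowerSeries.subst (u - 1) (PowerSeries.binomialSeries ℂ ((a : ℂ)⁻¹)), ?_, ?_⟩
  · rw [← PowerSeries.subst_pow hs, hB1, PowerSeries.subst_add hs, PowerSeries.subst_X hs]
    have : PowerSeries.subst (u - 1) (1 : PowerSeries ℂ) = (1 : MvPowerSeries σ ℂ) := by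
      rw [← PowerSeries.coe_substAlgHom hs, map_one]
    rw [this]
    ring
  · have h1 : MvPowerSeries.constantCoeff (PowerSeries.subst (u - 1)
        (PowerSeries.binomialSeries ℂ ((a : ℂ)⁻¹) - 1)) = 0 :=
      PowerSeries.constantCoeff_subst_eq_zero h0 _ (by
        rw [map_sub, PowerSeries.binomialSeries_constantCoeff, map_one, sub_self])
    rw [PowerSeries.subst_sub hs] at h1
    have : PowerSeries.subst (u - 1) (1 : PowerSeries ℂ) = (1 : MvPowerSeries σ ℂ) := by
      rw [← PowerSeries.coe_substAlgHom hs, map_one]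
    rw [this, map_sub, map_one, sub_eq_zero] at h1
    exact h1

/-- roots of `p`-adic numbers near `1` -/
theorem root_padic (p : ℕ) [Fact p.Prime] (a : ℕ) (ha : a ≠ 0) : ∃ ρ : ℚ_[p] → ℚ_[p],
    HasStrictDerivAt ρ ((a : ℚ_[p])⁻¹) 1 ∧ ρ 1 = 1 ∧ ∀ᶠ y in 𝓝 (1 : ℚ_[p]), ρ y ^ a = y := by
  have ha' : (a : ℚ_[p]) ≠ 0 := Nat.cast_ne_zero.2 ha
  have h1 : HasStrictDerivAt (fun x : ℚ_[p] => x ^ a) (a : ℚ_[p]) 1 := by
    have := hasStrictDerivAt_pow a (1 : ℚ_[p])
    rwa [one_pow, mul_one] at this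
  have h2 := h1.to_localInverse ha'
  have h3 := (h1.hasStrictFDerivAt_equiv ha').eventually_right_inverse
  have h4 := (h1.hasStrictFDerivAt_equiv ha').localInverse_apply_image
  rw [one_pow] at h2 h3 h4
  exact ⟨_, h2, h4, h3⟩

end Pool.Agent.H1.QB
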