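import Pool.Agent.H1.QB.State

set_option autoImplicit false
set_option linter.unusedSectionVars false
set_option linter.unusedVariables false

/-! # Rules for partial block forms -/

namespace Pool.Agent.H1.QB

open MvPolynomial

variable {σ K : Type} [Fintype σ] [Field K]

open Classical in
/-- New groups: their variables are taken from the spectators. -/
theorem St.groups {Y V₁ I₁ : Type} [Fintype Y] [Fintype V₁] [Fintype I₁]
    (y : Y → MvPolynomial σ K) (η : V₁ → MvPolynomial σ K) (hη : ∀ v, constantCoeff (η v) = 0)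
    (π₁ : V₁ → I₁) (hπ : Function.Surjective π₁) (a₁ : V₁ → ℕ) (ha₁ : ∀ v, a₁ v ≠ 0)
    (m : I₁ → ℕ) (u : I₁ → MvPolynomial σ K) (hu : ∀ i, constantCoeff (u i) ≠ 0)
    (l₀ F R : MvPolynomial σ K)
    (h : St (Sum.elim y η) l₀ F ((∑ i, u i * (l₀ ^ m i *
      ∏ v, η v ^ (if π₁ v = i then a₁ v else 0))) + R)) : St y l₀ F R := by
  obtain ⟨B, V, I, _, _, _, d, l, ξ, U, W, D, D', k₀, hS, hli, hk, hl, hD', heq⟩ := h
  set d' : BD B (V ⊕ V₁) (I ⊕ I₁) :=
    { M := fun i k => Sum.elim (fun i => d.M i k) (fun i => if k = k₀ then m i else 0) i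
      sg := by
        rintro (i | i) k k' h h'
        · exact d.sg i k k' h h'
        · simp only [Sum.elim_inr] at h h'
          have h3 : k = k₀ := by
            by_contra h4
            rw [if_neg h4] at h
            exact h rfl
          have h5 : k' = k₀ := by
            by_contra h4
            rw [if_neg h4] at h'
            exact h' rfl
          rw [h3, h5]
      π := Sum.map d.π π₁
      sj := Sum.map_surjective.2 ⟨d.sj, hπ⟩
      a := Sum.elim d.a a₁
      a0 := by
        rintro (v | v)
        · exact d.a0 v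
        · exact ha₁ v
      A := d.A
      n := d.n
      n0 := d.n0 } with hd'
  refine ⟨B, V ⊕ V₁, I ⊕ I₁, inferInstance, inferInstance, inferInstance, d', l, Sum.elim ξ η,
    Sum.elim U (fun i => D' * u i), W, D, D', k₀, ⟨hS.hl, ?_, ?_, hS.hW, hS.hD⟩, ?_, hk, hl, hD',
    ?_⟩
  · rintro (v | v)
    · exact hS.hξ v
    · exact hη v
  · rintro (i | i)
    · exact hS.hU i
    · simp only [Sum.elim_inr]
      rw [map_mul]
      exact mul_ne_zero hD' (hu i)
  · have h1 := hli.comp (fun t : (B ⊕ (V ⊕ V₁)) ⊕ Y => (Sum.elim (Sum.elim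
      (fun b => Sum.inl (Sum.inl b)) (Sum.elim (fun v => Sum.inl (Sum.inr v))
        (fun v => Sum.inr (Sum.inr v)))) (fun y => Sum.inr (Sum.inl y)) t :
          (B ⊕ V) ⊕ (Y ⊕ V₁))) (by
      rintro ((b | v | v) | y) ((b' | v' | v') | y') h <;> simp at h <;> simp [h])
    convert h1 using 1
    funext t
    rcases t with (b | v | v) | y <;> rfl
  · rw [heq, mul_add, ← add_assoc]
    congr 1
    unfold BFs
    rw [Fintype.sum_sum_type]
    have h1 : ∀ i, (Sum.elim U (fun i => D' * u i) (Sum.inl i) : MvPolynomial σ K) *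
        ((∏ k, l k ^ d'.M (Sum.inl i) k) * ∏ v : V ⊕ V₁, (Sum.elim ξ η v) ^ d'.ex (Sum.inl i) v) =
        U i * ((∏ k, l k ^ d.M i k) * ∏ v, ξ v ^ d.ex i v) := by
      intro i
      rw [Fintype.prod_sum_type]
      simp only [Sum.elim_inl, Sum.elim_inr]
      rw [Finset.prod_eq_one (s := Finset.univ) (f := fun v : V₁ =>
          η v ^ d'.ex (Sum.inl i) (Sum.inr v)), mul_one]
      · congr 2
        refine Finset.prod_congr rfl fun v _ => ?_
        congr 1
        unfold BD.ex
        rw [hd']
        simp only [Sum.map_inl, Sum.inl.injEq, Sum.elim_inl]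
      · intro e _
        unfold BD.ex
        rw [hd']
        simp
    have h2 : ∀ i, (Sum.elim U (fun i => D' * u i) (Sum.inr i) : MvPolynomial σ K) *
        ((∏ k, l k ^ d'.M (Sum.inr i) k) * ∏ v : V ⊕ V₁, (Sum.elim ξ η v) ^ d'.ex (Sum.inr i) v) =
        D' * (u i * (l₀ ^ m i * ∏ v, η v ^ (if π₁ v = i then a₁ v else 0))) := by
      intro i
      rw [Fintype.prod_sum_type]
      simp only [Sum.elim_inl, Sum.elim_inr]
      rw [Finset.prod_eq_one (s := Finset.univ) (f := fun v : V =>
          ξ v ^ d'.ex (Sum.inr i) (Sum.inl v)), one_mul, Finset.prod_eq_single k₀]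
      · have h3 : d'.M (Sum.inr i) k₀ = m i := by
          rw [hd']
          simp only [Sum.elim_inr, if_true]
        rw [h3, hl]
        have h4 : ∏ v, η v ^ d'.ex (Sum.inr i) (Sum.inr v) =
            ∏ v, η v ^ (if π₁ v = i then a₁ v else 0) := by
          refine Finset.prod_congr rfl fun v _ => ?_
          congr 1
          unfold BD.ex
          rw [hd']
          simp only [Sum.map_inr, Sum.inr.injEq, Sum.elim_inr]
        rw [h4]
        ring
      · intro k _ hne
        rw [hd']
        simp [hne]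
      · exact fun h => absurd (Finset.mem_univ _) h
      · intro v _
        unfold BD.ex
        rw [hd']
        simp
    rw [Finset.sum_congr rfl fun i _ => h1 i, Finset.sum_congr rfl fun i _ => h2 i,
      Finset.mul_sum]
    change _ = (_ + _) + ∑ k : {k // d.A k}, W k.1 * l k.1 ^ d.n k.1
    ring

theorem sum_if {ι R : Type} [Fintype ι] [AddCommMonoid R] (p : ι → Prop) [DecidablePred p]
    [Fintype {i // p i}] (f : ι → R) : ∑ i : {i // p i}, f i.1 = ∑ i, if p i then f i else 0 := by
  rw [← Finset.sum_filter, Finset.sum_subtype (Finset.univ.filter p) (p := p) (by simp)]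

/-- End of a block. -/
theorem St.tail {Y : Type} [Fintype Y] (y : Y → MvPolynomial σ K) (l₀ F : MvPolynomial σ K)
    (c : Polynomial K) (hc : c.eval 0 = 0) (h : St y l₀ F (Polynomial.aeval l₀ c)) : Fi y F := by
  classical
  obtain ⟨B, V, I, _, _, _, d, l, ξ, U, W, D, D', k₀, hS, hli, hk, hl, hD', heq⟩ := h
  have hl0 : constantCoeff l₀ = 0 := by rw [← hl]; exact hS.hl k₀
  by_cases hc0 : c = 0
  · refine ⟨B, V, I, inferInstance, inferInstance, inferInstance, d, l, ξ, U, W, D, hS, hli, ?_⟩
    rw [heq, hc0, map_zero, mul_zero, add_zero]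
  obtain ⟨c', hcc, hnd⟩ := Polynomial.exists_eq_pow_rootMultiplicity_mul_and_not_dvd c hc0 0
  set n := c.rootMultiplicity 0 with hn
  have hn0 : n ≠ 0 := by
    rw [hn, Ne, Polynomial.rootMultiplicity_eq_zero_iff]
    intro h
    exact hc0 (h hc)
  have hc' : c'.eval 0 ≠ 0 := fun h => hnd (Polynomial.dvd_iff_isRoot.2 h)
  have hcl : Polynomial.aeval l₀ c = l₀ ^ n * Polynomial.aeval l₀ c' := by
    conv_lhs => rw [hcc]
    simp
  set d' : BD B V I :=
    { M := d.M
      sg := d.sg
      π := d.π
      sj := d.sj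
      a := d.a
      a0 := d.a0
      A := fun k => d.A k ∨ k = k₀
      n := fun k => if k = k₀ then n else d.n k
      n0 := by
        intro k hk
        beta_reduce
        split_ifs with h
        · exact hn0
        · exact d.n0 k (hk.resolve_right h) } with hd'
  set W' : B → MvPolynomial σ K := fun k =>
    if k = k₀ then D' * Polynomial.aeval l₀ c' else W k with hW'
  refine ⟨B, V, I, inferInstance, inferInstance, inferInstance, d', l, ξ, U, W', D,
    ⟨hS.hl, hS.hξ, hS.hU, ?_, hS.hD⟩, hli, ?_⟩
  · intro k hk'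
    rw [hW']
    change constantCoeff (if k = k₀ then D' * Polynomial.aeval l₀ c' else W k) ≠ 0
    split_ifs with h
    · rw [map_mul]
      refine mul_ne_zero hD' ?_
      have h1 : constantCoeff (Polynomial.aeval l₀ c') = c'.eval 0 := by
        have h2 : constantCoeff (Polynomial.aeval l₀ c') =
            Polynomial.aeval (constantCoeff l₀) c' := by
          rw [Polynomial.aeval_def, Polynomial.aeval_def, Polynomial.hom_eval₂]
          congr 1
          ext a
          simp
        rw [h2, hl0]
        rfl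
      rw [h1]
      exact hc'
    · exact hS.hW k (hk'.resolve_right h)
  · rw [heq]
    unfold BFs
    rw [add_assoc]
    congr 1
    have h30 : ∀ (dd : BD B V I) (w : B → MvPolynomial σ K),
        ∑ k : {k // dd.A k}, w k.1 * l k.1 ^ dd.n k.1 =
          (if dd.A k₀ then w k₀ * l k₀ ^ dd.n k₀ else 0) +
            ∑ k ∈ Finset.univ.erase k₀, if dd.A k then w k * l k ^ dd.n k else 0 := by
      intro dd w
      rw [sum_if (fun k => dd.A k) (fun k => w k * l k ^ dd.n k),
        ← Finset.add_sum_erase _ _ (Finset.mem_univ k₀)]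
    rw [h30 d W, h30 d' W']
    rw [if_neg hk, zero_add]
    have h1 : d'.A k₀ := Or.inr rfl
    have h2 : d'.n k₀ = n := by
      rw [hd']
      simp
    have h20 : W' k₀ = D' * Polynomial.aeval l₀ c' := by
      rw [hW']
      simp
    rw [if_pos h1, h20, h2, hl, hcl]
    have h3 : ∑ k ∈ Finset.univ.erase k₀, (haveI := Classical.propDecidable (d'.A k)
        if d'.A k then W' k * l k ^ d'.n k else 0) =
        ∑ k ∈ Finset.univ.erase k₀, if d.A k then W k * l k ^ d.n k else 0 := by
      refine Finset.sum_congr rfl fun k hk' => ?_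
      have h4 : k ≠ k₀ := (Finset.mem_erase.1 hk').1
      have h5 : d'.n k = d.n k := by
        rw [hd']
        simp [h4]
      have h21 : W' k = W k := by
        rw [hW']
        simp [h4]
      rw [h21, h5]
      by_cases h6 : d.A k
      · rw [if_pos h6, if_pos (Or.inl h6)]
      · rw [if_neg h6, if_neg]
        rintro (h7 | h7)
        · exact h6 h7
        · exact h4 h7
    rw [h3]
    ring

/-- A new block: its variable is taken from the spectators. -/
theorem Fi.block {Y : Type} [Fintype Y] (y : Y → MvPolynomial σ K) (l₀ F G : MvPolynomial σ K)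
    (hl₀ : constantCoeff l₀ = 0) (h : Fi (Sum.elim y fun _ : Unit => l₀) F) :
    St y l₀ (F + G) G := by
  classical
  obtain ⟨B, V, I, _, _, _, d, l, ξ, U, W, D, hS, hli, heq⟩ := h
  set d' : BD (B ⊕ Unit) V I :=
    { M := fun i => Sum.elim (d.M i) fun _ => 0
      sg := by
        rintro i (k | k) (k' | k') h h'
        · rw [d.sg i k k' h h']
        · exact absurd rfl h'
        · exact absurd rfl h
        · rfl
      π := d.π
      sj := d.sj
      a := d.a
      a0 := d.a0
      A := Sum.elim d.A fun _ => False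
      n := Sum.elim d.n fun _ => 0
      n0 := by
        rintro (k | k) h
        · exact d.n0 k h
        · exact h.elim } with hd'
  refine ⟨B ⊕ Unit, V, I, inferInstance, inferInstance, inferInstance, d',
    Sum.elim l fun _ => l₀, ξ, U, Sum.elim W fun _ => 0, D, D, Sum.inr (),
    ⟨?_, hS.hξ, hS.hU, ?_, hS.hD⟩, ?_, fun h => h, rfl, hS.hD, ?_⟩
  · rintro (k | k)
    · exact hS.hl k
    · exact hl₀
  · rintro (k | k) h
    · exact hS.hW k h
    · exact h.elim
  · have h1 := hli.comp (fun t : ((B ⊕ Unit) ⊕ V) ⊕ Y => (Sum.elim (Sum.elim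
      (Sum.elim (fun b => Sum.inl (Sum.inl b)) (fun u => Sum.inr (Sum.inr u)))
        (fun v => Sum.inl (Sum.inr v))) (fun y => Sum.inr (Sum.inl y)) t :
          (B ⊕ V) ⊕ (Y ⊕ Unit))) (by
      rintro (((b | v) | v) | y) (((b' | v') | v') | y') h <;> simp at h <;> simp [h])
    convert h1 using 1
    funext t
    rcases t with ((b | v) | v) | y <;> rfl
  · rw [mul_add, heq]
    congr 1
    unfold BFs
    congr 1
    · refine Finset.sum_congr rfl fun i _ => ?_
      congr 2
      rw [Fintype.prod_sum_type]
      simp [hd']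
    · rw [sum_if (fun k => d.A k) (fun k => W k * l k ^ d.n k),
        sum_if (fun k => d'.A k) (fun k => (Sum.elim W (fun _ => 0) k : MvPolynomial σ K) *
          (Sum.elim l (fun _ => l₀) k) ^ d'.n k), Fintype.sum_sum_type]
      simp [hd']

end Pool.Agent.H1.QB
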