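import Pool.Graph.R_pool_sql_team_seeded_3997aac3.Q57.QP.All
import Pool.Graph.R_seed8.TH216.EP.Fin

set_option autoImplicit false
set_option linter.unusedSectionVars false
set_option linter.unusedVariables false

/-! # Integrals of sparse polynomials with `p`-adic coefficients, with orders -/

namespace Pool.Agent.H1.QB

open MeasureTheory Polynomial Pool.Agent.W427.SMC Pool.Agent.Y230.PT Pool.Agent.Y230.PS
open scoped ENNReal

attribute [local instance] msZ bsZ

variable {p : ℕ} [Fact p.Prime]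

section ser

variable {Ω : Type} [MeasurableSpace Ω] (μ : Measure Ω) [IsProbabilityMeasure μ] (ρ : Ω → ℝ)

/-- from a relation of the power series of the volumes to the integral -/
theorem reg_of_ser (hm : Measurable ρ) (hv : ∀ x, Val p (ρ x)) (D A : ℂ[X]) (hD : D ≠ 0)
    (h1 : ((D : ℂ[X]) : PowerSeries ℂ) * ser (Vc μ ρ p) = (A : PowerSeries ℂ))
    (T0 : ℂ) (hT : T0 ≠ 0) : Reg p T0 (D.rootMultiplicity T0) (FZ μ ρ) := by
  have h2 : ∀ s : ℝ, 0 ≤ s → (X * D).eval ((tr' p s : ℝ) : ℂ) * FZ μ ρ s =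
      (D - (1 - X) * A).eval ((tr' p s : ℝ) : ℂ) := by
    intro s hs
    rcases hs.eq_or_lt with rfl | hs
    · have h3 : tr' p 0 = 1 := by simp [tr']
      rw [h3, FZ_zero]
      simp
    · have h3 := (Vc_conv (p := p) μ ρ).poly_mul D
      rw [h1] at h3
      have h4 := Conv.poly A
      have h5 := (h3 _ (tr'_pos p s) (tr'_lt p s hs)).2.unique
        (h4 _ (tr'_pos p s) (tr'_lt p s hs)).2
      have h8 := Vo_valC μ ρ hm hv s hs
      simp only [eval_sub, eval_mul, eval_X, eval_one]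
      simp only at h5
      linear_combination (D.eval (tr' p s : ℂ)) * h8 - (1 - (tr' p s : ℂ)) * h5
  have hXD : (X * D : ℂ[X]) ≠ 0 := mul_ne_zero X_ne_zero hD
  have h3 : (X * D : ℂ[X]).rootMultiplicity T0 = D.rootMultiplicity T0 := by
    rw [rootMultiplicity_mul hXD]
    have : (X : ℂ[X]).rootMultiplicity T0 = 0 := by
      apply rootMultiplicity_eq_zero
      rw [IsRoot, eval_X]
      exact hT
    rw [this, zero_add]
  obtain ⟨Q, hQ, hnd⟩ := exists_eq_pow_rootMultiplicity_mul_and_not_dvd (X * D) hXD T0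
  rw [h3] at hQ
  refine ⟨Q, D - (1 - X) * A, fun h0 => hnd (dvd_iff_isRoot.2 h0), fun s hs => ?_⟩
  rw [← hQ]
  exact h2 s hs

end ser

section sparse

open Pool.Agent.TH216.EP Pool.Agent.TH216.MF
open Pool.Agent.W424.SM.ZMU (GG XX)
open Pool.Agent.W422.SM (dl cu cu_norm)
open Pool.Agent.H628R4.TP (IsBFunction)
open Pool.Agent.W425.SM (Ind sparse)

variable {n k : ℕ}

theorem haar_pi (S : Set (Fin n → ℤ_[p])) :
    ((Measure.addHaar : Measure (Fin n → ℤ_[p])) S).toReal =
      ((Measure.addHaar : Measure (Fin n → ℤ_[p])) Set.univ).toReal *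
        ((Measure.pi fun _ : Fin n => mu p) S).toReal := by
  have h1 : (Measure.addHaar : Measure (Fin n → ℤ_[p])) =
      (Measure.addHaar : Measure (Fin n → ℤ_[p])).addHaarScalarFactor
        (Measure.pi fun _ : Fin n => mu p) • (Measure.pi fun _ : Fin n => mu p) :=
    Measure.isAddLeftInvariant_eq_smul _ _
  set c := (Measure.addHaar : Measure (Fin n → ℤ_[p])).addHaarScalarFactor
        (Measure.pi fun _ : Fin n => mu p) with hc
  have h2 : (Measure.addHaar : Measure (Fin n → ℤ_[p])) Set.univ = c := by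
    rw [h1, Measure.smul_apply, measure_univ, ENNReal.smul_def, smul_eq_mul, mul_one]
  rw [h2, h1, Measure.smul_apply, ENNReal.smul_def, smul_eq_mul, ENNReal.toReal_mul]

theorem continuous_GG (m : Fin k → Fin n → ℕ) (c : Fin k → ℤ_[p]) :
    Continuous (fun x : Fin n → ℤ_[p] => GG m c x) := by
  unfold GG XX
  fun_prop

theorem val_norm (z : ℤ_[p]) : Val p ‖z‖ := by
  rcases eq_or_ne z 0 with rfl | hz
  · left; exact norm_zero
  · right
    refine ⟨z.valuation, ?_⟩
    rw [PadicInt.norm_eq_zpow_neg_valuation hz, zpow_neg, zpow_natCast, inv_pow]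

/-- **The power series of the volumes of a sparse polynomial.** -/
theorem ser_mul (m : Fin k → Fin n → ℕ) (hm : Ind m) (c : Fin k → ℤ_[p])
    (hc'0 : ∀ j, c j ≠ 0) :
    ∃ κ : MvPolynomial (Fin k) ℂ, Kern p m κ ∧ ∀ Q : Polynomial ℂ,
      Z p m (Polynomial.aeval (tau k) Q * κ) → ∃ R : Polynomial ℂ,
        ((Q * (1 - Polynomial.C ((p : ℂ)⁻¹) * Polynomial.X) : Polynomial ℂ) : PowerSeries ℂ) *
          ser (Vc (Measure.pi fun _ : Fin n => mu p) (fun x => ‖GG m c x‖) p) =
            (R : PowerSeries ℂ) := by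
  classical
  have hp : p.Prime := Fact.out
  set w : Fin k → ℤ_[p] := cu c hc'0 with hw
  have hwn : ∀ j, ‖w j‖ = 1 := cu_norm c hc'0
  obtain ⟨L, hL1, hL⟩ := Gm_shrink (p := p) m hm
  set γ : Fin k → ℕ := fun j => (c j).valuation with hγ
  set F0 : Fn k := fun y => ((Gm m w (fun j => y j + (γ j : ℤ)) : ℝ) : ℂ) with hF0
  set F : Fn k := fun y => Phi m w (fun j => y j + (γ j : ℤ)) with hF
  have hFF0 : F = fun y => F0 y - (p : ℂ)⁻¹ * F0 (fun j => y j + 1) := by
    funext y
    simp only [hF, hF0]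
    unfold Phi
    have h1 : (fun j => y j + (γ j : ℤ) + 1) = fun j => y j + 1 + (γ j : ℤ) := by
      funext j
      ring
    rw [h1]
  set mon : MvPolynomial (Fin k) ℂ :=
    MvPolynomial.monomial (Finsupp.equivFunOnFinite.symm γ) 1 with hmon
  have hkF : act k (kF L (Phi m w)) (FG fun _ => 1) = Phi m w := by
    refine act_kF L (Phi m w) (Phi_min m w) fun y hy => ?_
    unfold Phi
    rw [hL w hwn y hy]
    push_cast
    rw [← mul_assoc, inv_mul_cancel₀ pC_ne, one_mul, sub_self]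
  have hact : act k (mon * kF L (Phi m w)) (FG fun _ => 1) = F := by
    rw [act_mul, hkF]
    funext y
    rw [hmon, act_monomial, one_mul]
    rfl
  refine ⟨mon * kF L (Phi m w), fun i j0 h => Ideal.mul_mem_left _ _
    (kern_Phi m w hwn L hL1 i j0 h), fun Q hZ => ?_⟩
  obtain ⟨A, hA⟩ := poly_aK p hp.two_le m _ F hact 2 (fun y => norm_Phi m w _) Q hZ
  -- the coefficients of the power series
  have hcoef : ∀ t : ℕ, PowerSeries.coeff t
      (ser (Vc (Measure.pi fun _ : Fin n => mu p) (fun x => ‖GG m c x‖) p)) = aK p m F0 t := by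
    intro t
    have h1 := W_eq (p := p) m c hc'0 t
    rw [haar_pi] at h1
    have h5 := mul_left_cancel₀ (V_pos (n := n) (p := p)).ne' h1
    have h6 : aK p m F0 t = (((∑' u : Fin n → ℕ, ((p : ℝ)⁻¹) ^ (∑ i, u i) *
        Gm m (cu c hc'0) (fun j => (dl m c u j : ℤ) - t) : ℝ)) : ℂ) := by
      unfold aK
      rw [Complex.ofReal_tsum]
      refine tsum_congr fun u => ?_
      rw [dl_cast]
      simp only [hF0, hγ, hw]
      push_cast
      rfl
    rw [h6, ← h5, coeff_ser]
    unfold Vc Vo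
    congr 3
    ext x
    rw [Set.mem_ofPred_eq, Set.mem_ofPred_eq, dvd_iff_norm, norm_pow, PadicInt.norm_p]
  have hP : ((1 - Polynomial.C ((p : ℂ)⁻¹) * Polynomial.X : Polynomial ℂ) : PowerSeries ℂ) *
      ser (Vc (Measure.pi fun _ : Fin n => mu p) (fun x => ‖GG m c x‖) p) =
        PowerSeries.C (aK p m F0 (0 : ℕ) - aK p m F (0 : ℕ)) +
        PowerSeries.mk (fun t : ℕ => aK p m F t) := by
    have e0 : ((1 - Polynomial.C ((p : ℂ)⁻¹) * Polynomial.X : Polynomial ℂ) : PowerSeries ℂ) =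
        1 - PowerSeries.C ((p : ℂ)⁻¹) * PowerSeries.X := by
      rw [Polynomial.coe_sub, Polynomial.coe_mul, Polynomial.coe_one, Polynomial.coe_C,
        Polynomial.coe_X]
    rw [e0]
    ext t
    rw [sub_mul, one_mul, map_sub, mul_assoc, PowerSeries.coeff_C_mul, map_add,
      PowerSeries.coeff_mk, PowerSeries.coeff_C]
    rcases t with _ | t
    · rw [PowerSeries.coeff_zero_X_mul, mul_zero, sub_zero, if_pos rfl, hcoef]
      ring
    · rw [PowerSeries.coeff_succ_X_mul, if_neg (Nat.succ_ne_zero t), zero_add, hcoef, hcoef,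
        hFF0, aK_sub m F0 1 (fun y => norm_Gm m w _)]
      have h7 : ((t + 1 : ℕ) : ℤ) - 1 = (t : ℤ) := by
        push_cast
        ring
      rw [h7]
  refine ⟨Q * Polynomial.C (aK p m F0 (0 : ℕ) - aK p m F (0 : ℕ)) + A, ?_⟩
  rw [Polynomial.coe_mul, mul_assoc, hP, mul_add, hA, Polynomial.coe_add, Polynomial.coe_mul,
    Polynomial.coe_C]

/-- **The integral of a sparse polynomial with affinely independent exponents.** -/
theorem sparse_reg (hk : 2 ≤ k) (m : Fin k → Fin n → ℕ) (hm : Ind m) (c : Fin k → ℤ_[p])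
    (hc : ∀ j, c j ≠ 0) (cC : Fin k → ℂ) (hcC : ∀ j, cC j ≠ 0) (b : Polynomial ℂ)
    (hb0 : b ≠ 0) (hb : IsBFunction (sparse m cC) b) (T₀ : ℂ) (hT0 : T₀ ≠ 0) :
    Reg p T₀ (b.rootMultiplicity ((rr p T₀ : ℝ) : ℂ))
      (FZ (Measure.pi fun _ : Fin n => mu p) (fun x => ‖GG m c x‖)) := by
  classical
  have hpp : p.Prime := Fact.out
  obtain ⟨P, hbP, hrel⟩ := Pool.Agent.W525.SM.taskA m _ b hk hm hcC hb
  have hP0 : P ≠ 0 := by
    rintro rfl
    apply hb0
    rw [hbP, mul_zero]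
  obtain ⟨κ, hκ, hκR⟩ := ser_mul (p := p) m hm c hc
  obtain ⟨Q1, hQ1, hZ⟩ := crMu p hpp.two_le m P (relG_of_relM m P hrel) κ hκ T₀ hT0 hP0
  obtain ⟨R, hR⟩ := hκR _ hZ
  set t0 : ℂ := ((-Real.log ‖T₀‖ / Real.log p : ℝ) : ℂ) with ht0
  set ν : ℕ := P.rootMultiplicity t0 with hν
  have hp0 : (p : ℂ) ≠ 0 := by exact_mod_cast hpp.ne_zero
  have hlin : (1 - Polynomial.C ((p : ℂ)⁻¹) * Polynomial.X : Polynomial ℂ) =
      Polynomial.C (-(p : ℂ)⁻¹) * (Polynomial.X - Polynomial.C (p : ℂ)) := by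
    rw [mul_sub, ← Polynomial.C_mul, neg_mul, inv_mul_cancel₀ hp0]
    simp only [map_neg, map_one]
    ring
  have hlin0 : (1 - Polynomial.C ((p : ℂ)⁻¹) * Polynomial.X : Polynomial ℂ) ≠ 0 := by
    rw [hlin]
    exact mul_ne_zero (Polynomial.C_ne_zero.2 (neg_ne_zero.2 (inv_ne_zero hp0)))
      (Polynomial.X_sub_C_ne_zero _)
  have hQ10 : Q1 ≠ 0 := by
    rintro rfl
    simp at hQ1
  have hpow0 : (Polynomial.X - Polynomial.C T₀ : Polynomial ℂ) ^ ν ≠ 0 :=
    pow_ne_zero _ (Polynomial.X_sub_C_ne_zero _)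
  have hD0 : Q1 * (Polynomial.X - Polynomial.C T₀) ^ ν *
      (1 - Polynomial.C ((p : ℂ)⁻¹) * Polynomial.X) ≠ 0 :=
    mul_ne_zero (mul_ne_zero hQ10 hpow0) hlin0
  have h1 := reg_of_ser (Measure.pi fun _ : Fin n => mu p) (fun x => ‖GG m c x‖)
    (continuous_GG m c).norm.measurable (fun x => val_norm _) _ R hD0 hR T₀ hT0
  refine h1.mono ?_
  have h2 : (Q1 * (Polynomial.X - Polynomial.C T₀) ^ ν *
      (1 - Polynomial.C ((p : ℂ)⁻¹) * Polynomial.X)).rootMultiplicity T₀ =
      ν + (1 - Polynomial.C ((p : ℂ)⁻¹) * Polynomial.X : Polynomial ℂ).rootMultiplicity T₀ := by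
    rw [Polynomial.rootMultiplicity_mul hD0,
      Polynomial.rootMultiplicity_mul (mul_ne_zero hQ10 hpow0),
      Polynomial.rootMultiplicity_eq_zero hQ1, Polynomial.rootMultiplicity_X_sub_C_pow, zero_add]
  rw [h2]
  have hX1 : (Polynomial.X + 1 : Polynomial ℂ) = Polynomial.X - Polynomial.C (-1) := by
    simp
  have hX10 : (Polynomial.X + 1 : Polynomial ℂ) ≠ 0 := by
    rw [hX1]
    exact Polynomial.X_sub_C_ne_zero _
  have h3 : b.rootMultiplicity t0 = (Polynomial.X + 1 : Polynomial ℂ).rootMultiplicity t0 + ν := by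
    rw [hbP, Polynomial.rootMultiplicity_mul (mul_ne_zero hX10 hP0)]
  have h4 : (1 - Polynomial.C ((p : ℂ)⁻¹) * Polynomial.X : Polynomial ℂ).rootMultiplicity T₀ ≤
      (Polynomial.X + 1 : Polynomial ℂ).rootMultiplicity t0 := by
    by_cases hTp : T₀ = p
    · have hlp : Real.log p ≠ 0 :=
        (Real.log_pos (by exact_mod_cast hpp.one_lt)).ne'
      have h5 : t0 = -1 := by
        rw [ht0, hTp, Complex.norm_natCast, neg_div, div_self hlp]
        push_cast
        rfl
      rw [h5, hX1, Polynomial.rootMultiplicity_X_sub_C_self, hlin, hTp,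
        Polynomial.rootMultiplicity_mul (by rw [← hlin]; exact hlin0),
        Polynomial.rootMultiplicity_C, Polynomial.rootMultiplicity_X_sub_C_self]
    · have h5 : (1 - Polynomial.C ((p : ℂ)⁻¹) * Polynomial.X : Polynomial ℂ).rootMultiplicity T₀
          = 0 := by
        apply Polynomial.rootMultiplicity_eq_zero
        rw [hlin]
        intro h
        rw [Polynomial.IsRoot, Polynomial.eval_mul, Polynomial.eval_C, Polynomial.eval_sub,
          Polynomial.eval_X, Polynomial.eval_C] at h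
        rcases mul_eq_zero.1 h with h | h
        · exact neg_ne_zero.2 (inv_ne_zero hp0) h
        · exact hTp (sub_eq_zero.1 h)
      rw [h5]
      exact Nat.zero_le _
  have h6 : b.rootMultiplicity ((rr p T₀ : ℝ) : ℂ) = b.rootMultiplicity t0 := by
    rw [ht0, rr]
  rw [h6, h3]
  omega

end sparse

end Pool.Agent.H1.QB
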