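import Pool.Agent.H1.QB.Sp

set_option autoImplicit false
set_option linter.unusedSectionVars false
set_option linter.unusedVariables false

/-! # Integrals of monomials, with orders -/

namespace Pool.Agent.H1.QB

open MeasureTheory Polynomial Pool.Agent.W427.SMC Pool.Agent.Y230.PT Pool.Agent.Y230.PS
open Pool.Agent.W424.SM.ZMU (GG XX)
open Pool.Agent.H628R4.TP (IsBFunction weylS)
open Pool.Agent.W425.SM (Ind sparse)
open scoped ENNReal

attribute [local instance] msZ bsZ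

variable {p : ℕ} [Fact p.Prime]

theorem FZ_equiv {V W : Type} [Fintype V] [Fintype W] (e : V ≃ W) (ρ : (V → ℤ_[p]) → ℝ) (s : ℝ) :
    FZ (Measure.pi fun _ : V => mu p) ρ s =
      FZ (Measure.pi fun _ : W => mu p) (fun x => ρ (fun v => x (e v))) s := by
  unfold FZ
  rw [(measurePreserving_piCongrLeft (fun _ : V => mu p) e.symm).lintegral_map_equiv
    (fun x => ENNReal.ofReal (ρ x ^ s))]
  congr 2
  refine lintegral_congr fun x => ?_
  congr 3
  funext v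
  have h := MeasurableEquiv.piCongrLeft_apply_apply (β := fun _ : V => ℤ_[p]) e.symm x (e v)
  rw [Equiv.symm_apply_apply] at h
  exact h

/-- multiplication of the polynomial by a constant -/
theorem bfun_smul {σ : Type} (f : MvPolynomial σ ℂ) (b : ℂ[X]) (a : ℂ) (ha : a ≠ 0)
    (h : IsBFunction (MvPolynomial.C a * f) b) : IsBFunction f b := by
  classical
  obtain ⟨P, hP⟩ := h
  refine ⟨P.mapRange (fun Q => a • Q) (smul_zero a), fun s => ?_⟩
  have h1 := hP s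
  rw [Finsupp.sum_mapRange_index (fun m => by simp)]
  rw [mul_pow, mul_pow, ← map_pow, ← map_pow] at h1
  have h2 : ∀ (m : ℕ) (Q : weylS σ), ((s : ℂ) ^ m) • (Q : Module.End ℂ (MvPolynomial σ ℂ))
      (MvPolynomial.C (a ^ (s + 1)) * f ^ (s + 1)) = a ^ s • (((s : ℂ) ^ m) •
        ((a • Q : weylS σ) : Module.End ℂ (MvPolynomial σ ℂ)) (f ^ (s + 1))) := by
    intro m Q
    rw [MvPolynomial.C_mul', map_smul]
    change _ = a ^ s • (((s : ℂ) ^ m) • (a • (Q : Module.End ℂ (MvPolynomial σ ℂ)) (f ^ (s + 1))))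
    rw [smul_comm, pow_succ, mul_smul, smul_comm ((s : ℂ) ^ m) a]
  rw [Finsupp.sum, Finset.sum_congr rfl (fun m _ => h2 m (P m)), ← Finset.smul_sum] at h1
  have ha' : a ^ s ≠ 0 := pow_ne_zero _ ha
  have h3 : MvPolynomial.C (b.eval (s : ℂ)) * (MvPolynomial.C (a ^ s) * f ^ s) =
      a ^ s • (MvPolynomial.C (b.eval (s : ℂ)) * f ^ s) := by
    rw [MvPolynomial.C_mul' (a := a ^ s), mul_smul_comm]
  rw [h3] at h1
  exact smul_right_injective _ ha' h1

/-- **The integral of a monomial.** -/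
theorem mono_reg {n : ℕ} (m : Fin 1 → Fin n → ℕ) (c : Fin 1 → ℤ_[p])
    (hc : ∀ j, c j ≠ 0) (cC : Fin 1 → ℂ) (hcC : ∀ j, cC j ≠ 0) (b : Polynomial ℂ)
    (hb0 : b ≠ 0) (hb : IsBFunction (sparse m cC) b) (T₀ : ℂ) (hT0 : T₀ ≠ 0) :
    Reg p T₀ (b.rootMultiplicity ((rr p T₀ : ℝ) : ℂ))
      (FZ (Measure.pi fun _ : Fin n => mu p) (fun x => ‖GG m c x‖)) := by
  classical
  set Nk : Fin 0 → ℕ := fun _ => 1
  set Jk : Fin 0 → Type := fun _ => Fin 0
  have i1 : ∀ k, Fintype (Jk k) := fun k => Fin.elim0 k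
  have i2 : ∀ k, DecidableEq (Jk k) := fun k => Fin.elim0 k
  set c0 : (k : Fin 0) → Jk k → ℤ := fun k _ => Fin.elim0 k
  set m0 : (k : Fin 0) → Jk k → ℕ := fun k _ => Fin.elim0 k
  set v0 : (k : Fin 0) → Jk k → Fin n → ℕ := fun k _ _ => Fin.elim0 k
  set e : Fin n ⊕ (Σ k : Fin 0, Jk k) ≃ Fin n := Equiv.sumEmpty _ _ with he
  have hb1 : IsBFunction (∏ i, MvPolynomial.X i ^ m 0 i : MvPolynomial (Fin n) ℂ) b := by
    refine bfun_smul _ b (cC 0) (hcC 0) ?_
    rw [sparse, Fin.sum_univ_one] at hb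
    exact hb
  have hb2 : IsBFunction (pol (m 0) Nk (fun k j => ((c0 k j : ℤ) : ℂ)) m0 v0) b := by
    refine Pool.Agent.Y229.bfunction_equiv e _ b ?_
    have : MvPolynomial.rename e (pol (m 0) Nk (fun k j => ((c0 k j : ℤ) : ℂ)) m0 v0) =
        ∏ i, MvPolynomial.X i ^ m 0 i := by
      rw [pol, map_mul, map_prod, Finset.univ_eq_empty (α := Fin 0), Finset.prod_empty, map_one,
        mul_one]
      refine Finset.prod_congr rfl fun i _ => ?_
      rw [map_pow, MvPolynomial.rename_X]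
      rfl
    rw [this]
    exact hb1
  obtain ⟨D, P, hD, hD1, hDP⟩ := core (m 0) Nk c0 m0 v0 p (fun k => Fin.elim0 k)
    (fun k => Fin.elim0 k) (fun k => Fin.elim0 k) (fun k => Fin.elim0 k) b hb0 hb2
  set ρ : (Fin n → ℤ_[p]) → ℝ := fun x => ‖∏ i, x i ^ m 0 i‖ with hρ
  have hZ : ∀ s : ℝ, FZ (Measure.pi fun _ : Fin n => mu p) ρ s =
      ((Zi (m 0) Nk c0 m0 v0 p s).toReal : ℂ) := by
    intro s
    have h1 : ((Zi (m 0) Nk c0 m0 v0 p s).toReal : ℂ) =
        FZ (Measure.pi fun _ : Fin n ⊕ (Σ k : Fin 0, Jk k) => mu p)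
          (fun z => ‖fval (m 0) Nk c0 m0 v0 p z‖) s := rfl
    rw [h1, FZ_equiv e]
    congr 1
    funext x
    rw [hρ]
    beta_reduce
    congr 1
    rw [fval, Finset.univ_eq_empty (α := Fin 0), Finset.prod_empty, mul_one]
    rfl
  have hR : Reg p T₀ (b.rootMultiplicity ((rr p T₀ : ℝ) : ℂ))
      (FZ (Measure.pi fun _ : Fin n => mu p) ρ) := by
    obtain ⟨Q, hQ, hnd⟩ := exists_eq_pow_rootMultiplicity_mul_and_not_dvd D hD T₀
    have h2 : Reg p T₀ (D.rootMultiplicity T₀) (FZ (Measure.pi fun _ : Fin n => mu p) ρ) := by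
      refine ⟨Q, P, fun h0 => hnd (dvd_iff_isRoot.2 h0), fun s hs => ?_⟩
      rw [← hQ, hZ]
      exact hDP s hs
    exact h2.mono (hD1 T₀ hT0)
  have h3 : (fun x : Fin n → ℤ_[p] => ‖GG m c x‖) =
      fun x => ((p : ℝ)⁻¹) ^ (c 0).valuation * ρ x := by
    funext x
    rw [hρ]
    beta_reduce
    rw [GG, Fin.sum_univ_one, XX, norm_mul, PadicInt.norm_eq_zpow_neg_valuation (hc 0), zpow_neg,
      zpow_natCast, inv_pow]
  rw [h3]
  refine ((Reg.t (p := p) (T0 := T₀) (M := 0)).pow (c 0).valuation |>.mul0 hR).congr fun s hs => ?_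
  rw [FZ_scale _ _ (fun x => norm_nonneg _)]

/-- **The integral of a sparse polynomial with affinely independent exponents.** -/
theorem sp_reg {n k : ℕ} (hk : 1 ≤ k) (m : Fin k → Fin n → ℕ) (hm : Ind m) (c : Fin k → ℤ_[p])
    (hc : ∀ j, c j ≠ 0) (cC : Fin k → ℂ) (hcC : ∀ j, cC j ≠ 0) (b : Polynomial ℂ)
    (hb0 : b ≠ 0) (hb : IsBFunction (sparse m cC) b) (T₀ : ℂ) (hT0 : T₀ ≠ 0) :
    Reg p T₀ (b.rootMultiplicity ((rr p T₀ : ℝ) : ℂ))
      (FZ (Measure.pi fun _ : Fin n => mu p) (fun x => ‖GG m c x‖)) := by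
  rcases hk.eq_or_lt with rfl | hk
  · exact mono_reg m c hc cC hcC b hb0 hb T₀ hT0
  · exact sparse_reg hk m hm c hc cC hcC b hb0 hb T₀ hT0

end Pool.Agent.H1.QB
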