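import Pool.Agent.H1.QB.Fin

set_option autoImplicit false
set_option linter.unusedSectionVars false
set_option linter.unusedVariables false

/-! # Partial block forms -/

namespace Pool.Agent.H1.QB

open MvPolynomial

section

variable {σ K : Type} [Fintype σ] [Field K]

/-- the linear part -/
noncomputable def lin (f : MvPolynomial σ K) (i : σ) : K := coeff (Finsupp.single i 1) f

theorem lin_add (f g : MvPolynomial σ K) : lin (f + g) = lin f + lin g := by
  funext i
  exact coeff_add _ _ _

theorem lin_mul (f g : MvPolynomial σ K) :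
    lin (f * g) = constantCoeff g • lin f + constantCoeff f • lin g := by
  funext i
  unfold lin
  rw [c1_mul, Pi.add_apply, Pi.smul_apply, Pi.smul_apply, smul_eq_mul, smul_eq_mul]
  ring

theorem lin_C (a : K) : lin (C a : MvPolynomial σ K) = 0 := by
  funext i
  exact C_Zt i a

theorem lin_sum {ι : Type} (s : Finset ι) (f : ι → MvPolynomial σ K) :
    lin (∑ i ∈ s, f i) = ∑ i ∈ s, lin (f i) := by
  funext i
  unfold lin
  rw [coeff_sum, Finset.sum_apply]

variable {B V I : Type} [Fintype B] [Fintype V] [Fintype I]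

open Classical in
/-- the sum of a block form -/
noncomputable def BFs (d : BD B V I) (l : B → MvPolynomial σ K) (ξ : V → MvPolynomial σ K)
    (U : I → MvPolynomial σ K) (W : B → MvPolynomial σ K) : MvPolynomial σ K :=
  (∑ i, U i * ((∏ k, l k ^ d.M i k) * ∏ v, ξ v ^ d.ex i v)) +
      ∑ k : {k // d.A k}, W k.1 * l k.1 ^ d.n k.1

/-- the side conditions of a block form -/
structure Side (d : BD B V I) (l : B → MvPolynomial σ K) (ξ : V → MvPolynomial σ K)
    (U : I → MvPolynomial σ K) (W : B → MvPolynomial σ K) (D : MvPolynomial σ K) : Prop where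
  hl : ∀ k, constantCoeff (l k) = 0
  hξ : ∀ v, constantCoeff (ξ v) = 0
  hU : ∀ i, constantCoeff (U i) ≠ 0
  hW : ∀ k, d.A k → constantCoeff (W k) ≠ 0
  hD : constantCoeff D ≠ 0

theorem BFs_smul (d : BD B V I) (l : B → MvPolynomial σ K) (ξ : V → MvPolynomial σ K)
    (U : I → MvPolynomial σ K) (W : B → MvPolynomial σ K) (u : MvPolynomial σ K) :
    u * BFs d l ξ U W = BFs d l ξ (fun i => u * U i) (fun k => u * W k) := by
  unfold BFs
  rw [mul_add, Finset.mul_sum, Finset.mul_sum]
  simp only [mul_assoc]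

theorem Side.smul {d : BD B V I} {l : B → MvPolynomial σ K} {ξ : V → MvPolynomial σ K}
    {U : I → MvPolynomial σ K} {W : B → MvPolynomial σ K} {D : MvPolynomial σ K}
    (h : Side d l ξ U W D) (u : MvPolynomial σ K) (hu : constantCoeff u ≠ 0) :
    Side d l ξ (fun i => u * U i) (fun k => u * W k) (u * D) :=
  ⟨h.hl, h.hξ, fun i => by rw [map_mul]; exact mul_ne_zero hu (h.hU i),
    fun k hk => by rw [map_mul]; exact mul_ne_zero hu (h.hW k hk),
    by rw [map_mul]; exact mul_ne_zero hu h.hD⟩

end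

section state

variable {σ K : Type} [Fintype σ] [Field K]

/-- finished block forms with spectators -/
def Fi {Y : Type} [Fintype Y] (y : Y → MvPolynomial σ K) (F : MvPolynomial σ K) : Prop :=
  ∃ (B V I : Type) (_ : Fintype B) (_ : Fintype V) (_ : Fintype I) (d : BD B V I)
    (l : B → MvPolynomial σ K) (ξ : V → MvPolynomial σ K) (U : I → MvPolynomial σ K)
    (W : B → MvPolynomial σ K) (D : MvPolynomial σ K), Side d l ξ U W D ∧
    (LinearIndependent K fun t : (B ⊕ V) ⊕ Y => lin (Sum.elim (Sum.elim l ξ) y t)) ∧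
    D * F = BFs d l ξ U W

/-- unfinished block forms with spectators: `D * F` is a block form plus a unit times `R` -/
def St {Y : Type} [Fintype Y] (y : Y → MvPolynomial σ K) (l₀ F R : MvPolynomial σ K) : Prop :=
  ∃ (B V I : Type) (_ : Fintype B) (_ : Fintype V) (_ : Fintype I) (d : BD B V I)
    (l : B → MvPolynomial σ K) (ξ : V → MvPolynomial σ K) (U : I → MvPolynomial σ K)
    (W : B → MvPolynomial σ K) (D D' : MvPolynomial σ K) (k₀ : B), Side d l ξ U W D ∧
    (LinearIndependent K fun t : (B ⊕ V) ⊕ Y => lin (Sum.elim (Sum.elim l ξ) y t)) ∧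
    ¬ d.A k₀ ∧ l k₀ = l₀ ∧ constantCoeff D' ≠ 0 ∧
    D * F = BFs d l ξ U W + D' * R

theorem Fi.isBF {Y : Type} [Fintype Y] {y : Y → MvPolynomial σ K} {F : MvPolynomial σ K}
    (h : Fi y F) : ∃ (B V I : Type) (_ : Fintype B) (_ : Fintype V) (_ : Fintype I)
      (d : BD B V I), IsBF F d := by
  obtain ⟨B, V, I, _, _, _, d, l, ξ, U, W, D, hS, hli, heq⟩ := h
  refine ⟨B, V, I, inferInstance, inferInstance, inferInstance, d, l, ξ, U, W, D, hS.hl, hS.hξ,
    hS.hU, hS.hW, hS.hD, ?_, heq⟩
  have h1 := hli.comp (Sum.inl : B ⊕ V → (B ⊕ V) ⊕ Y) Sum.inl_injective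
  exact h1

/-- multiplication of the rest with a unit -/
theorem St.unit {Y : Type} [Fintype Y] {y : Y → MvPolynomial σ K} {l₀ F R : MvPolynomial σ K}
    (h : St y l₀ F R) (u : MvPolynomial σ K) (hu : constantCoeff u ≠ 0) : St y l₀ F (u * R) := by
  obtain ⟨B, V, I, _, _, _, d, l, ξ, U, W, D, D', k₀, hS, hli, hk, hl, hD', heq⟩ := h
  refine ⟨B, V, I, inferInstance, inferInstance, inferInstance, d, l, ξ, fun i => u * U i,
    fun k => u * W k, u * D, D', k₀, hS.smul u hu, hli, hk, hl, hD', ?_⟩
  rw [mul_assoc, heq, mul_add, BFs_smul]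
  ring

/-- change of the spectators -/
theorem li_change {T Y Y' : Type} [Fintype T] [Fintype Y] [Fintype Y'] (u : T → σ → K) (k₀ : T)
    (y : Y → σ → K) (y' : Y' → σ → K) (hli : LinearIndependent K (Sum.elim u y))
    (A : Y' → Y → K) (e : Y' → K) (hy : ∀ j, y' j = (∑ k, A j k • y k) + e j • u k₀)
    (hA : ∀ c : Y' → K, (∀ k, ∑ j, c j * A j k = 0) → c = 0) :
    LinearIndependent K (Sum.elim u y') := by
  classical
  rw [Fintype.linearIndependent_iff] at hli ⊢
  intro g hg
  have h1 := hli (Sum.elim (fun t => g (Sum.inl t) + if t = k₀ then ∑ j, g (Sum.inr j) * e j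
    else 0) (fun k => ∑ j, g (Sum.inr j) * A j k)) (by
      rw [← hg, Fintype.sum_sum_type, Fintype.sum_sum_type]
      simp only [Sum.elim_inl, Sum.elim_inr, hy, smul_add, add_smul, Finset.sum_add_distrib,
        Finset.smul_sum]
      have h2 : ∑ t, (if t = k₀ then ∑ j, g (Sum.inr j) * e j else 0) • u t =
          ∑ j, g (Sum.inr j) • e j • u k₀ := by
        rw [Finset.sum_eq_single k₀]
        · rw [if_pos rfl, Finset.sum_smul]
          refine Finset.sum_congr rfl fun j _ => ?_
          rw [mul_smul]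
        · intro t _ ht
          rw [if_neg ht, zero_smul]
        · exact fun h => absurd (Finset.mem_univ _) h
      have h3 : ∑ k, (∑ j, g (Sum.inr j) * A j k) • y k =
          ∑ j, ∑ k, g (Sum.inr j) • A j k • y k := by
        rw [Finset.sum_comm]
        refine Finset.sum_congr rfl fun k _ => ?_
        rw [Finset.sum_smul]
        refine Finset.sum_congr rfl fun j _ => ?_
        rw [mul_smul]
      rw [h2, h3]
      abel)
  have h2 : (fun j => g (Sum.inr j)) = 0 := hA _ fun k => h1 (Sum.inr k)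
  have h3 : ∀ j, g (Sum.inr j) = 0 := fun j => congrFun h2 j
  rintro (t | j)
  · have h4 := h1 (Sum.inl t)
    simp only [Sum.elim_inl] at h4
    simp only [h3, zero_mul, Finset.sum_const_zero, ite_self, add_zero] at h4
    exact h4
  · exact h3 j

theorem elim_lin {T Y : Type} (u : T → MvPolynomial σ K) (y : Y → MvPolynomial σ K) :
    (fun t => lin (Sum.elim u y t)) = Sum.elim (fun t => lin (u t)) fun j => lin (y j) := by
  funext t
  rcases t with t | t <;> rfl

theorem St.change {Y Y' : Type} [Fintype Y] [Fintype Y'] {y : Y → MvPolynomial σ K}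
    {l₀ F R : MvPolynomial σ K} (h : St y l₀ F R) (y' : Y' → MvPolynomial σ K)
    (A : Y' → Y → K) (e : Y' → K) (hy : ∀ j, lin (y' j) = (∑ k, A j k • lin (y k)) + e j • lin l₀)
    (hA : ∀ c : Y' → K, (∀ k, ∑ j, c j * A j k = 0) → c = 0) : St y' l₀ F R := by
  obtain ⟨B, V, I, _, _, _, d, l, ξ, U, W, D, D', k₀, hS, hli, hk, hl, hD', heq⟩ := h
  refine ⟨B, V, I, inferInstance, inferInstance, inferInstance, d, l, ξ, U, W, D, D', k₀, hS,
    ?_, hk, hl, hD', heq⟩
  rw [elim_lin] at hli ⊢
  refine li_change _ (Sum.inl k₀) _ _ hli A e (fun j => ?_) hA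
  rw [hy j]
  simp only [Sum.elim_inl, hl]

/-- spectators may be dropped or indexed differently -/
theorem Fi.comp {Y Y' : Type} [Fintype Y] [Fintype Y'] {y : Y → MvPolynomial σ K}
    {F : MvPolynomial σ K} (h : Fi y F) (s : Y' → Y) (hs : Function.Injective s) :
    Fi (fun j => y (s j)) F := by
  obtain ⟨B, V, I, _, _, _, d, l, ξ, U, W, D, hS, hli, heq⟩ := h
  refine ⟨B, V, I, inferInstance, inferInstance, inferInstance, d, l, ξ, U, W, D, hS, ?_, heq⟩
  have h1 := hli.comp (Sum.map id s : (B ⊕ V) ⊕ Y' → (B ⊕ V) ⊕ Y)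
    (Sum.map_injective.2 ⟨Function.injective_id, hs⟩)
  convert h1 using 1
  funext t
  rcases t with t | t <;> rfl

/-- the empty block form -/
theorem Fi.init {Y : Type} [Fintype Y] (y : Y → MvPolynomial σ K)
    (hli : LinearIndependent K fun j => lin (y j)) : Fi y 0 := by
  classical
  refine ⟨Empty, Empty, Empty, inferInstance, inferInstance, inferInstance,
    ⟨fun i => i.elim, fun i => i.elim, id, Function.surjective_id, fun i => i.elim,
      fun i => i.elim, fun i => i.elim, fun i => i.elim, fun i => i.elim⟩, fun i => i.elim,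
      fun i => i.elim, fun i => i.elim, fun i => i.elim, 1, ⟨fun i => i.elim, fun i => i.elim,
      fun i => i.elim, fun i => i.elim, by rw [map_one]; exact one_ne_zero⟩, ?_, ?_⟩
  · rw [Fintype.linearIndependent_iff] at hli ⊢
    intro g hg
    have h1 := hli (fun j => g (Sum.inr j)) (by
      rw [← hg, Fintype.sum_sum_type]
      simp)
    rintro ((i | i) | j)
    · exact i.elim
    · exact i.elim
    · exact h1 j
  · unfold BFs
    rw [Finset.sum_of_isEmpty, zero_add, mul_zero]
    exact (Finset.sum_of_isEmpty _).symm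

end state

end Pool.Agent.H1.QB
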