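import Pool.Agent.H1.QB.Wt

set_option autoImplicit false
set_option linter.unusedSectionVars false
set_option linter.unusedVariables false

/-! # Formal changes of coordinates and functional equations -/

namespace Pool.Agent.H1.QB

open MvPolynomial Pool.Agent.Y229 Pool.Agent.Q57.MC Pool.Agent.Q57.MD
open Pool.Agent.W574.LM (IsLocEq)
open Pool.Agent.W574.HS (univ)
open Pool.Agent.H628R4.TP (IsBFunction weylS)

variable {σ J : Type} [Fintype σ] [Fintype J] {c r : ℕ}

/-- a transfer sends local functional equations to local functional equations -/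
theorem localBI_of_transf (f : J → MvPolynomial σ ℂ) (h : Fin r → MvPolynomial (Fin c) ℂ)
    (p : σ → ℂ) (hT : Transf f h p) (hne : ∃ k, h k ≠ 0) (H : MvPolynomial σ ℂ) (b : Polynomial ℂ)
    (hb : IsLocEq H f b) (hH : eval p H ≠ 0) : IsLocalBI h b := by
  classical
  obtain ⟨Ξ, hΞ, hl, hr, hQ⟩ := hT
  obtain ⟨Q, mQ, hQ'⟩ := univ_of_locEq H f b hb
  obtain ⟨K, iK, a, D, hD⟩ := hQ Q mQ
  have hcc : ∀ P : MvPolynomial (J ⊕ σ) ℂ, MvPowerSeries.constantCoeff (Ξ P) =
      eval (Sum.elim 0 p) P := by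
    intro P
    have h1 : (MvPowerSeries.constantCoeff (σ := Fin r ⊕ Fin c) (R := ℂ)).comp
        (Ξ : MvPolynomial (J ⊕ σ) ℂ →+* MvPowerSeries (Fin r ⊕ Fin c) ℂ) =
        eval (Sum.elim 0 p) := by
      apply MvPolynomial.ringHom_ext
      · intro a
        rw [RingHom.comp_apply, eval_C]
        have h2 : (Ξ : MvPolynomial (J ⊕ σ) ℂ →+* MvPowerSeries (Fin r ⊕ Fin c) ℂ) (C a) =
            MvPowerSeries.C a := Ξ.commutes a
        rw [h2, MvPowerSeries.constantCoeff_C]
      · intro x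
        rw [RingHom.comp_apply, eval_X]
        rcases x with j | i
        · exact hl j
        · exact hr i
    exact congrArg (fun φ : MvPolynomial (J ⊕ σ) ℂ →+* ℂ => φ P) h1
  obtain ⟨u, hu⟩ : IsUnit (Ξ (rename Sum.inr H)) := by
    rw [MvPowerSeries.isUnit_iff_constantCoeff]
    refine isUnit_iff_ne_zero.2 ?_
    rw [hcc, eval_rename]
    exact hH
  refine localBI_of_univ h hne b ?_
  set e := Fintype.equivFin K with he
  refine ⟨Fintype.card K, fun _ => 0, fun l => ((u⁻¹ : (MvPowerSeries (Fin r ⊕ Fin c) ℂ)ˣ) :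
    MvPowerSeries (Fin r ⊕ Fin c) ℂ) * a (e.symm l), fun l => D (e.symm l), fun n => ?_⟩
  have k1 := congrArg Ξ (hQ' n)
  rw [map_mul, ← hu, C_mul', map_smul, map_pow, hΞ, hD] at k1
  have k2 := congrArg (fun x => ((u⁻¹ : (MvPowerSeries (Fin r ⊕ Fin c) ℂ)ˣ) :
    MvPowerSeries (Fin r ⊕ Fin c) ℂ) * x) k1
  beta_reduce at k2
  rw [Units.inv_mul_cancel_left, Finset.mul_sum] at k2
  rw [MvPolynomial.coe_pow, ← MvPowerSeries.smul_eq_C_mul, k2, ← e.symm.sum_comp]
  refine Finset.sum_congr rfl fun l _ => ?_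
  rw [pow_zero, map_one, one_mul, mul_assoc]

/-- **Formal changes of coordinates and weighted homogeneous polynomials.** -/
theorem bfun_formal (F : MvPolynomial σ ℂ) (h : MvPolynomial (Fin c) ℂ) (hh : h ≠ 0)
    (g : Fin c → MvPowerSeries σ ℂ) (s : Fin c → σ)
    (hg : ∀ t, MvPowerSeries.constantCoeff (g t) = 0)
    (hdet : (Matrix.of fun u t => MvPowerSeries.coeff (Finsupp.single (s u) 1) (g t)).det ≠ 0)
    (u : (MvPowerSeries σ ℂ)ˣ) (hu : (F : MvPowerSeries σ ℂ) = u * aeval g h)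
    (w : Fin c → ℕ) (hw : ∀ i, 0 < w i) (D : ℕ) (hD : h.IsWeightedHomogeneous w D)
    (b : Polynomial ℂ) (hb : IsBFunction F b) : IsBFunction h b := by
  classical
  have hT : Transf (fun _ : Fin 1 => F) (fun _ : Fin 1 => h) 0 := by
    refine transfer_formal (fun _ : Fin 1 => F) (fun _ : Fin 1 => h) g s hg hdet ?_
    have e1 : (Set.range fun _ : Fin 1 => (F : MvPowerSeries σ ℂ)) = {(F : MvPowerSeries σ ℂ)} :=
      Set.range_const
    have e2 : (Set.range fun _ : Fin 1 => aeval g h) = {aeval g h} := Set.range_const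
    rw [e1, e2, hu]
    exact Ideal.span_singleton_mul_left_unit u.isUnit _
  have h1 : IsLocEq 1 (fun _ : Fin 1 => F) b :=
    (Pool.Agent.W574.MO.locEq_one _ b) (locEq1_of_eq F b hb)
  have h2 := localBI_of_transf _ _ 0 hT ⟨0, hh⟩ 1 b h1 (by simp)
  obtain ⟨H, hH, h3⟩ := locEq_of_local _ b h2
  obtain ⟨P, hP⟩ := eq_of_locEq1 H h b h3
  exact global_of_algw w hw h D hD b H hH P hP

end Pool.Agent.H1.QB
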