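import Pool.Agent.H1.QB.Base
import Pool.Agent.H1.QB.Root

set_option autoImplicit false
set_option linter.unusedSectionVars false
set_option linter.unusedVariables false

/-! # Removal of units -/

namespace Pool.Agent.H1.QB

open MeasureTheory Topology MvPolynomial
open Pool.Agent.Y230.PT Pool.Agent.Y230.PS Pool.Agent.Q57.QP
open Pool.Agent.H628R4.TP (IsBFunction weylS)

/-- Every monomial `j` has a distinguished variable `cl j`, which occurs in no other monomial, or is
the only variable of the monomial (`pu j`). -/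
structure Dist {J T : Type} (cl : J → T) (pu : J → Prop) (m : J → T → ℕ) : Prop where
  inj : Function.Injective cl
  ne : ∀ j, m j (cl j) ≠ 0
  priv : ∀ j, ¬ pu j → ∀ j', j' ≠ j → m j' (cl j) = 0
  pure : ∀ j, pu j → ∀ t, t ≠ cl j → m j t = 0

section alg

variable {R T J : Type} [CommRing R] [Fintype T] [DecidableEq T] [Fintype J] [DecidableEq J]

/-- the new coordinates -/
noncomputable def newG (cl : J → T) (g : T → R) (r : J → R) (t : T) : R :=
  g t * ∏ j ∈ Finset.univ.filter (fun j => cl j = t), r j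

theorem newG_prod (cl : J → T) (m : J → T → ℕ) (g : T → R) (r : J → R)
    (j : J) : ∏ t, newG cl g r t ^ m j t =
      (∏ t, g t ^ m j t) * ∏ j', r j' ^ m j (cl j') := by
  rw [← Finset.prod_fiberwise (s := Finset.univ) (g := cl) (f := fun j' => r j' ^ m j (cl j')),
    ← Finset.prod_mul_distrib]
  refine Finset.prod_congr rfl fun t _ => ?_
  unfold newG
  rw [mul_pow, ← Finset.prod_pow]
  congr 1
  refine Finset.prod_congr rfl fun j' hj' => ?_
  rw [(Finset.mem_filter.1 hj').2]

open Classical in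
theorem newG_prod' (cl : J → T) (pu : J → Prop) (m : J → T → ℕ) (hD : Dist cl pu m) (g : T → R)
    (r r' u : J → R) (hr' : ∀ j, pu j → r j * r' j = 1)
    (h1 : ∀ j, pu j → r j ^ m j (cl j) = u j)
    (h2 : ∀ j, ¬ pu j → r j ^ m j (cl j) =
      u j * ∏ j' ∈ Finset.univ.filter (fun j' => pu j'), r' j' ^ m j (cl j')) (j : J) :
    ∏ t, newG cl g r t ^ m j t = (∏ t, g t ^ m j t) * u j := by
  rw [newG_prod]
  congr 1
  by_cases hj : pu j
  · rw [← h1 j hj]
    refine Finset.prod_eq_single j (fun j' _ hne => ?_) (fun h => absurd (Finset.mem_univ _) h)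
    rw [hD.pure j hj _ (fun h => hne (hD.inj h)), pow_zero]
  · rw [← Finset.mul_prod_erase _ _ (Finset.mem_univ j), h2 j hj]
    have h3 : ∏ j' ∈ Finset.univ.erase j, r j' ^ m j (cl j') =
        ∏ j' ∈ Finset.univ.filter (fun j' => pu j'), r j' ^ m j (cl j') := by
      symm
      refine Finset.prod_subset (fun j' hj' => ?_) (fun j' hj' hn => ?_)
      · refine Finset.mem_erase.2 ⟨?_, Finset.mem_univ _⟩
        rintro rfl
        exact hj (Finset.mem_filter.1 hj').2
      · have h4 : ¬ pu j' := fun h => hn (Finset.mem_filter.2 ⟨Finset.mem_univ _, h⟩)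
        rw [hD.priv j' h4 j (Finset.mem_erase.1 hj').1.symm, pow_zero]
    rw [h3, mul_assoc, ← Finset.prod_mul_distrib]
    have h5 : ∏ j' ∈ Finset.univ.filter (fun j' => pu j'),
        (r' j' ^ m j (cl j') * r j' ^ m j (cl j')) = 1 := by
      refine Finset.prod_eq_one fun j' hj' => ?_
      rw [← mul_pow, mul_comm, hr' j' (Finset.mem_filter.1 hj').2, one_pow]
    rw [h5, mul_one]

end alg

section formal

variable {σ : Type}

theorem coeff1_mul (i : σ) (a b : MvPowerSeries σ ℂ) :
    MvPowerSeries.coeff (Finsupp.single i 1) (a * b) =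
      MvPowerSeries.coeff (Finsupp.single i 1) a * MvPowerSeries.constantCoeff b +
        MvPowerSeries.constantCoeff a * MvPowerSeries.coeff (Finsupp.single i 1) b := by
  classical
  rw [MvPowerSeries.coeff_mul, Finsupp.antidiagonal_single, Finset.sum_map]
  have : Finset.HasAntidiagonal.antidiagonal (1 : ℕ) = {(0, 1), (1, 0)} := rfl
  rw [this, Finset.sum_pair (by decide)]
  simp only [Function.Embedding.prodMap, Function.Embedding.coeFn_mk, Prod.map]
  simp only [Finsupp.single_zero]
  rw [MvPowerSeries.coeff_zero_eq_constantCoeff_apply,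
    MvPowerSeries.coeff_zero_eq_constantCoeff_apply]
  ring

variable {K : Type} [Field K] (φ : K →+* ℂ)

/-- complex power series of polynomials -/
noncomputable def Th (σ : Type) (φ : K →+* ℂ) : MvPolynomial σ K →+* MvPowerSeries σ ℂ :=
  (MvPolynomial.coeToMvPowerSeries.ringHom (σ := σ) (R := ℂ)).comp (map φ)

theorem Th_apply (A : MvPolynomial σ K) : Th σ φ A = ((map φ A : MvPolynomial σ ℂ) :
    MvPowerSeries σ ℂ) := rfl

theorem Th_coeff (A : MvPolynomial σ K) (n : σ →₀ ℕ) :
    MvPowerSeries.coeff n (Th σ φ A) = φ (coeff n A) := by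
  rw [Th_apply, MvPolynomial.coeff_coe, coeff_map]

theorem Th_cc (A : MvPolynomial σ K) :
    MvPowerSeries.constantCoeff (Th σ φ A) = φ (constantCoeff A) := by
  rw [← MvPowerSeries.coeff_zero_eq_constantCoeff_apply, Th_coeff]
  rfl

/-- the model of a germ -/
noncomputable def model {T J : Type} [Fintype T] [Fintype J] (m : J → T → ℕ) (γ : J → K) :
    MvPolynomial T K := ∑ j, C (γ j) * ∏ t, X t ^ m j t

theorem map_model {T J : Type} [Fintype T] [Fintype J] (m : J → T → ℕ) (γ : J → K) :
    map φ (model m γ) = model m (fun j => φ (γ j)) := by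
  unfold model
  rw [map_sum]
  refine Finset.sum_congr rfl fun j _ => ?_
  rw [map_mul, map_C, map_prod]
  congr 1
  refine Finset.prod_congr rfl fun t _ => ?_
  rw [map_pow, map_X]

theorem model_wh {T J : Type} [Fintype T] [Fintype J] (m : J → T → ℕ) (γ : J → K) (w : T → ℕ)
    (d : ℕ) (hd : ∀ j, ∑ t, m j t * w t = d) : (model m γ).IsWeightedHomogeneous w d := by
  classical
  unfold model
  refine IsWeightedHomogeneous.sum _ _ _ fun j _ => ?_
  refine IsWeightedHomogeneous.C_mul ?_ _
  rw [← hd j]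
  refine IsWeightedHomogeneous.prod _ _ _ fun t _ => ?_
  exact (isWeightedHomogeneous_X K w t).pow (m j t)

variable {c : ℕ} {J : Type} [Fintype J] [DecidableEq J]

open Classical in
/-- **Removal of units: the functional equations.** -/
theorem tr_formal [Fintype σ] (F : MvPolynomial σ K) (g : Fin c → MvPolynomial σ K)
    (s : Fin c → σ) (hg : ∀ t, constantCoeff (g t) = 0)
    (hdet : (Matrix.of fun u t => coeff (Finsupp.single (s u) 1) (g t)).det ≠ 0)
    (m : J → Fin c → ℕ) (U : J → MvPolynomial σ K) (hU : ∀ j, constantCoeff (U j) ≠ 0)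
    (D : MvPolynomial σ K) (hD : constantCoeff D ≠ 0)
    (heq : D * F = ∑ j, U j * ∏ t, g t ^ m j t) (cl : J → Fin c) (pu : J → Prop)
    (hm : Dist cl pu m) (w : Fin c → ℕ) (hw : ∀ t, 0 < w t) (d : ℕ)
    (hd : ∀ j, ∑ t, m j t * w t = d)
    (hne : model m (fun j => constantCoeff (U j)) ≠ 0)
    (b : Polynomial ℂ) (hb : IsBFunction (map φ F) b) :
    IsBFunction (map φ (model m fun j => constantCoeff (U j))) b := by
  set γ : J → K := fun j => constantCoeff (U j) with hγ
  have hγ0 : ∀ j, φ (γ j) ≠ 0 := fun j => (map_ne_zero φ).2 (hU j)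
  have hDc : MvPowerSeries.constantCoeff (Th σ φ D) ≠ 0 := by
    rw [Th_cc]; exact (map_ne_zero φ).2 hD
  have hDD : Th σ φ D * (Th σ φ D)⁻¹ = 1 := MvPowerSeries.mul_inv_cancel _ hDc
  set u : J → MvPowerSeries σ ℂ := fun j =>
    MvPowerSeries.C ((φ (γ j))⁻¹) * Th σ φ (U j) with hu
  have hu1 : ∀ j, MvPowerSeries.constantCoeff (u j) = 1 := by
    intro j
    rw [hu]
    beta_reduce
    rw [map_mul, MvPowerSeries.constantCoeff_C, Th_cc]
    exact inv_mul_cancel₀ (hγ0 j)
  choose ρ hρ hρ1 using fun j => root_series (u j) (hu1 j) (m j (cl j)) (hm.ne j)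
  have hρi : ∀ j, ρ j * (ρ j)⁻¹ = 1 := fun j =>
    MvPowerSeries.mul_inv_cancel _ (by rw [hρ1]; exact one_ne_zero)
  have hρi1 : ∀ j, MvPowerSeries.constantCoeff ((ρ j)⁻¹) = 1 := fun j => by
    rw [MvPowerSeries.constantCoeff_inv, hρ1, inv_one]
  set u' : J → MvPowerSeries σ ℂ := fun j =>
    u j * ∏ j' ∈ Finset.univ.filter (fun j' => pu j'), ((ρ j')⁻¹) ^ m j (cl j') with hu'
  have hu'1 : ∀ j, MvPowerSeries.constantCoeff (u' j) = 1 := by
    intro j
    rw [hu']
    beta_reduce
    rw [map_mul, hu1, one_mul, map_prod]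
    refine Finset.prod_eq_one fun j' _ => ?_
    rw [map_pow, hρi1, one_pow]
  choose υ hυ hυ1 using fun j => root_series (u' j) (hu'1 j) (m j (cl j)) (hm.ne j)
  set r : J → MvPowerSeries σ ℂ := fun j => if pu j then ρ j else υ j with hr
  have hr1 : ∀ j, MvPowerSeries.constantCoeff (r j) = 1 := by
    intro j
    rw [hr]
    beta_reduce
    split_ifs
    · exact hρ1 j
    · exact hυ1 j
  have hrp : ∀ j, pu j → r j * (ρ j)⁻¹ = 1 := by
    intro j hj
    rw [hr]
    beta_reduce
    rw [if_pos hj]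
    exact hρi j
  have hrp1 : ∀ j, pu j → r j ^ m j (cl j) = u j := by
    intro j hj
    rw [hr]
    beta_reduce
    rw [if_pos hj]
    exact hρ j
  have hrp2 : ∀ j, ¬ pu j → r j ^ m j (cl j) = u j * ∏ j' ∈ Finset.univ.filter
      (fun j' => pu j'), ((ρ j')⁻¹) ^ m j (cl j') := by
    intro j hj
    rw [hr]
    beta_reduce
    rw [if_neg hj]
    exact hυ j
  set G : Fin c → MvPowerSeries σ ℂ := newG cl (fun t => Th σ φ (g t)) r with hG
  have hPi : ∀ t, MvPowerSeries.constantCoeff
      (∏ j ∈ Finset.univ.filter (fun j => cl j = t), r j) = 1 := by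
    intro t
    rw [map_prod]
    exact Finset.prod_eq_one fun j _ => hr1 j
  have hG0 : ∀ t, MvPowerSeries.constantCoeff (G t) = 0 := by
    intro t
    rw [hG, newG, map_mul, Th_cc, hg t, map_zero, zero_mul]
  have hG1 : ∀ (i : σ) t, MvPowerSeries.coeff (Finsupp.single i 1) (G t) =
      φ (coeff (Finsupp.single i 1) (g t)) := by
    intro i t
    rw [hG, newG, coeff1_mul, hPi, mul_one, Th_cc, hg t, map_zero, zero_mul, add_zero, Th_coeff]
  have hdetG : (Matrix.of fun u t => MvPowerSeries.coeff (Finsupp.single (s u) 1) (G t)).det ≠ 0 := by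
    have h1 : (Matrix.of fun u t => MvPowerSeries.coeff (Finsupp.single (s u) 1) (G t)) =
        φ.mapMatrix (Matrix.of fun u t => coeff (Finsupp.single (s u) 1) (g t)) := by
      ext1 u t
      rw [Matrix.of_apply, hG1]
      rfl
    rw [h1, ← RingHom.map_det]
    exact (map_ne_zero φ).2 hdet
  have hae : aeval G (map φ (model m γ)) = Th σ φ D * Th σ φ F := by
    rw [map_model, ← map_mul (Th σ φ), heq, map_sum, model, map_sum]
    refine Finset.sum_congr rfl fun j _ => ?_
    rw [map_mul, aeval_C, map_prod, map_mul, map_prod]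
    simp only [map_pow, aeval_X]
    rw [hG, newG_prod' cl pu m hm _ r (fun j => (ρ j)⁻¹) u hrp hrp1 hrp2 j, hu]
    beta_reduce
    have h1 : (algebraMap ℂ (MvPowerSeries σ ℂ)) (φ (γ j)) * MvPowerSeries.C ((φ (γ j))⁻¹) = 1 := by
      change MvPowerSeries.C (φ (γ j)) * MvPowerSeries.C ((φ (γ j))⁻¹) = 1
      rw [← map_mul, mul_inv_cancel₀ (hγ0 j), map_one]
    linear_combination ((∏ t, Th σ φ (g t) ^ m j t) * (Th σ φ (U j))) * h1
  have huD : IsUnit ((Th σ φ D)⁻¹) := by
    rw [MvPowerSeries.isUnit_iff_constantCoeff, MvPowerSeries.constantCoeff_inv]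
    exact (isUnit_iff_ne_zero.2 (inv_ne_zero hDc))
  obtain ⟨v, hv⟩ := huD
  refine bfun_formal (map φ F) (map φ (model m γ)) ?_ G s hG0 hdetG v ?_ w hw d ?_ b hb
  · rw [Ne, map_eq_zero_iff _ (MvPolynomial.map_injective φ φ.injective)]
    exact hne
  · rw [hv, hae, ← Th_apply]
    linear_combination (-(Th σ φ F)) * hDD
  · rw [map_model]
    exact model_wh m _ w d hd

end formal

end Pool.Agent.H1.QB
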