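import Pool.Agent.H1.QB.Asm

set_option autoImplicit false
set_option linter.unusedSectionVars false
set_option linter.unusedVariables false

/-! # Translates of sparse block models -/

namespace Pool.Agent.H1.QB

open MvPolynomial

section tail

variable {T K I : Type} [Field K]

open Classical in
theorem tail_cases (t₀ : T) (S : Finset I) (e : I → ℕ) (H : I → MvPolynomial T K)
    (hH : ∀ i ∈ S, constantCoeff (H i) ≠ 0) (he : ∀ i ∈ S, e i ≠ 0) (n : ℕ) (g : K)
    (hn : g ≠ 0 → n ≠ 0) (hlt : g ≠ 0 → ∀ i ∈ S, e i < n) (R : MvPolynomial T K)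
    (hR : R = (∑ i ∈ S, H i * X t₀ ^ e i) + C g * X t₀ ^ n) :
    R = 0 ∨ (∃ (N : ℕ) (Z : MvPolynomial T K), N ≠ 0 ∧ constantCoeff Z ≠ 0 ∧
      R = Z * X t₀ ^ N) ∨ (∃ (N : ℕ) (Z : MvPolynomial T K), N ≠ 0 ∧ constantCoeff Z = 0 ∧
        R = Z * X t₀ ^ N ∧ (∃ i ∈ S, ∃ i' ∈ S, i ≠ i' ∧ e i = N ∧ e i' = N) ∧
        ∀ t, t ≠ t₀ → coeff (Finsupp.single t 1) Z =
          ∑ i ∈ S, if e i = N then coeff (Finsupp.single t 1) (H i) else 0) := by
  rcases S.eq_empty_or_nonempty with hS | hS
  · subst hS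
    rw [Finset.sum_empty, zero_add] at hR
    by_cases hg : g = 0
    · left
      rw [hR, hg, map_zero, zero_mul]
    · right; left
      refine ⟨n, C g, hn hg, ?_, hR⟩
      rw [constantCoeff_C]
      exact hg
  · right
    obtain ⟨i₀, hi₀, hmin⟩ := Finset.exists_min_image S e hS
    set N := e i₀ with hN
    set Z : MvPolynomial T K := (∑ i ∈ S, H i * X t₀ ^ (e i - N)) + C g * X t₀ ^ (n - N) with hZ
    have hRZ : R = Z * X t₀ ^ N := by
      rw [hR, hZ, add_mul, Finset.sum_mul]
      congr 1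
      · refine Finset.sum_congr rfl fun i hi => ?_
        rw [mul_assoc, ← pow_add, Nat.sub_add_cancel (hmin i hi)]
      · by_cases hg : g = 0
        · rw [hg, map_zero]
          ring
        · rw [mul_assoc, ← pow_add, Nat.sub_add_cancel (hlt hg i₀ hi₀).le]
    have hcZ : constantCoeff Z = ∑ i ∈ S, if e i = N then constantCoeff (H i) else 0 := by
      rw [hZ, map_add, map_sum]
      have h1 : constantCoeff (C g * X t₀ ^ (n - N) : MvPolynomial T K) = 0 := by
        rw [map_mul, constantCoeff_C, map_pow, constantCoeff_X]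
        by_cases hg : g = 0
        · rw [hg, zero_mul]
        · have := hlt hg i₀ hi₀
          rw [zero_pow (by omega), mul_zero]
      rw [h1, add_zero]
      refine Finset.sum_congr rfl fun i hi => ?_
      rw [map_mul, map_pow, constantCoeff_X]
      have := hmin i hi
      split_ifs with h
      · rw [h, Nat.sub_self, pow_zero, mul_one]
      · rw [zero_pow (by omega), mul_zero]
    by_cases h0 : constantCoeff Z = 0
    · right
      refine ⟨N, Z, he i₀ hi₀, h0, hRZ, ?_, ?_⟩
      · by_contra hcon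
        push Not at hcon
        rw [hcZ, Finset.sum_eq_single i₀] at h0
        · rw [if_pos rfl] at h0
          exact hH i₀ hi₀ h0
        · intro i hi hne
          rw [if_neg]
          exact hcon i₀ hi₀ i hi (Ne.symm hne) rfl
        · exact fun h => absurd hi₀ h
      · intro t ht
        have hX : ∀ k : ℕ, coeff (Finsupp.single t 1) (X t₀ ^ k : MvPolynomial T K) = 0 := fun k =>
          (mem_Zt _ _).1 ((Zt t).pow_mem (X_Zt t t₀ (Ne.symm ht)) k)
        rw [hZ, coeff_add, coeff_sum, coeff_C_mul, hX, mul_zero, add_zero]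
        refine Finset.sum_congr rfl fun i hi => ?_
        rw [c1_mul, hX, mul_zero, add_zero, map_pow, constantCoeff_X]
        have := hmin i hi
        split_ifs with h
        · rw [h, Nat.sub_self, pow_zero, mul_one]
        · rw [zero_pow (by omega), mul_zero]
    · left
      exact ⟨N, Z, he i₀ hi₀, h0, hRZ⟩

end tail

variable {p : ℕ} [Fact p.Prime] {B V I : Type} [Fintype B] [Fintype V] [Fintype I]

theorem trans_model {T J : Type} [Fintype T] [Fintype J] (m : J → T → ℕ) (γ : J → ℚ_[p])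
    (P : T → ℚ_[p]) : trans P (model m γ) = ∑ j, C (γ j) * ∏ t, (X t + C (P t)) ^ m j t := by
  unfold trans model
  rw [map_sum]
  refine Finset.sum_congr rfl fun j _ => ?_
  rw [map_mul, aeval_C, map_prod]
  simp only [map_pow, aeval_X]
  rfl

theorem c1_model {T J : Type} [Fintype T] [DecidableEq T] [Fintype J] (m : J → T → ℕ) (γ : J → ℚ_[p])
    (P : T → ℚ_[p]) (t : T) : coeff (Finsupp.single t 1) (trans P (model m γ)) =
      ∑ j, γ j * (m j t * P t ^ (m j t - 1) * ∏ t' ∈ Finset.univ.erase t, P t' ^ m j t') := by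
  rw [trans_model, coeff_sum]
  refine Finset.sum_congr rfl fun j _ => ?_
  rw [coeff_C_mul, c1_prod]

open Classical in
theorem bd_a (d : BD B V I) (γ : I ⊕ {k // d.A k} → ℚ_[p]) (hγ : ∀ j, γ j ≠ 0)
    (P : B ⊕ V → ℚ_[p])
    (hc : ∀ t, coeff (Finsupp.single t 1) (trans P (model d.mt γ)) = 0) (i : I)
    (hi : ∀ v, d.π v = i → P (Sum.inr v) ≠ 0) : ∃ k, d.M i k ≠ 0 ∧ P (Sum.inl k) = 0 := by
  by_contra hcon
  push Not at hcon
  obtain ⟨v₀, hv₀⟩ := d.sj i
  have h1 := hc (Sum.inr v₀)
  rw [c1_model, Finset.sum_eq_single (Sum.inl i)] at h1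
  · have h2 : (d.mt (Sum.inl i) (Sum.inr v₀) : ℚ_[p]) ≠ 0 := by
      rw [Nat.cast_ne_zero]
      simp only [BD.mt, BD.ex]
      rw [if_pos hv₀]
      exact d.a0 _
    rcases mul_eq_zero.1 h1 with h3 | h3
    · exact hγ _ h3
    rcases mul_eq_zero.1 h3 with h4 | h4
    · rcases mul_eq_zero.1 h4 with h5 | h5
      · exact h2 h5
      · exact pow_ne_zero _ (hi v₀ hv₀) h5
    · obtain ⟨t, _, ht⟩ := Finset.prod_eq_zero_iff.1 h4
      have h6 : d.mt (Sum.inl i) t ≠ 0 := by
        intro h7
        rw [h7, pow_zero] at ht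
        exact one_ne_zero ht
      have h7 : P t = 0 := (pow_eq_zero_iff h6).1 ht
      rcases t with k | v
      · exact hcon k h6 h7
      · simp only [BD.mt, BD.ex] at h6
        refine hi v ?_ h7
        by_contra h8
        rw [if_neg h8] at h6
        exact h6 rfl
  · rintro (i' | k) _ hne
    · have : d.mt (Sum.inl i') (Sum.inr v₀) = 0 := by
        simp only [BD.mt, BD.ex]
        rw [if_neg]
        rintro rfl
        exact hne (by rw [hv₀])
      rw [this]
      simp
    · have : d.mt (Sum.inr k) (Sum.inr v₀) = 0 := by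
        simp only [BD.mt]
      rw [this]
      simp
  · exact fun h => absurd (Finset.mem_univ _) h

open Classical in
theorem bd_b (d : BD B V I) (γ : I ⊕ {k // d.A k} → ℚ_[p]) (hγ : ∀ j, γ j ≠ 0)
    (P : B ⊕ V → ℚ_[p])
    (hc : ∀ t, coeff (Finsupp.single t 1) (trans P (model d.mt γ)) = 0) (k₀ : B) (hk₀ : d.A k₀) :
    P (Sum.inl k₀) = 0 := by
  by_contra hcon
  have h1 := hc (Sum.inl k₀)
  rw [c1_model, Finset.sum_eq_single (Sum.inr ⟨k₀, hk₀⟩)] at h1
  · have h2 : d.mt (Sum.inr ⟨k₀, hk₀⟩) (Sum.inl k₀) = d.n k₀ := by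
      simp only [BD.mt, if_true]
    rw [h2] at h1
    rcases mul_eq_zero.1 h1 with h3 | h3
    · exact hγ _ h3
    rcases mul_eq_zero.1 h3 with h4 | h4
    · rcases mul_eq_zero.1 h4 with h5 | h5
      · exact d.n0 k₀ hk₀ (by exact_mod_cast h5)
      · exact pow_ne_zero _ hcon h5
    · obtain ⟨t, ht', ht⟩ := Finset.prod_eq_zero_iff.1 h4
      have h6 : d.mt (Sum.inr ⟨k₀, hk₀⟩) t = 0 := by
        rcases t with k | v
        · simp only [BD.mt]
          rw [if_neg]
          rintro rfl
          exact (Finset.mem_erase.1 ht').1 rfl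
        · simp only [BD.mt]
      rw [h6, pow_zero] at ht
      exact one_ne_zero ht
  · rintro (i | k) _ hne
    · by_cases hM : d.M i k₀ = 0
      · have : d.mt (Sum.inl i) (Sum.inl k₀) = 0 := by
          simp only [BD.mt]
          exact hM
        rw [this]
        simp
      · have h2 : ∃ v, d.π v = i ∧ P (Sum.inr v) = 0 := by
          by_contra h3
          push Not at h3
          obtain ⟨k, hk1, hk2⟩ := bd_a d γ hγ P hc i h3
          rw [d.sg i k k₀ hk1 hM] at hk2
          exact hcon hk2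
        obtain ⟨v, hv, hv0⟩ := h2
        have h3 : ∏ t' ∈ Finset.univ.erase (Sum.inl k₀ : B ⊕ V), P t' ^ d.mt (Sum.inl i) t' = 0 := by
          refine Finset.prod_eq_zero (i := Sum.inr v) (Finset.mem_erase.2 ⟨by simp,
            Finset.mem_univ _⟩) ?_
          rw [hv0, zero_pow]
          simp only [BD.mt, BD.ex]
          rw [if_pos hv]
          exact d.a0 v
        rw [h3]
        simp
    · have : d.mt (Sum.inr k) (Sum.inl k₀) = 0 := by
        simp only [BD.mt]
        rw [if_neg]
        intro h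
        apply hne
        congr 1
        exact Subtype.ext h.symm
      rw [this]
      simp
  · exact fun h => absurd (Finset.mem_univ _) h

end Pool.Agent.H1.QB
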