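import Pool.Agent.H1.QB.Trl

set_option autoImplicit false
set_option linter.unusedSectionVars false
set_option linter.unusedVariables false

/-! # Translates of sparse block models have smaller block forms -/

namespace Pool.Agent.H1.QB

open MvPolynomial

section helpers

theorem prod_split {ι R : Type} [Fintype ι] [CommMonoid R] (p : ι → Prop)
    [Fintype {i // p i}] [DecidablePred p] (f g : ι → R)
    (h : ∀ i, p i → f i = g i) :
    ∏ i, f i = (∏ i : {i // p i}, g i.1) * ∏ i, if p i then 1 else f i := by
  classical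
  rw [← Finset.prod_filter_mul_prod_filter_not Finset.univ p f]
  congr 1
  · rw [Finset.prod_subtype (Finset.univ.filter p) (p := p) (by simp)]
    exact Finset.prod_congr rfl fun i _ => h _ i.2
  · rw [Finset.prod_filter]
    refine Finset.prod_congr rfl fun i _ => ?_
    by_cases h1 : p i
    · rw [if_pos h1, if_neg (fun h2 => h2 h1)]
    · rw [if_neg h1, if_pos h1]

theorem sum_split {ι R : Type} [Fintype ι] [AddCommMonoid R] (p : ι → Prop)
    [Fintype {i // p i}] [DecidablePred fun i => ¬ p i] (f : ι → R) :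
    ∑ i, f i = (∑ i : {i // p i}, f i.1) + ∑ i ∈ Finset.univ.filter (fun i => ¬ p i), f i := by
  classical
  rw [← Finset.sum_filter_add_sum_filter_not Finset.univ p f]
  congr 1
  rw [Finset.sum_subtype (Finset.univ.filter p) (p := p) (by simp)]

theorem c1_prod' {T K V : Type} [Field K] [Fintype V] [DecidableEq V] (f : V → T)
    (hf : Function.Injective f) (P : V → K) (e : V → ℕ) (v : V) :
    coeff (Finsupp.single (f v) 1) (∏ v', (X (f v') + C (P v') : MvPolynomial T K) ^ e v') =
      e v * P v ^ (e v - 1) * ∏ v' ∈ Finset.univ.erase v, P v' ^ e v' := by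
  rw [← Finset.mul_prod_erase _ _ (Finset.mem_univ v), c1_mul, c1_pow]
  have h1 : ∏ v' ∈ Finset.univ.erase v, (X (f v') + C (P v') : MvPolynomial T K) ^ e v' ∈
      Zt (f v) := by
    refine (Zt _).prod_mem fun t' ht' => (Zt _).pow_mem (XC_Zt _ _ ?_ _) _
    exact fun h => (Finset.mem_erase.1 ht').1 (hf h)
  rw [mem_Zt] at h1
  rw [h1, mul_zero, add_zero, map_prod]
  congr 1
  refine Finset.prod_congr rfl fun t' _ => ?_
  rw [map_pow, cc_XC]

end helpers

variable {p : ℕ} [Fact p.Prime] {B V I : Type} [Fintype B] [Fintype V] [Fintype I]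

open Classical in
theorem bd_trans (d : BD B V I) (hn : d.nrm) (γ : I ⊕ {k // d.A k} → ℚ_[p]) (hγ : ∀ j, γ j ≠ 0)
    (P : B ⊕ V → ℚ_[p]) (hP : P ≠ 0)
    (hc : ∀ t, coeff (Finsupp.single t 1) (trans P (model d.mt γ)) = 0) :
    ∃ (B' V' I' : Type) (_ : Fintype B') (_ : Fintype V') (_ : Fintype I') (d' : BD B' V' I'),
      IsBF (trans P (model d.mt γ)) d' ∧ (Fintype.card V' < Fintype.card V ∨
        Fintype.card V' ≤ Fintype.card V ∧ Fintype.card B' < Fintype.card B) := by
  have ha := bd_a d γ hγ P hc
  have hb := bd_b d γ hγ P hc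
  set G : I → Prop := fun i => ∃ v, d.π v = i ∧ P (Sum.inr v) = 0 with hG
  have hG' : ∀ i, ¬ G i → ∀ v, d.π v = i → P (Sum.inr v) ≠ 0 := by
    intro i hi v hv h0
    exact hi ⟨v, hv, h0⟩
  set dd : BD {k // P (Sum.inl k) = 0} {v // P (Sum.inr v) = 0} {i // G i} :=
    { M := fun i k => d.M i.1 k.1
      sg := fun i k k' h h' => Subtype.ext (d.sg _ _ _ h h')
      π := fun v => ⟨d.π v.1, v.1, rfl, v.2⟩
      sj := by
        rintro ⟨i, v, hv, h0⟩
        exact ⟨⟨v, h0⟩, Subtype.ext hv⟩
      a := fun v => d.a v.1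
      a0 := fun v => d.a0 _
      A := fun _ => False
      n := fun _ => 0
      n0 := fun _ h => h.elim } with hdd
  set g : {k // P (Sum.inl k) = 0} → ℚ_[p] := fun k =>
    if h : d.A k.1 then γ (Sum.inr ⟨k.1, h⟩) else 0 with hg
  set H : I → MvPolynomial (B ⊕ V) ℚ_[p] := fun i =>
    C (γ (Sum.inl i)) * ∏ v, (X (Sum.inr v) + C (P (Sum.inr v))) ^ d.ex i v with hH
  set S : {k // P (Sum.inl k) = 0} → Finset I := fun k =>
    Finset.univ.filter (fun i => ¬ G i ∧ d.M i k.1 ≠ 0) with hS
  set R : {k // P (Sum.inl k) = 0} → MvPolynomial (B ⊕ V) ℚ_[p] := fun k =>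
    (∑ i ∈ S k, H i * X (Sum.inl k.1) ^ d.M i k.1) + C (g k) * X (Sum.inl k.1) ^ d.n k.1 with hR
  have hcH : ∀ i, ¬ G i → constantCoeff (H i) ≠ 0 := by
    intro i hi
    rw [hH]
    beta_reduce
    rw [map_mul, constantCoeff_C, map_prod]
    refine mul_ne_zero (hγ _) (Finset.prod_ne_zero_iff.2 fun v _ => ?_)
    rw [map_pow, cc_XC]
    by_cases h : d.π v = i
    · exact pow_ne_zero _ (hG' i hi v h)
    · rw [BD.ex, if_neg h, pow_zero]
      exact one_ne_zero
  have hc1 : ∀ i v, coeff (Finsupp.single (Sum.inr v) 1) (H i) = γ (Sum.inl i) *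
      (d.ex i v * P (Sum.inr v) ^ (d.ex i v - 1) *
        ∏ v' ∈ Finset.univ.erase v, P (Sum.inr v') ^ d.ex i v') := by
    intro i v
    rw [hH]
    beta_reduce
    rw [coeff_C_mul, c1_prod' (fun v => (Sum.inr v : B ⊕ V)) Sum.inr_injective
      (fun v => P (Sum.inr v)) (fun v => d.ex i v) v]
  have hc1z : ∀ i v, d.π v ≠ i → coeff (Finsupp.single (Sum.inr v) 1) (H i) = 0 := by
    intro i v hv
    rw [hc1, BD.ex, if_neg hv]
    simp
  have hc1n : ∀ i, ¬ G i → ∀ v, d.π v = i → coeff (Finsupp.single (Sum.inr v) 1) (H i) ≠ 0 := by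
    intro i hi v hv
    rw [hc1]
    refine mul_ne_zero (hγ _) (mul_ne_zero (mul_ne_zero ?_ (pow_ne_zero _ (hG' i hi v hv)))
      (Finset.prod_ne_zero_iff.2 fun v' _ => ?_))
    · rw [BD.ex, if_pos hv]
      exact_mod_cast d.a0 v
    · by_cases h : d.π v' = i
      · exact pow_ne_zero _ (hG' i hi v' h)
      · rw [BD.ex, if_neg h, pow_zero]
        exact one_ne_zero
  -- the owners
  set ow : B ⊕ V → Option {k // P (Sum.inl k) = 0} := Sum.elim (fun _ => none) (fun v =>
    if h : P (Sum.inr v) ≠ 0 ∧ ∃ k : {k // P (Sum.inl k) = 0}, d.M (d.π v) k.1 ≠ 0 then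
      some h.2.choose else none) with how
  have how1 : ∀ v k, ow (Sum.inr v) = some k ↔ P (Sum.inr v) ≠ 0 ∧ d.M (d.π v) k.1 ≠ 0 := by
    intro v k
    rw [how]
    simp only [Sum.elim_inr]
    constructor
    · intro h
      by_cases h1 : P (Sum.inr v) ≠ 0 ∧ ∃ k : {k // P (Sum.inl k) = 0}, d.M (d.π v) k.1 ≠ 0
      · rw [dif_pos h1, Option.some_inj] at h
        refine ⟨h1.1, ?_⟩
        rw [← h]
        exact h1.2.choose_spec
      · rw [dif_neg h1] at h
        exact absurd h (Option.some_ne_none _).symm
    · rintro ⟨h1, h2⟩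
      have h3 : P (Sum.inr v) ≠ 0 ∧ ∃ k : {k // P (Sum.inl k) = 0}, d.M (d.π v) k.1 ≠ 0 :=
        ⟨h1, k, h2⟩
      rw [dif_pos h3, Option.some_inj]
      exact Subtype.ext (d.sg _ _ _ h3.2.choose_spec h2)
  have how2 : ∀ s, ow s ≠ none → ∃ v, s = Sum.inr v ∧ P (Sum.inr v) ≠ 0 := by
    rintro (k | v) hs
    · exact absurd rfl hs
    · obtain ⟨k, hk⟩ := Option.ne_none_iff_exists'.1 hs
      exact ⟨v, rfl, ((how1 v k).1 hk).1⟩
  have key : ∃ (E : Type) (_ : Fintype E) (d' : BD {k // P (Sum.inl k) = 0}
      ({v // P (Sum.inr v) = 0} ⊕ E) ({i // G i} ⊕ E)),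
      2 * Fintype.card E ≤ Fintype.card {s // ow s ≠ none} ∧
        IsBF (trans P (model d.mt γ)) d' := by
    refine asm (F := trans P (model d.mt γ)) dd
      (fun k => X (Sum.inl k.1)) (fun v => X (Sum.inr v.1))
      (fun i => C (γ (Sum.inl i.1)) *
        ((∏ k, if P (Sum.inl k) = 0 then 1 else (X (Sum.inl k) + C (P (Sum.inl k))) ^ d.M i.1 k) *
          ∏ v, if P (Sum.inr v) = 0 then 1 else (X (Sum.inr v) + C (P (Sum.inr v))) ^ d.ex i.1 v)) 1
      (fun k => constantCoeff_X _ _) (fun v => constantCoeff_X _ _) (by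
        intro i
        rw [map_mul, constantCoeff_C, map_mul, map_prod, map_prod]
        refine mul_ne_zero (hγ _) (mul_ne_zero (Finset.prod_ne_zero_iff.2 fun k _ => ?_)
          (Finset.prod_ne_zero_iff.2 fun v _ => ?_))
        · split_ifs with h
          · rw [map_one]; exact one_ne_zero
          · rw [map_pow, cc_XC]
            exact pow_ne_zero _ h
        · split_ifs with h
          · rw [map_one]; exact one_ne_zero
          · rw [map_pow, cc_XC]
            exact pow_ne_zero _ h) (by rw [map_one]; exact one_ne_zero) (by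
        rw [Fintype.linearIndependent_iff]
        intro c hc t
        have h1 := congrFun hc (Sum.elim (fun k => Sum.inl k.1) (fun v => Sum.inr v.1) t)
        rw [Finset.sum_apply, Finset.sum_eq_single t] at h1
        · rw [Pi.smul_apply, smul_eq_mul, Pi.zero_apply] at h1
          refine (mul_eq_zero.1 h1).resolve_right ?_
          rcases t with k | v
          · simp only [Sum.elim_inl]
            rw [c1_X, if_pos rfl]
            exact one_ne_zero
          · simp only [Sum.elim_inr]
            rw [c1_X, if_pos rfl]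
            exact one_ne_zero
        · intro t' _ hne
          rw [Pi.smul_apply, smul_eq_mul]
          have h2 : coeff (Finsupp.single (Sum.elim (fun k : {k // P (Sum.inl k) = 0} =>
              (Sum.inl k.1 : B ⊕ V)) (fun v : {v // P (Sum.inr v) = 0} => Sum.inr v.1) t) 1)
              (Sum.elim (fun k : {k // P (Sum.inl k) = 0} => (X (Sum.inl k.1) :
                MvPolynomial (B ⊕ V) ℚ_[p])) (fun v : {v // P (Sum.inr v) = 0} => X (Sum.inr v.1)) t')
              = 0 := by
            rcases t with k | v <;> rcases t' with k' | v'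
            · simp only [Sum.elim_inl]
              rw [c1_X, if_neg]
              intro h
              exact hne (by rw [Subtype.ext (Sum.inl_injective h)])
            · simp only [Sum.elim_inl, Sum.elim_inr]
              rw [c1_X, if_neg (by simp)]
            · simp only [Sum.elim_inl, Sum.elim_inr]
              rw [c1_X, if_neg (by simp)]
            · simp only [Sum.elim_inr]
              rw [c1_X, if_neg]
              intro h
              exact hne (by rw [Subtype.ext (Sum.inr_injective h)])
          rw [h2, mul_zero]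
        · exact fun h => absurd (Finset.mem_univ _) h) R ?_ ow ?_ ?_
    · rw [one_mul, trans_model, Fintype.sum_sum_type, sum_split G, add_assoc]
      congr 1
      · refine Finset.sum_congr rfl fun i _ => ?_
        rw [Fintype.prod_sum_type, prod_split (fun k => P (Sum.inl k) = 0)
          (fun k => (X (Sum.inl k) + C (P (Sum.inl k)) : MvPolynomial (B ⊕ V) ℚ_[p]) ^
            d.mt (Sum.inl i.1) (Sum.inl k)) (fun k => X (Sum.inl k) ^ d.M i.1 k)
          (fun k hk => by rw [hk, map_zero, add_zero]; rfl),
          prod_split (fun v => P (Sum.inr v) = 0)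
          (fun v => (X (Sum.inr v) + C (P (Sum.inr v)) : MvPolynomial (B ⊕ V) ℚ_[p]) ^
            d.mt (Sum.inl i.1) (Sum.inr v)) (fun v => X (Sum.inr v) ^ d.ex i.1 v)
          (fun k hk => by rw [hk, map_zero, add_zero]; rfl)]
        have h1 : ∏ v : {v // P (Sum.inr v) = 0}, (X (Sum.inr v.1) : MvPolynomial (B ⊕ V) ℚ_[p]) ^
            dd.ex i v = ∏ v : {v // P (Sum.inr v) = 0}, X (Sum.inr v.1) ^ d.ex i.1 v.1 := by
          refine Finset.prod_congr rfl fun v _ => ?_
          congr 1
          unfold BD.ex
          rw [hdd]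
          simp only [Subtype.ext_iff]
        rw [h1]
        have h2 : ∀ k, (if P (Sum.inl k) = 0 then (1 : MvPolynomial (B ⊕ V) ℚ_[p]) else
            (X (Sum.inl k) + C (P (Sum.inl k))) ^ d.mt (Sum.inl i.1) (Sum.inl k)) =
            if P (Sum.inl k) = 0 then 1 else (X (Sum.inl k) + C (P (Sum.inl k))) ^ d.M i.1 k :=
          fun k => rfl
        have h3 : ∀ v, (if P (Sum.inr v) = 0 then (1 : MvPolynomial (B ⊕ V) ℚ_[p]) else
            (X (Sum.inr v) + C (P (Sum.inr v))) ^ d.mt (Sum.inl i.1) (Sum.inr v)) =
            if P (Sum.inr v) = 0 then 1 else (X (Sum.inr v) + C (P (Sum.inr v))) ^ d.ex i.1 v :=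
          fun v => rfl
        rw [Finset.prod_congr rfl fun k _ => h2 k, Finset.prod_congr rfl fun v _ => h3 v]
        change _ = _ * ((∏ k : {k // P (Sum.inl k) = 0},
          (X (Sum.inl k.1) : MvPolynomial (B ⊕ V) ℚ_[p]) ^ d.M i.1 k.1) * _)
        ring
      · have h1 : ∑ k, R k = (∑ k, ∑ i ∈ S k, H i * X (Sum.inl k.1) ^ d.M i k.1) +
            ∑ k, C (g k) * X (Sum.inl k.1) ^ d.n k.1 := by
          rw [← Finset.sum_add_distrib]
        rw [h1]
        congr 1
        · have h2 : ∀ k : {k // P (Sum.inl k) = 0}, ∑ i ∈ S k, H i * X (Sum.inl k.1) ^ d.M i k.1 =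
              ∑ i ∈ Finset.univ.filter (fun i => ¬ G i), if d.M i k.1 ≠ 0 then
                H i * X (Sum.inl k.1) ^ d.M i k.1 else 0 := by
            intro k
            rw [← Finset.sum_filter, Finset.filter_filter]
          rw [Finset.sum_congr rfl fun k _ => h2 k, Finset.sum_comm]
          refine Finset.sum_congr rfl fun i hi => ?_
          have hGi : ¬ G i := (Finset.mem_filter.1 hi).2
          obtain ⟨k, hk, hk0⟩ := ha i (hG' i hGi)
          rw [Finset.sum_eq_single (⟨k, hk0⟩ : {k // P (Sum.inl k) = 0})]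
          · rw [if_pos hk, Fintype.prod_sum_type, Finset.prod_eq_single k]
            · rw [hk0, map_zero, add_zero, hH]
              beta_reduce
              change C (γ (Sum.inl i)) * (X (Sum.inl k) ^ d.M i k *
                ∏ v, (X (Sum.inr v) + C (P (Sum.inr v))) ^ d.ex i v) = _
              ring
            · intro k' _ hne
              have h3 : d.mt (Sum.inl i) (Sum.inl k') = 0 := by
                change d.M i k' = 0
                by_contra h4
                exact hne (d.sg _ _ _ h4 hk)
              rw [h3, pow_zero]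
            · exact fun h => absurd (Finset.mem_univ _) h
          · intro k' _ hne
            rw [if_neg]
            intro h4
            exact hne (Subtype.ext (d.sg _ _ _ h4 hk))
          · exact fun h => absurd (Finset.mem_univ _) h
        · set f : B → MvPolynomial (B ⊕ V) ℚ_[p] := fun k =>
            C (if h : d.A k then γ (Sum.inr ⟨k, h⟩) else 0) * X (Sum.inl k) ^ d.n k with hf
          have h2 : ∀ k : {k // d.A k}, C (γ (Sum.inr k)) * ∏ t, (X t + C (P t)) ^
              d.mt (Sum.inr k) t = f k.1 := by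
            intro k
            rw [hf]
            beta_reduce
            rw [dif_pos k.2, Fintype.prod_sum_type, Finset.prod_eq_single k.1,
              Finset.prod_eq_one, mul_one]
            · have h3 : d.mt (Sum.inr k) (Sum.inl k.1) = d.n k.1 := by
                simp only [BD.mt, if_true]
              rw [h3, hb _ k.2, map_zero, add_zero]
            · intro v _
              have h3 : d.mt (Sum.inr k) (Sum.inr v) = 0 := rfl
              rw [h3, pow_zero]
            · intro k' _ hne
              have h3 : d.mt (Sum.inr k) (Sum.inl k') = 0 := by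
                simp only [BD.mt]
                rw [if_neg hne]
              rw [h3, pow_zero]
            · exact fun h => absurd (Finset.mem_univ _) h
          rw [Finset.sum_congr rfl fun k _ => h2 k]
          have h3 : ∑ k : {k // P (Sum.inl k) = 0}, C (g k) * X (Sum.inl k.1) ^ d.n k.1 =
              ∑ k : {k // P (Sum.inl k) = 0}, f k.1 := Finset.sum_congr rfl fun k _ => rfl
          rw [h3, ← Finset.sum_subtype (Finset.univ.filter fun k => d.A k) (by simp) f,
            ← Finset.sum_subtype (Finset.univ.filter fun k => P (Sum.inl k) = 0) (by simp) f]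
          refine Finset.sum_subset (fun k hk => ?_) fun k _ hk => ?_
          · rw [Finset.mem_filter] at hk ⊢
            exact ⟨hk.1, hb k hk.2⟩
          · rw [hf]
            beta_reduce
            rw [dif_neg, map_zero, zero_mul]
            exact fun h => hk (Finset.mem_filter.2 ⟨Finset.mem_univ _, h⟩)
    · intro s hs t
      obtain ⟨v, rfl, hv⟩ := how2 s hs
      rcases t with k | v'
      · simp only [Sum.elim_inl]
        rw [c1_X, if_neg (by simp)]
      · simp only [Sum.elim_inr]
        rw [c1_X, if_neg]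
        intro h
        rw [Sum.inr.injEq] at h
        apply hv
        rw [← h]
        exact v'.2
    · intro k
      have hSm : ∀ i, i ∈ S k ↔ ¬ G i ∧ d.M i k.1 ≠ 0 := fun i => by
        rw [hS, Finset.mem_filter]
        exact ⟨fun h => h.2, fun h => ⟨Finset.mem_univ _, h⟩⟩
      have hgA : g k ≠ 0 → d.A k.1 := by
        intro h
        by_contra h1
        apply h
        rw [hg]
        beta_reduce
        rw [dif_neg h1]
      rcases tail_cases (Sum.inl k.1 : B ⊕ V) (S k) (fun i => d.M i k.1) H
        (fun i hi => hcH i ((hSm i).1 hi).1) (fun i hi => ((hSm i).1 hi).2) (d.n k.1) (g k)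
        (fun h => d.n0 _ (hgA h)) (fun h i _ => hn i _ (hgA h)) (R k) rfl with h | h | h
      · exact Or.inl h
      · exact Or.inr (Or.inl h)
      · right; right
        obtain ⟨N, Z, hN, hZ, hRZ, ⟨i, hi, i', hi', hne, hiN, hiN'⟩, hco⟩ := h
        obtain ⟨v, hv⟩ := d.sj i
        obtain ⟨v', hv'⟩ := d.sj i'
        obtain ⟨hGi, hMi⟩ := (hSm i).1 hi
        obtain ⟨hGi', hMi'⟩ := (hSm i').1 hi'
        refine ⟨N, Z, Sum.inr v, Sum.inr v', hN, hZ, hRZ, ?_, ?_, ?_, ?_, ?_⟩
        · intro h
          rw [Sum.inr.injEq] at h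
          exact hne (by rw [← hv, ← hv', h])
        · rw [how1, hv]
          exact ⟨hG' i hGi v hv, hMi⟩
        · rw [how1, hv']
          exact ⟨hG' i' hGi' v' hv', hMi'⟩
        · rw [hco _ (by simp), Finset.sum_eq_single i]
          · rw [if_pos hiN]
            exact hc1n i hGi v hv
          · intro i'' _ hne'
            rw [hc1z i'' v (by rw [hv]; exact Ne.symm hne'), ite_self]
          · exact fun h => absurd hi h
        · intro s k' hs hkk
          obtain ⟨v'', rfl, hv''⟩ := how2 s (by rw [hs]; exact Option.some_ne_none _)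
          rw [hco _ (by simp)]
          refine Finset.sum_eq_zero fun i'' hi'' => ?_
          rw [hc1z i'' v'', ite_self]
          intro h3
          have h4 := ((how1 v'' k').1 hs).2
          rw [h3] at h4
          exact hkk (Subtype.ext (d.sg _ _ _ h4 ((hSm i'').1 hi'').2))
  obtain ⟨E, hE, d', hcE, hBF⟩ := key
  refine ⟨_, _, _, inferInstance, inferInstance, inferInstance, d', hBF, ?_⟩
  rw [Fintype.card_sum]
  have h1 : Fintype.card {s // ow s ≠ none} ≤ Fintype.card {v // P (Sum.inr v) ≠ 0} := by
    rw [Fintype.card_subtype, Fintype.card_subtype]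
    have h10 : (Finset.univ.filter fun s => ow s ≠ none).card ≤
        ((Finset.univ.filter fun v => P (Sum.inr v) ≠ 0).map
          (⟨fun v => (Sum.inr v : B ⊕ V), Sum.inr_injective⟩ : V ↪ B ⊕ V)).card := by
      refine Finset.card_le_card fun s hs => ?_
      rw [Finset.mem_filter] at hs
      obtain ⟨v, rfl, hv⟩ := how2 s hs.2
      rw [Finset.mem_map]
      exact ⟨v, Finset.mem_filter.2 ⟨Finset.mem_univ _, hv⟩, rfl⟩
    rwa [Finset.card_map] at h10
  have h2 : Fintype.card {v // P (Sum.inr v) = 0} + Fintype.card {v // P (Sum.inr v) ≠ 0} =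
      Fintype.card V := by
    rw [Fintype.card_subtype, Fintype.card_subtype]
    exact Finset.card_filter_add_card_filter_not _
  by_cases h3 : Fintype.card {v // P (Sum.inr v) ≠ 0} = 0
  · right
    refine ⟨by omega, ?_⟩
    have h4 : ∀ v, P (Sum.inr v) = 0 := by
      intro v
      by_contra h5
      exact (Fintype.card_eq_zero_iff.1 h3).false ⟨v, h5⟩
    have h5 : ∃ k, ¬ P (Sum.inl k) = 0 := by
      by_contra h6
      push Not at h6
      apply hP
      funext t
      rcases t with k | v
      · exact h6 k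
      · exact h4 v
    obtain ⟨k, hk⟩ := h5
    exact Fintype.card_subtype_lt hk
  · left
    omega

end Pool.Agent.H1.QB
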