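import Pool.Graph.R_pool_sql_team_seeded_3997aac3.Q57.QP.All

set_option autoImplicit false
set_option linter.unusedSectionVars false
set_option linter.unusedVariables false

/-! # For a weighted homogeneous polynomial, local functional equations at the origin are global -/

namespace Pool.Agent.H1.QB

open MvPolynomial Pool.Agent.W574.HS Pool.Agent.H628R4.TP

variable {σ : Type}

/-- an operator of weight `k` -/
def WtOp (w : σ → ℕ) (Q : Module.End ℂ (MvPolynomial σ ℂ)) (k : ℤ) : Prop :=
  ∀ (e : ℕ) (p : MvPolynomial σ ℂ), p.IsWeightedHomogeneous w e →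
    (∀ e' : ℕ, (e' : ℤ) = e + k → (Q p).IsWeightedHomogeneous w e') ∧ ((e : ℤ) + k < 0 → Q p = 0)

theorem WtOp.mul {w : σ → ℕ} {Q Q' : Module.End ℂ (MvPolynomial σ ℂ)} {k k' : ℤ}
    (h : WtOp w Q k) (h' : WtOp w Q' k') : WtOp w (Q * Q') (k + k') := by
  intro e p hp
  obtain ⟨h1, h2⟩ := h' e p hp
  rw [Module.End.mul_apply]
  by_cases hneg : (e : ℤ) + k' < 0
  · rw [h2 hneg, map_zero]
    exact ⟨fun _ _ => isWeightedHomogeneous_zero _ _ _, fun _ => rfl⟩
  · obtain ⟨e1, he1⟩ := Int.eq_ofNat_of_zero_le (not_lt.1 hneg)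
    obtain ⟨h3, h4⟩ := h e1 (Q' p) (h1 e1 he1.symm)
    exact ⟨fun e' he' => h3 e' (by rw [he', ← he1]; ring), fun hlt => h4 (by rw [← he1]; linarith)⟩

theorem wtOp_one (w : σ → ℕ) : WtOp w (1 : Module.End ℂ (MvPolynomial σ ℂ)) 0 := by
  intro e p hp
  refine ⟨?_, ?_⟩
  · intro e' he'
    have : e' = e := by omega
    rw [this, Module.End.one_apply]
    exact hp
  · intro h
    omega

theorem wtOp_X (w : σ → ℕ) (i : σ) :
    WtOp w (LinearMap.mulLeft ℂ (X i : MvPolynomial σ ℂ)) (w i) := by
  intro e p hp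
  refine ⟨?_, ?_⟩
  · intro e' he'
    have : e' = w i + e := by omega
    rw [this, LinearMap.mulLeft_apply]
    exact (isWeightedHomogeneous_X ℂ w i).mul hp
  · intro h
    omega

theorem pderiv_small (w : σ → ℕ) (i : σ) (e : ℕ) (he : e < w i) (p : MvPolynomial σ ℂ)
    (hp : p.IsWeightedHomogeneous w e) : pderiv i p = 0 := by
  classical
  induction hp using IsWeightedHomogeneous.induction_on with
  | zero => exact map_zero _
  | add p q hp hq h1 h2 => rw [map_add, h1, h2, add_zero]
  | monomial d r hr =>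
    have h1 : d i = 0 := by
      by_contra h
      have h2 : d i * w i ≤ Finsupp.weight w d := by
        rw [Finsupp.weight_apply, Finsupp.sum]
        exact Finset.single_le_sum (f := fun j => d j • w j) (fun _ _ => Nat.zero_le _)
          (Finsupp.mem_support_iff.2 h)
      have h3 : 1 * w i ≤ d i * w i := Nat.mul_le_mul_right _ (Nat.pos_of_ne_zero h)
      omega
    rw [pderiv_monomial, h1, Nat.cast_zero, mul_zero, monomial_zero]

theorem wtOp_pderiv (w : σ → ℕ) (i : σ) : WtOp w ((pderiv i : Derivation ℂ (MvPolynomial σ ℂ)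
    (MvPolynomial σ ℂ)) : MvPolynomial σ ℂ →ₗ[ℂ] MvPolynomial σ ℂ) (-(w i : ℤ)) := by
  intro e p hp
  refine ⟨?_, ?_⟩
  · intro e' he'
    have : e' + w i = e := by omega
    exact hp.pderiv this
  · intro h
    exact pderiv_small w i e (by omega) p hp

theorem exists_wtOp (w : σ → ℕ) {Q : Module.End ℂ (MvPolynomial σ ℂ)}
    (hQ : Q ∈ Submonoid.closure (Set.range (fun i => LinearMap.mulLeft ℂ (X i : MvPolynomial σ ℂ))
      ∪ Set.range (fun i => ((pderiv i : Derivation ℂ (MvPolynomial σ ℂ)
        (MvPolynomial σ ℂ)) : MvPolynomial σ ℂ →ₗ[ℂ] MvPolynomial σ ℂ)))) :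
    ∃ k : ℤ, WtOp w Q k := by
  induction hQ using Submonoid.closure_induction with
  | mem x hx =>
    rcases hx with ⟨i, rfl⟩ | ⟨i, rfl⟩
    · exact ⟨w i, wtOp_X w i⟩
    · exact ⟨-(w i : ℤ), wtOp_pderiv w i⟩
  | one => exact ⟨0, wtOp_one w⟩
  | mul x y _ _ hx hy =>
    obtain ⟨k, hk⟩ := hx
    obtain ⟨l, hl⟩ := hy
    exact ⟨k + l, hk.mul hl⟩

/-- the component of weight `k` of an operator -/
theorem exists_compw (w : σ → ℕ) (Q : Module.End ℂ (MvPolynomial σ ℂ)) (hQ : Q ∈ weylS σ) (k : ℤ) :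
    ∃ R ∈ weylS σ, ∀ (e e' : ℕ) (p : MvPolynomial σ ℂ), p.IsWeightedHomogeneous w e →
      (e' : ℤ) = e + k → weightedHomogeneousComponent w e' (Q p) = R p := by
  have hQ' := hQ
  rw [weylS, ← Subalgebra.mem_toSubmodule, Algebra.adjoin_eq_span] at hQ'
  induction hQ' using Submodule.span_induction with
  | mem u hu =>
    obtain ⟨l, hl⟩ := exists_wtOp w hu
    have hu' : u ∈ weylS σ := by
      rw [weylS, ← Subalgebra.mem_toSubmodule, Algebra.adjoin_eq_span]
      exact Submodule.subset_span hu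
    by_cases hkl : k = l
    · subst hkl
      refine ⟨u, hu', fun e e' p hp he' => ?_⟩
      exact weightedHomogeneousComponent_eq_self ((hl e p hp).1 e' he')
    · refine ⟨0, Subalgebra.zero_mem _, fun e e' p hp he' => ?_⟩
      rw [LinearMap.zero_apply]
      by_cases hneg : (e : ℤ) + l < 0
      · rw [(hl e p hp).2 hneg, map_zero]
      · obtain ⟨e1, he1⟩ := Int.eq_ofNat_of_zero_le (not_lt.1 hneg)
        have h1 := (hl e p hp).1 e1 he1.symm
        refine h1.weightedHomogeneousComponent_ne e' ?_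
        intro h2
        apply hkl
        omega
  | zero => exact ⟨0, Subalgebra.zero_mem _, fun e e' p hp he' => by simp⟩
  | add x y hx hy ihx ihy =>
    have hx' : x ∈ weylS σ := by
      rw [weylS, ← Subalgebra.mem_toSubmodule, Algebra.adjoin_eq_span]
      exact hx
    have hy' : y ∈ weylS σ := by
      rw [weylS, ← Subalgebra.mem_toSubmodule, Algebra.adjoin_eq_span]
      exact hy
    obtain ⟨R, hR, h1⟩ := ihx hx'
    obtain ⟨R', hR', h2⟩ := ihy hy'
    refine ⟨R + R', Subalgebra.add_mem _ hR hR', fun e e' p hp he' => ?_⟩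
    rw [LinearMap.add_apply, map_add, h1 e e' p hp he', h2 e e' p hp he', LinearMap.add_apply]
  | smul a x hx ihx =>
    have hx' : x ∈ weylS σ := by
      rw [weylS, ← Subalgebra.mem_toSubmodule, Algebra.adjoin_eq_span]
      exact hx
    obtain ⟨R, hR, h1⟩ := ihx hx'
    refine ⟨a • R, Subalgebra.smul_mem _ hR a, fun e e' p hp he' => ?_⟩
    rw [LinearMap.smul_apply, map_smul, h1 e e' p hp he', LinearMap.smul_apply]

theorem compw_mul (w : σ → ℕ) (hw : ∀ i, 0 < w i) (H G : MvPolynomial σ ℂ) (e : ℕ)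
    (hG : G.IsWeightedHomogeneous w e) :
    weightedHomogeneousComponent w e (H * G) = C (constantCoeff H) * G := by
  classical
  conv_lhs => rw [← sum_weightedHomogeneousComponent w H]
  rw [finsum_eq_sum _ (weightedHomogeneousComponent_finsupp H), Finset.sum_mul, map_sum]
  have hz : ∀ i : ℕ, weightedHomogeneousComponent w e (weightedHomogeneousComponent w i H * G) =
      if i = 0 then C (constantCoeff H) * G else 0 := by
    intro i
    have h1 := (weightedHomogeneousComponent_isWeightedHomogeneous (w := w) i H).mul hG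
    split_ifs with hi
    · subst hi
      rw [zero_add] at h1
      rw [weightedHomogeneousComponent_eq_self h1,
        weightedHomogeneousComponent_zero H (fun i => (hw i).ne')]
      rfl
    · exact h1.weightedHomogeneousComponent_ne e (by omega)
  rw [Finset.sum_congr rfl (fun i _ => hz i), Finset.sum_ite_eq']
  split_ifs with h0
  · rfl
  · have h0' : weightedHomogeneousComponent w 0 H = 0 := by
      by_contra hne
      exact h0 ((Set.Finite.mem_toFinset _).2 hne)
    rw [weightedHomogeneousComponent_zero H (fun i => (hw i).ne')] at h0'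
    have h1 : constantCoeff H = 0 := by
      have := congrArg (coeff 0) h0'
      rw [coeff_C, if_pos rfl, coeff_zero] at this
      exact this
    rw [h1, map_zero, zero_mul]

/-- **For a weighted homogeneous polynomial, local functional equations at the origin are
global.** -/
theorem global_of_algw (w : σ → ℕ) (hw : ∀ i, 0 < w i) (F : MvPolynomial σ ℂ)
    (D : ℕ) (hD : F.IsWeightedHomogeneous w D) (b : Polynomial ℂ)
    (H : MvPolynomial σ ℂ) (hH : constantCoeff H ≠ 0) (P : ℕ →₀ weylS σ)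
    (hP : ∀ s : ℕ, H * (C (b.eval (s : ℂ)) * F ^ s) =
      P.sum fun m Q => ((s : ℂ) ^ m) • (Q : Module.End ℂ (MvPolynomial σ ℂ)) (F ^ (s + 1))) :
    IsBFunction F b := by
  classical
  choose R hR1 hR2 using fun m : ℕ => exists_compw w (P m).1 (P m).2 (-(D : ℤ))
  set h0 : ℂ := constantCoeff H with hh0
  refine ⟨Finsupp.onFinset P.support (fun m => if m ∈ P.support then
    (h0⁻¹ • ⟨R m, hR1 m⟩ : weylS σ) else 0) (fun m hm => by
      by_contra h
      exact hm (if_neg h)), fun s => ?_⟩
  have h1 := congrArg (weightedHomogeneousComponent w (s • D)) (hP s)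
  have hFs : (C (b.eval (s : ℂ)) * F ^ s).IsWeightedHomogeneous w (s • D) := (hD.pow s).C_mul _
  rw [compw_mul w hw H _ (s • D) hFs, Finsupp.sum, map_sum] at h1
  have h2 : ∀ m ∈ P.support, weightedHomogeneousComponent w (s • D)
      (((s : ℂ) ^ m) • (P m : Module.End ℂ (MvPolynomial σ ℂ)) (F ^ (s + 1)))
      = ((s : ℂ) ^ m) • R m (F ^ (s + 1)) := by
    intro m _
    rw [map_smul, hR2 m ((s + 1) • D) (s • D) _ (hD.pow (s + 1)) (by
      simp only [smul_eq_mul]
      push_cast
      ring)]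
  rw [Finset.sum_congr rfl h2] at h1
  rw [Finsupp.onFinset_sum]
  · have h3 : C (b.eval (s : ℂ)) * F ^ s = C h0⁻¹ * (C h0 * (C (b.eval (s : ℂ)) * F ^ s)) := by
      rw [← mul_assoc, ← map_mul, inv_mul_cancel₀ hH, map_one, one_mul]
    rw [h3, h1, Finset.mul_sum]
    refine Finset.sum_congr rfl fun m hm => ?_
    rw [if_pos hm]
    change C h0⁻¹ * (((s : ℂ) ^ m) • (R m (F ^ (s + 1)))) =
      ((s : ℂ) ^ m) • ((h0⁻¹ • R m) (F ^ (s + 1)))
    rw [LinearMap.smul_apply, C_mul', smul_comm]
  · intro m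
    simp

end Pool.Agent.H1.QB
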